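import Mathlib

/-!
# LSP module AbsA (size 3)

A collar function. `ψ : ℝ × ℝ → M` is an open embedding into a metric space, `U` is open, `ψ p ∈ U` iff
`p.1 < 0`, and `K ⊆ U` is compact. There is a positive continuous `δ` such that the collar
`ψ '' {p | -δ p.2 ≤ p.1}` avoids `K` and has no points of `U \ range ψ` in its closure.
-/

open Set Topology Filter

namespace Pool.Agent.LSP

variable {M : Type*} [MetricSpace M]

/-- PROOF. `D := {p | dist (ψ p) (ψ (0, p.2)) < 1 / (1 + |p.2|) ∧ ψ p ∉ K}` is open (`K` is closed) and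
contains all `(0, r)` (`ψ (0, r) ∉ U ⊇ K`). Let `E := Dᶜ ∪ {p | 1 ≤ |p.1|}`, closed and nonempty, and
`δ r := Metric.infDist ((0, r) : ℝ × ℝ) E / 2`: continuous (`Metric.continuous_infDist_pt`), positive
(`IsClosed.notMem_iff_infDist_pos`). If `|s| ≤ δ r` then `dist (s, r) (0, r) = |s| < infDist`, so
`(s, r) ∉ E` (`Metric.infDist_le_dist_of_mem`), so `(s, r) ∈ D` and `|s| < 1`. Hence: for
`-δ r ≤ s < 0`: `ψ (s, r) ∉ K`, and for `0 ≤ s`: `ψ (s, r) ∉ U ⊇ K`.
Closure: let `u ∈ U`, `u ∉ range ψ`, and suppose `u ∈ closure (ψ '' {p | -δ p.2 ≤ p.1})`. There is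
a sequence (`mem_closure_iff_seq_limit`) `p n` with `-δ (p n).2 ≤ (p n).1`, `ψ (p n) → u`. Eventually
`ψ (p n) ∈ U`, so `(p n).1 < 0` and `|(p n).1| ≤ δ (p n).2`, so `p n ∈ D`, `|(p n).1| < 1`.
Case 1: `(p n).2` has a bounded subsequence: then a subsequence of `p n` converges to some `q` in
`ℝ × ℝ` (`tendsto_subseq_of_frequently_bounded`), so `ψ (p n) → ψ q` along it, `u = ψ q`, contradiction.
Case 2: `|(p n).2| → ∞`: then `dist (ψ (p n)) (ψ (0, (p n).2)) → 0`, so `ψ (0, (p n).2) → u ∈ U`, so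
`ψ (0, (p n).2) ∈ U` for some `n`: contradiction (`0 < 0`). -/
theorem exists_collar {ψ : ℝ × ℝ → M} (hψ : IsOpenEmbedding ψ) {U : Set M} (hU : IsOpen U)
    (hUψ : ∀ p, ψ p ∈ U ↔ p.1 < 0) {K : Set M} (hK : IsCompact K) (hKU : K ⊆ U) :
    ∃ δ : ℝ → ℝ, Continuous δ ∧ (∀ r, 0 < δ r) ∧ (∀ p : ℝ × ℝ, -δ p.2 ≤ p.1 → ψ p ∉ K) ∧
      ∀ u ∈ U, u ∉ range ψ → u ∉ closure (ψ '' {p : ℝ × ℝ | -δ p.2 ≤ p.1}) := by
  classical
  have hψc : Continuous ψ := hψ.continuous
  set D : Set (ℝ × ℝ) := {p | dist (ψ p) (ψ (0, p.2)) < 1 / (1 + |p.2|) ∧ ψ p ∉ K} with hDdef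
  have hpos : ∀ r : ℝ, 0 < 1 + |r| := fun r => by positivity
  have hD : IsOpen D := by
    refine IsOpen.inter ?_ ?_
    · have h1 : Continuous fun p : ℝ × ℝ => dist (ψ p) (ψ (0, p.2)) :=
        hψc.dist (hψc.comp (by fun_prop))
      have h2 : Continuous fun p : ℝ × ℝ => 1 / (1 + |p.2|) :=
        continuous_const.div (by fun_prop) (fun p => (hpos p.2).ne')
      exact isOpen_lt h1 h2
    · exact (hK.isClosed.preimage hψc).isOpen_compl
  set E : Set (ℝ × ℝ) := Dᶜ ∪ {p | 1 ≤ |p.1|} with hEdef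
  have hE : IsClosed E :=
    hD.isClosed_compl.union (isClosed_le continuous_const (by fun_prop))
  have hEne : E.Nonempty := ⟨(1, 0), Or.inr (by simp)⟩
  have h0K : ∀ r : ℝ, ψ (0, r) ∉ U := fun r h => lt_irrefl (0 : ℝ) ((hUψ (0, r)).mp h)
  have h0E : ∀ r : ℝ, ((0 : ℝ), r) ∉ E := by
    intro r h
    rcases h with h | h
    · apply h
      refine ⟨?_, fun h1 => h0K r (hKU h1)⟩
      simp only [dist_self]
      exact div_pos one_pos (hpos r)
    · have h' : (1 : ℝ) ≤ |(0 : ℝ)| := h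
      rw [abs_zero] at h'
      linarith
  set δ : ℝ → ℝ := fun r => Metric.infDist ((0 : ℝ), r) E / 2 with hδdef
  have hδc : Continuous δ := by
    have h1 : Continuous fun r : ℝ => ((0 : ℝ), r) := by fun_prop
    exact ((Metric.continuous_infDist_pt E).comp h1).div_const 2
  have hδpos : ∀ r, 0 < δ r := fun r =>
    half_pos ((hE.notMem_iff_infDist_pos hEne).mp (h0E r))
  have key : ∀ p : ℝ × ℝ, |p.1| ≤ δ p.2 → p ∈ D ∧ |p.1| < 1 := by
    intro p hp
    have h1 : p ∉ E := by
      intro hpE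
      have h2 : Metric.infDist ((0 : ℝ), p.2) E ≤ dist ((0 : ℝ), p.2) p :=
        Metric.infDist_le_dist_of_mem hpE
      have h3 : dist ((0 : ℝ), p.2) p = |p.1| := by
        rw [Prod.dist_eq]
        simp [Real.dist_eq]
      have h4 := hδpos p.2
      have h5 : δ p.2 = Metric.infDist ((0 : ℝ), p.2) E / 2 := rfl
      rw [h3] at h2
      linarith
    rw [hEdef, Set.mem_union, not_or] at h1
    refine ⟨not_not.mp h1.1, ?_⟩
    exact not_le.mp h1.2
  refine ⟨δ, hδc, hδpos, ?_, ?_⟩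
  · intro p hp hpK
    have h1 : p.1 < 0 := (hUψ p).mp (hKU hpK)
    have h2 : |p.1| ≤ δ p.2 := by rw [abs_of_neg h1]; linarith
    exact (key p h2).1.2 hpK
  · intro u hu hur hcl
    obtain ⟨x, hx, hxu⟩ := mem_closure_iff_seq_limit.mp hcl
    choose p hp hpx using hx
    have hev : ∀ᶠ n in atTop, x n ∈ U := hxu (hU.mem_nhds hu)
    have hev2 : ∀ᶠ n in atTop, p n ∈ D ∧ |(p n).1| < 1 := by
      filter_upwards [hev] with n hn
      apply key
      have h1 : (p n).1 < 0 := (hUψ (p n)).mp (by rw [hpx n]; exact hn)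
      have h2 : -δ (p n).2 ≤ (p n).1 := hp n
      rw [abs_of_neg h1]
      linarith
    by_cases hb : ∃ R : ℝ, ∃ᶠ n in atTop, |(p n).2| ≤ R
    · obtain ⟨R, hR⟩ := hb
      have hfr : ∃ᶠ n in atTop, p n ∈ Metric.closedBall ((0 : ℝ), (0 : ℝ)) (max R 1) := by
        refine (hR.and_eventually hev2).mono ?_
        rintro n ⟨h1, -, h2⟩
        rw [Metric.mem_closedBall, Prod.dist_eq]
        simp only [Real.dist_eq, sub_zero]
        exact max_le (h2.le.trans (le_max_right _ _)) (h1.trans (le_max_left _ _))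
      obtain ⟨q, -, φ, hφ, hφq⟩ :=
        tendsto_subseq_of_frequently_bounded Metric.isBounded_closedBall hfr
      have h1 : Tendsto (fun n => ψ (p (φ n))) atTop (𝓝 (ψ q)) := (hψc.tendsto q).comp hφq
      have h2 : Tendsto (fun n => ψ (p (φ n))) atTop (𝓝 u) := by
        have h3 : (fun n => ψ (p (φ n))) = fun n => x (φ n) := by
          funext n
          exact hpx (φ n)
        rw [h3]
        exact hxu.comp hφ.tendsto_atTop
      exact hur ⟨q, tendsto_nhds_unique h1 h2⟩
    · push Not at hb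
      have h1 : Tendsto (fun n => |(p n).2|) atTop atTop := by
        rw [tendsto_atTop]
        intro R
        have := hb R
        exact this.mono fun n hn => hn.le
      have h2 : Tendsto (fun n => 1 / (1 + |(p n).2|)) atTop (𝓝 0) := by
        have h3 : Tendsto (fun n => 1 + |(p n).2|) atTop atTop :=
          tendsto_atTop_add_const_left atTop 1 h1
        exact h3.const_div_atTop 1
      have h4 : Tendsto (fun n => dist (ψ (p n)) (ψ (0, (p n).2))) atTop (𝓝 0) := by
        refine squeeze_zero' (Eventually.of_forall fun n => dist_nonneg) ?_ h2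
        exact hev2.mono fun n hn => hn.1.1.le
      have h5 : Tendsto (fun n => ψ (0, (p n).2)) atTop (𝓝 u) := by
        have h6 : Tendsto (fun n => ψ (p n)) atTop (𝓝 u) := by
          have h3 : (fun n => ψ (p n)) = x := by
            funext n
            exact hpx n
          rw [h3]
          exact hxu
        exact (tendsto_iff_of_dist h4).mp h6
      obtain ⟨n, hn⟩ := (h5.eventually (hU.mem_nhds hu)).exists
      exact h0K _ hn

end Pool.Agent.LSP
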