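import Mathlib

/-!
# LSP module AbsB (size 2)

The model: a homeomorphism of the plane onto the left half-plane which is the identity on
`{p | p.1 ≤ -δ p.2}`.
-/

open Set Topology Filter

namespace Pool.Agent.LSP

/-- the first coordinate of the model -/
noncomputable def AbsB_f (d s : ℝ) : ℝ := min s (-d) - d ^ 2 / (max s (-d) + 2 * d) + d

/-- the first coordinate of the inverse of the model -/
noncomputable def AbsB_g (d t : ℝ) : ℝ := min t (-d) + (-d ^ 2 / max t (-d) - 2 * d) + d

theorem AbsB_f_le {d s : ℝ} (_ : 0 < d) (h : s ≤ -d) : AbsB_f d s = s := by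
  unfold AbsB_f
  rw [min_eq_left h, max_eq_right h]
  have : -d + 2 * d = d := by ring
  rw [this]
  field_simp
  ring

theorem AbsB_f_ge {d s : ℝ} (h : -d ≤ s) : AbsB_f d s = -d ^ 2 / (s + 2 * d) := by
  unfold AbsB_f
  rw [min_eq_right h, max_eq_left h]
  ring

theorem AbsB_g_le {d t : ℝ} (_ : 0 < d) (h : t ≤ -d) : AbsB_g d t = t := by
  unfold AbsB_g
  rw [min_eq_left h, max_eq_right h]
  field_simp
  ring

theorem AbsB_g_ge {d t : ℝ} (h : -d ≤ t) : AbsB_g d t = -d ^ 2 / t - 2 * d := by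
  unfold AbsB_g
  rw [min_eq_right h, max_eq_left h]
  ring

theorem AbsB_f_ge' {d s : ℝ} (hd : 0 < d) (h : -d ≤ s) : -d ≤ AbsB_f d s ∧ AbsB_f d s < 0 := by
  rw [AbsB_f_ge h]
  have h1 : 0 < s + 2 * d := by linarith
  constructor
  · rw [le_div_iff₀ h1]
    nlinarith
  · apply div_neg_of_neg_of_pos _ h1
    have := pow_pos hd 2
    linarith

theorem AbsB_g_ge' {d t : ℝ} (hd : 0 < d) (h : -d ≤ t) (ht : t < 0) : -d ≤ AbsB_g d t := by
  rw [AbsB_g_ge h]
  have h1 : d ≤ -d ^ 2 / t := by
    rw [le_div_iff_of_neg ht]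
    nlinarith
  linarith

theorem AbsB_gf {d : ℝ} (hd : 0 < d) (s : ℝ) : AbsB_g d (AbsB_f d s) = s := by
  rcases le_total s (-d) with h | h
  · rw [AbsB_f_le hd h, AbsB_g_le hd h]
  · rw [AbsB_g_ge (AbsB_f_ge' hd h).1, AbsB_f_ge h]
    have h1 : 0 < s + 2 * d := by linarith
    field_simp
    ring

theorem AbsB_fg {d : ℝ} (hd : 0 < d) {t : ℝ} (ht : t < 0) : AbsB_f d (AbsB_g d t) = t := by
  rcases le_total t (-d) with h | h
  · rw [AbsB_g_le hd h, AbsB_f_le hd h]
  · rw [AbsB_f_ge (AbsB_g_ge' hd h ht), AbsB_g_ge h]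
    have h1 : t ≠ 0 := ht.ne
    have h2 : -d ^ 2 / t - 2 * d + 2 * d = -d ^ 2 / t := by ring
    rw [h2]
    field_simp

/-- PROOF. `toFun (s, r) := (if s ≤ -δ r then s else -(δ r)^2 / (s + 2 * δ r), r)`,
`invFun (t, r) := (if t ≤ -δ r then t else -(δ r)^2 / t - 2 * δ r, r)`, source `univ`, target
`{p | p.1 < 0}`. For `s > -δ`: `s + 2δ > δ > 0`, so the value is in `(-δ, 0)`; for `t ∈ (-δ, 0)`:
`-δ²/t > δ`, the value is `> -δ`. Both are inverse to each other (`field_simp`). Continuity:
`Continuous.if_le` for `toFun` (at `s = -δ`: `-δ²/δ = -δ`; the second branch must be continuous on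
all of the plane for `Continuous.if_le`: write it with `max`, e.g. `-(δ r)^2 / (max s (-δ r) + 2 * δ r)`);
for `invFun` on the target use `ContinuousOn.if_le`-type lemmas or write the second branch as
`-(δ r)^2 / (max t (-δ r)) - 2 * δ r` with denominators nonzero for `t < 0`. A uniform way:
`toFun (s, r) := (min s (-δ r) + (max s (-δ r) ↦ -(δ r)^2/(max s (-δ r) + 2 δ r)) + δ r, r)`, i.e.
first coordinate `min s (-δ) - δ²/(max s (-δ) + 2δ) + δ` (check both cases), and the inverse
`min t (-δ) + (-δ²/max t (-δ) - 2δ) + δ`. -/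
theorem exists_model {δ : ℝ → ℝ} (hδ : Continuous δ) (hpos : ∀ r, 0 < δ r) :
    ∃ κ : OpenPartialHomeomorph (ℝ × ℝ) (ℝ × ℝ), κ.source = univ ∧ κ.target = {p | p.1 < 0} ∧
      (∀ p : ℝ × ℝ, p.1 ≤ -δ p.2 → κ p = p) ∧
      ∀ p : ℝ × ℝ, -δ p.2 ≤ p.1 → -δ (κ p).2 ≤ (κ p).1 := by
  have hs : ∀ p : ℝ × ℝ, 0 < max p.1 (-δ p.2) + 2 * δ p.2 := by
    intro p
    have h1 := le_max_right p.1 (-δ p.2)
    have h2 := hpos p.2
    linarith
  have hneg : ∀ p : ℝ × ℝ, AbsB_f (δ p.2) p.1 < 0 := by
    intro p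
    rcases le_total p.1 (-δ p.2) with h | h
    · rw [AbsB_f_le (hpos _) h]
      have := hpos p.2
      linarith
    · exact (AbsB_f_ge' (hpos _) h).2
  let κ : OpenPartialHomeomorph (ℝ × ℝ) (ℝ × ℝ) :=
    { toFun := fun p => (AbsB_f (δ p.2) p.1, p.2)
      invFun := fun p => (AbsB_g (δ p.2) p.1, p.2)
      source := univ
      target := {p | p.1 < 0}
      map_source' := fun p _ => hneg p
      map_target' := fun _ _ => mem_univ _
      left_inv' := fun p _ => by
        show (AbsB_g (δ p.2) (AbsB_f (δ p.2) p.1), p.2) = p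
        rw [AbsB_gf (hpos _)]
      right_inv' := fun p hp => by
        show (AbsB_f (δ p.2) (AbsB_g (δ p.2) p.1), p.2) = p
        rw [AbsB_fg (hpos _) hp]
      open_source := isOpen_univ
      open_target := isOpen_lt continuous_fst continuous_const
      continuousOn_toFun := by
        apply Continuous.continuousOn
        have hd : Continuous fun p : ℝ × ℝ => δ p.2 := hδ.comp continuous_snd
        refine Continuous.prodMk ?_ continuous_snd
        unfold AbsB_f
        exact ((continuous_fst.min hd.neg).sub ((hd.pow 2).div ((continuous_fst.max hd.neg).add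
          (continuous_const.mul hd)) fun p => (hs p).ne')).add hd
      continuousOn_invFun := by
        have hd : Continuous fun p : ℝ × ℝ => δ p.2 := hδ.comp continuous_snd
        refine ContinuousOn.prodMk ?_ continuous_snd.continuousOn
        unfold AbsB_g
        have h1 : ContinuousOn (fun p : ℝ × ℝ => -δ p.2 ^ 2 / max p.1 (-δ p.2)) {p | p.1 < 0} := by
          refine ContinuousOn.div (hd.pow 2).neg.continuousOn (continuous_fst.max hd.neg).continuousOn ?_
          intro p hp
          have h2 : max p.1 (-δ p.2) < 0 := max_lt hp (by have := hpos p.2; linarith)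
          exact h2.ne
        exact ((continuous_fst.min hd.neg).continuousOn.add (h1.sub (continuous_const.mul hd).continuousOn)).add
          hd.continuousOn }
  refine ⟨κ, rfl, rfl, ?_, ?_⟩
  · intro p hp
    show (AbsB_f (δ p.2) p.1, p.2) = p
    rw [AbsB_f_le (hpos _) hp]
  · intro p hp
    exact (AbsB_f_ge' (hpos _) hp).1

end Pool.Agent.LSP
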