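import Pool.Agent.LSP.AbsA
import Pool.Agent.LSP.AbsB

/-!
# LSP module AbsC (size 3)

Absorbing a half-plane.
-/

open Set Topology Filter

namespace Pool.Agent.LSP

/-- Gluing. PROOF. `θ u := if u ∈ range ψ then ψ (κ (ψ⁻¹ u)) else u` (use
`hψ.toOpenPartialHomeomorph` or `Function.invFun ψ`/`Classical.choose` for `ψ⁻¹`),
inverse `v ↦ if v ∈ range ψ then ψ (κ.symm (ψ⁻¹ v)) else v`.
Maps `U ∪ range ψ` to `U`: `κ p ∈ κ.target` gives `(κ p).1 < 0` so `ψ (κ p) ∈ U`. The inverse maps `U`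
to `U ∪ range ψ`; for `v = ψ q ∈ U`: `q.1 < 0`, `q ∈ κ.target`. Left and right inverse are clear.
Continuity of `θ` on the source: at `u = ψ p`: `θ ∘ ψ = ψ ∘ κ` is continuous and `ψ` is an open
embedding (`range ψ` is an open neighbourhood; on it `θ = ψ ∘ κ ∘ ψ⁻¹`). At `u ∈ U`, `u ∉ range ψ`: by
`hcl` the set `(closure (ψ '' {p | -δ p.2 ≤ p.1}))ᶜ` is a neighbourhood of `u`, and on it `θ` is the
identity (a point `ψ p` of it has `p.1 < -δ p.2`, so `κ p = p`). The same for the inverse: at `ψ q`,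
`q.1 < 0`, `κ.symm` is continuous at `q ∈ κ.target`; at `u ∈ U \ range ψ` the inverse is the identity
near `u`: for `q` with `q.1 < -δ q.2`: `κ q = q`, so `κ.symm q = q`. -/
theorem glue {M : Type*} [TopologicalSpace M] {ψ : ℝ × ℝ → M} (hψ : IsOpenEmbedding ψ)
    {U : Set M} (hU : IsOpen U) (hUψ : ∀ p, ψ p ∈ U ↔ p.1 < 0) {δ : ℝ → ℝ}
    {κ : OpenPartialHomeomorph (ℝ × ℝ) (ℝ × ℝ)} (hs : κ.source = univ)
    (ht : κ.target = {p | p.1 < 0}) (hid : ∀ p : ℝ × ℝ, p.1 ≤ -δ p.2 → κ p = p)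
    (hcl : ∀ u ∈ U, u ∉ range ψ → u ∉ closure (ψ '' {p : ℝ × ℝ | -δ p.2 ≤ p.1})) :
    ∃ θ : OpenPartialHomeomorph M M, θ.source = U ∪ range ψ ∧ θ.target = U ∧
      (∀ u, u ∉ range ψ → θ u = u) ∧ ∀ p : ℝ × ℝ, p.1 < -δ p.2 → θ (ψ p) = ψ p := by
  classical
  have hg : ∀ p, Function.invFun ψ (ψ p) = p := Function.leftInverse_invFun hψ.injective
  set C : Set M := ψ '' {p : ℝ × ℝ | -δ p.2 ≤ p.1} with hC
  let f : M → M := fun u => if u ∈ range ψ then ψ (κ (Function.invFun ψ u)) else u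
  let f' : M → M := fun u => if u ∈ range ψ then ψ (κ.symm (Function.invFun ψ u)) else u
  have f1 : ∀ p, f (ψ p) = ψ (κ p) := fun p => by simp only [f, mem_range_self, if_true, hg]
  have f2 : ∀ u, u ∉ range ψ → f u = u := fun u hu => by simp only [f, hu, if_false]
  have f1' : ∀ p, f' (ψ p) = ψ (κ.symm p) := fun p => by simp only [f', mem_range_self, if_true, hg]
  have f2' : ∀ u, u ∉ range ψ → f' u = u := fun u hu => by simp only [f', hu, if_false]
  have hsrc : ∀ p, p ∈ κ.source := fun p => by rw [hs]; exact mem_univ p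
  have kneg : ∀ p, (κ p).1 < 0 := fun p => by
    have h := κ.map_source (hsrc p)
    rw [ht] at h
    exact h
  have ksymm : ∀ p : ℝ × ℝ, p.1 ≤ -δ p.2 → κ.symm p = p := fun p hp => by
    have h := κ.left_inv (hsrc p)
    rwa [hid p hp] at h
  have notC : ∀ p : ℝ × ℝ, ψ p ∉ closure C → p.1 ≤ -δ p.2 := fun p hp => by
    by_contra h
    push Not at h
    exact hp (subset_closure ⟨p, h.le, rfl⟩)
  have near : ∀ u ∈ U, u ∉ range ψ → f =ᶠ[𝓝 u] id := fun u hu hr => by
    have hn : (closure C)ᶜ ∈ 𝓝 u := isClosed_closure.isOpen_compl.mem_nhds (hcl u hu hr)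
    filter_upwards [hn] with w hw
    by_cases hwr : w ∈ range ψ
    · obtain ⟨p, rfl⟩ := hwr
      rw [f1, hid p (notC p hw)]
      rfl
    · exact f2 w hwr
  have near' : ∀ u ∈ U, u ∉ range ψ → f' =ᶠ[𝓝 u] id := fun u hu hr => by
    have hn : (closure C)ᶜ ∈ 𝓝 u := isClosed_closure.isOpen_compl.mem_nhds (hcl u hu hr)
    filter_upwards [hn] with w hw
    by_cases hwr : w ∈ range ψ
    · obtain ⟨p, rfl⟩ := hwr
      rw [f1', ksymm p (notC p hw)]
      rfl
    · exact f2' w hwr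
  refine ⟨{ toFun := f, invFun := f', source := U ∪ range ψ, target := U, map_source' := ?_, map_target' := ?_,
            left_inv' := ?_, right_inv' := ?_, open_source := hU.union hψ.isOpen_range, open_target := hU,
            continuousOn_toFun := ?_, continuousOn_invFun := ?_ }, rfl, rfl, f2, ?_⟩
  · intro u hu
    by_cases hr : u ∈ range ψ
    · obtain ⟨p, rfl⟩ := hr
      show f (ψ p) ∈ U
      rw [f1]
      exact (hUψ _).2 (kneg p)
    · show f u ∈ U
      rw [f2 u hr]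
      exact hu.resolve_right hr
  · intro u hu
    by_cases hr : u ∈ range ψ
    · obtain ⟨p, rfl⟩ := hr
      show f' (ψ p) ∈ U ∪ range ψ
      rw [f1']
      exact Or.inr (mem_range_self _)
    · show f' u ∈ U ∪ range ψ
      rw [f2' u hr]
      exact Or.inl hu
  · intro u hu
    by_cases hr : u ∈ range ψ
    · obtain ⟨p, rfl⟩ := hr
      show f' (f (ψ p)) = ψ p
      rw [f1, f1', κ.left_inv (hsrc p)]
    · show f' (f u) = u
      rw [f2 u hr, f2' u hr]
  · intro u hu
    by_cases hr : u ∈ range ψ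
    · obtain ⟨p, rfl⟩ := hr
      show f (f' (ψ p)) = ψ p
      have hp : p ∈ κ.target := by rw [ht]; exact (hUψ p).1 hu
      rw [f1', f1, κ.right_inv hp]
    · show f (f' u) = u
      rw [f2' u hr, f2 u hr]
  · intro u hu
    apply ContinuousAt.continuousWithinAt
    by_cases hr : u ∈ range ψ
    · obtain ⟨p, rfl⟩ := hr
      have h : ContinuousAt (ψ ∘ κ) p := hψ.continuous.continuousAt.comp (κ.continuousAt (hsrc p))
      have e : f ∘ ψ = ψ ∘ κ := funext f1
      rw [← e] at h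
      exact hψ.continuousAt_iff.1 h
    · exact continuousAt_id.congr (near u (hu.resolve_right hr) hr).symm
  · intro u hu
    apply ContinuousAt.continuousWithinAt
    by_cases hr : u ∈ range ψ
    · obtain ⟨p, rfl⟩ := hr
      have hp : p ∈ κ.target := by rw [ht]; exact (hUψ p).1 hu
      have h : ContinuousAt (ψ ∘ κ.symm) p := hψ.continuous.continuousAt.comp (κ.continuousAt_symm hp)
      have e : f' ∘ ψ = ψ ∘ κ.symm := funext f1'
      rw [← e] at h
      exact hψ.continuousAt_iff.1 h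
    · exact continuousAt_id.congr (near' u hu hr).symm
  · intro p hp
    show f (ψ p) = ψ p
    rw [f1, hid p hp.le]


/-- PROOF. `exists_collar` (for a metric: `TopologicalSpace.metrizableSpaceMetric M`, `letI`),
`exists_model`, `glue`. For `u ∈ K`: if `u = ψ p` then `p.1 < -δ p.2` by the third property of the
collar. -/
theorem absorb {M : Type*} [TopologicalSpace M] [TopologicalSpace.MetrizableSpace M]
    {ψ : ℝ × ℝ → M} (hψ : IsOpenEmbedding ψ) {U : Set M} (hU : IsOpen U)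
    (hUψ : ∀ p, ψ p ∈ U ↔ p.1 < 0) {K : Set M} (hK : IsCompact K) (hKU : K ⊆ U) :
    ∃ θ : OpenPartialHomeomorph M M, θ.source = U ∪ range ψ ∧ θ.target = U ∧
      ∀ u ∈ K, θ u = u := by
  let _ : MetricSpace M := TopologicalSpace.metrizableSpaceMetric M
  obtain ⟨δ, hδ, hpos, hKδ, hcl⟩ := exists_collar hψ hU hUψ hK hKU
  obtain ⟨κ, hs, ht, hid, -⟩ := exists_model hδ hpos
  obtain ⟨θ, h1, h2, h3, h4⟩ := glue hψ hU hUψ hs ht hid hcl
  refine ⟨θ, h1, h2, fun u hu => ?_⟩
  by_cases hr : u ∈ range ψ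
  · obtain ⟨p, rfl⟩ := hr
    apply h4
    by_contra hp
    push Not at hp
    exact hKδ p hp hu
  · exact h3 u hr


end Pool.Agent.LSP
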