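import Pool.Agent.LSP.Main

/-!
# LSP module Adm: the criterion in terms of neighbourhoods
-/

open Set Topology Filter

namespace Pool.Agent.LSP

open Pool.Agent.H86.Bifol

variable {X Y : Type*} [TopologicalSpace X] [TopologicalSpace Y]

/-- Every point `x` of `X` has an open neighbourhood `N` for which there is a nonempty open subset
`M` of `Y` such that `M` lies in every half-space `V z z'` with `Cc z z'` meeting `N`, and `N` lies in
every half-space `S w w'` with `Cc w w'` meeting `M`. -/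
def Ample (V : X → X → Set Y) (S : Y → Y → Set X) : Prop :=
  ∀ x : X, ∃ (N : Set X) (M : Set Y), IsOpen N ∧ x ∈ N ∧ IsOpen M ∧ M.Nonempty ∧
    (∀ z z', NS z z' → (Cc z z' ∩ N).Nonempty → M ⊆ V z z') ∧
    (∀ w w', NS w w' → (Cc w w' ∩ M).Nonempty → N ⊆ S w w')

theorem ample_iff {V : X → X → Set Y} {S : Y → Y → Set X} :
    Ample V S ↔ ∀ x, ∃ y, (x, y) ∈ interior (Om V S) := by
  refine forall_congr' fun x => ?_
  constructor
  · rintro ⟨N, M, hN, hxN, hM, ⟨y, hy⟩, h1, h2⟩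
    refine ⟨y, mem_interior.2 ⟨N ×ˢ M, ?_, hN.prod hM, hxN, hy⟩⟩
    rintro ⟨a, b⟩ ⟨ha, hb⟩
    exact ⟨fun z z' hz hc => h1 z z' hz ⟨a, hc, ha⟩ hb,
      fun w w' hw hc => h2 w w' hw ⟨b, hc, hb⟩ ha⟩
  · rintro ⟨y, hy⟩
    obtain ⟨N, M, hN, hM, hxN, hyM, hNM⟩ := isOpen_prod_iff.1 isOpen_interior x y hy
    refine ⟨N, M, hN, hxN, hM, ⟨y, hyM⟩, ?_, ?_⟩
    · rintro z z' hz ⟨a, hc, ha⟩ b hb
      exact (interior_subset (hNM (mk_mem_prod ha hb))).1 z z' hz hc
    · rintro w w' hw ⟨b, hc, hb⟩ a ha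
      exact (interior_subset (hNM (mk_mem_prod ha hb))).2 w w' hw hc

theorem ample_swap_iff {V : X → X → Set Y} {S : Y → Y → Set X} :
    Ample S V ↔ ∀ y, ∃ x, (x, y) ∈ interior (Om V S) := by
  rw [ample_iff]
  exact forall_congr' fun y => exists_congr fun x => mem_interior_Om_swap

end Pool.Agent.LSP
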