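import Pool.Agent.LSP.Null

set_option autoImplicit false

/-!
# MP_52aa73_nt (sign patterns of Liouville's function): the checker

Multilinear polynomials in `L` signs as binary trees; a fast check (Walsh-Hadamard transform) of
`K + q + t ≤ D c + p` at all points.
-/

open Finset

namespace Pool.Agent.LSP

/-- binary trees with integers at the leaves; `z` is a zero subtree -/
inductive T where
  | z : T
  | leaf : ℤ → T
  | node : T → T → T

namespace T

/-- value of a leaf -/
def val : T → ℤ
  | leaf a => a
  | _ => 0

/-- left child -/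
def lc : T → T
  | node l _ => l
  | _ => z

/-- right child -/
def rc : T → T
  | node _ r => r
  | _ => z

/-- the value at the signs `s` (`s i = true`: the `i`-th variable is `-1`) of the multilinear
polynomial of depth `k` with coefficient tree `t` -/
def pv : ℕ → T → (ℕ → Bool) → ℤ
  | 0, t, _ => t.val
  | k + 1, t, s => pv k t.lc s + (if s k then -pv k t.rc s else pv k t.rc s)

/-- the leaf of the tree of depth `k` at the address `s` -/
def get : ℕ → T → (ℕ → Bool) → ℤ
  | 0, t, _ => t.val
  | k + 1, t, s => if s k then get k t.rc s else get k t.lc s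

/-- `add k e t u = t + e u`, `e = true`: plus, `e = false`: minus -/
def add : ℕ → Bool → T → T → T
  | 0, e, t, u => leaf (if e then t.val + u.val else t.val - u.val)
  | k + 1, e, t, u =>
    match t, u with
    | t, z => t
    | z, node c d => node (add k e z c) (add k e z d)
    | node a b, node c d => node (add k e a c) (add k e b d)
    | leaf _, node c d => node (add k e z c) (add k e z d)
    | t, leaf _ => t

theorem pv_z (k : ℕ) (s : ℕ → Bool) : pv k z s = 0 := by
  induction k with
  | zero => rfl
  | succ k ih =>
    show pv k z s + (if s k then -pv k z s else pv k z s) = 0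
    rw [ih]; simp

theorem pv_leaf (k : ℕ) (a : ℤ) (s : ℕ → Bool) : pv (k + 1) (leaf a) s = 0 := by
  show pv k z s + (if s k then -pv k z s else pv k z s) = 0
  rw [pv_z]; simp

theorem pv_node (k : ℕ) (a b : T) (s : ℕ → Bool) :
    pv (k + 1) (node a b) s = pv k a s + (if s k then -pv k b s else pv k b s) := rfl

theorem pv_add (k : ℕ) (e : Bool) (t u : T) (s : ℕ → Bool) :
    pv k (add k e t u) s = pv k t s + (if e then pv k u s else -pv k u s) := by
  induction k generalizing t u with
  | zero =>
    cases e
    · show (leaf _).val = _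
      simp [val, pv, sub_eq_add_neg]
    · show (leaf _).val = _
      simp [val, pv]
  | succ k ih =>
    cases u with
    | z =>
      have : add (k + 1) e t z = t := by cases t <;> rfl
      rw [this, pv_z]; simp
    | leaf a =>
      have : add (k + 1) e t (leaf a) = t := by cases t <;> rfl
      rw [this, pv_leaf]; simp
    | node c d =>
      cases t with
      | z =>
        show pv (k + 1) (node (add k e z c) (add k e z d)) s = _
        rw [pv_node, pv_node, ih, ih, pv_z, pv_z]
        cases e <;> cases s k <;> simp <;> ring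
      | leaf a =>
        show pv (k + 1) (node (add k e z c) (add k e z d)) s = _
        rw [pv_node, pv_node, ih, ih, pv_z, pv_leaf]
        cases e <;> cases s k <;> simp <;> ring
      | node a b =>
        show pv (k + 1) (node (add k e a c) (add k e b d)) s = _
        rw [pv_node, pv_node, pv_node, ih, ih]
        cases e <;> cases s k <;> simp <;> ring

/-- the tree of depth `k` with the digits (`w` bits) of `N` at the leaves -/
def mk (w : ℕ) : ℕ → ℕ → T
  | 0, N => leaf (N : ℤ)
  | k + 1, N => node (mk w k (N % 2 ^ (w * 2 ^ k))) (mk w k (N / 2 ^ (w * 2 ^ k)))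

/-- the monomial `a ∏_{i ∈ S} z_i` -/
def sing : ℕ → ℕ → ℤ → T
  | 0, _, a => leaf a
  | k + 1, S, a => if S.testBit k then node z (sing k S a) else node (sing k S a) z

/-- the character `∏_{i ∈ S} z_i` -/
def chi (k S : ℕ) (s : ℕ → Bool) : ℤ := ∏ i ∈ range k, (if (S.testBit i && s i) = true then -1 else 1)

theorem pv_sing (k S : ℕ) (a : ℤ) (s : ℕ → Bool) : pv k (sing k S a) s = a * chi k S s := by
  induction k with
  | zero => simp [sing, pv, val, chi]
  | succ k ih =>
    have hc : chi (k + 1) S s = chi k S s * (if (S.testBit k && s k) = true then -1 else 1) := by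
      unfold chi; rw [prod_range_succ]
    rw [hc]
    by_cases h : S.testBit k = true
    · rw [show sing (k + 1) S a = node z (sing k S a) by simp [sing, h], pv_node, pv_z, ih, h]
      cases s k <;> simp
    · rw [Bool.not_eq_true] at h
      rw [show sing (k + 1) S a = node (sing k S a) z by simp [sing, h], pv_node, pv_z, ih, h]
      cases s k <;> simp

theorem get_bdd (k : ℕ) (t : T) : ∃ B : ℤ, ∀ s, |get k t s| ≤ B := by
  induction k generalizing t with
  | zero => exact ⟨|t.val|, fun _ => le_rfl⟩
  | succ k ih =>
    obtain ⟨B1, h1⟩ := ih t.lc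
    obtain ⟨B2, h2⟩ := ih t.rc
    refine ⟨max B1 B2, fun s => ?_⟩
    show |if s k then get k t.rc s else get k t.lc s| ≤ _
    split_ifs
    · exact (h2 s).trans (le_max_right _ _)
    · exact (h1 s).trans (le_max_left _ _)

/-- the check after the first step: `t`, `p` of depth `k + 1`, `q` of depth `k`,
`c` of depth `min (k + 1) 4` -/
def chkA (K D : ℤ) : ℕ → T → T → T → T → Bool
  | 0, t, p, q, c =>
    decide (K + q.val + (t.lc.val + t.rc.val) ≤ D * c.lc.val + p.lc.val) &&
    decide (K + q.val + (t.lc.val - t.rc.val) ≤ D * c.rc.val + p.rc.val)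
  | k + 1, t, p, q, c =>
    chkA K D k (add (k + 1) true t.lc t.rc) p.lc q.lc (if k < 3 then c.lc else c) &&
    chkA K D k (add (k + 1) false t.lc t.rc) p.rc q.rc (if k < 3 then c.rc else c)

theorem chkA_sound (K D : ℤ) (k : ℕ) (t p q c : T) (h : chkA K D k t p q c = true) (s : ℕ → Bool) :
    K + get k q (fun i => s (i + 1)) + pv (k + 1) t s ≤ D * get (min (k + 1) 4) c s + get (k + 1) p s := by
  induction k generalizing t p q c with
  | zero =>
    simp only [chkA, Bool.and_eq_true, decide_eq_true_eq] at h
    show K + q.val + (t.lc.val + (if s 0 then -t.rc.val else t.rc.val)) ≤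
      D * (if s 0 then c.rc.val else c.lc.val) + (if s 0 then p.rc.val else p.lc.val)
    cases s 0
    · simpa using h.1
    · simpa [sub_eq_add_neg] using h.2
  | succ k ih =>
    simp only [chkA, Bool.and_eq_true] at h
    have h0 := ih _ _ _ _ h.1
    have h1 := ih _ _ _ _ h.2
    rw [pv_add] at h0 h1
    have ec : ∀ b : Bool, s (k + 1) = b → get (min (k + 1 + 1) 4) c s =
        get (min (k + 1) 4) (if k < 3 then (if b then c.rc else c.lc) else c) s := by
      intro b hb
      by_cases hk : k < 3
      · rw [if_pos hk, show min (k + 1 + 1) 4 = (k + 1) + 1 by omega, show min (k + 1) 4 = k + 1 by omega]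
        show (if s (k + 1) then get (k + 1) c.rc s else get (k + 1) c.lc s) = _
        rw [hb]
        cases b <;> rfl
      · rw [if_neg hk, show min (k + 1 + 1) 4 = 4 by omega, show min (k + 1) 4 = 4 by omega]
    have eq : get (k + 1) q (fun i => s (i + 1)) =
        if s (k + 1) then get k q.rc (fun i => s (i + 1)) else get k q.lc (fun i => s (i + 1)) := rfl
    have ep : get (k + 1 + 1) p s = if s (k + 1) then get (k + 1) p.rc s else get (k + 1) p.lc s := rfl
    have et : pv (k + 1 + 1) t s = pv (k + 1) t.lc s +
        (if s (k + 1) then -pv (k + 1) t.rc s else pv (k + 1) t.rc s) := rfl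
    rw [eq, ep, et]
    cases hs : s (k + 1)
    · rw [ec false hs]
      simpa using h0
    · rw [ec true hs]
      simpa using h1

/-- the full check: `t` of depth `k + 2`, `p` and `q` of depth `k + 1`, `c` of depth `4` (`k ≥ 3`) -/
def chkT (K D : ℤ) (k : ℕ) (t p q c : T) : Bool :=
  chkA K D k (add (k + 1) true t.lc t.rc) p q.lc c &&
  chkA K D k (add (k + 1) false t.lc t.rc) p q.rc c

theorem chkT_sound (K D : ℤ) (k : ℕ) (hk : 3 ≤ k) (t p q c : T) (h : chkT K D k t p q c = true)
    (s : ℕ → Bool) :
    K + get (k + 1) q (fun i => s (i + 1)) + pv (k + 2) t s ≤ D * get 4 c s + get (k + 1) p s := by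
  simp only [chkT, Bool.and_eq_true] at h
  have h0 := chkA_sound _ _ _ _ _ _ _ h.1 s
  have h1 := chkA_sound _ _ _ _ _ _ _ h.2 s
  rw [pv_add, show min (k + 1) 4 = 4 by omega] at h0 h1
  have eq : get (k + 1) q (fun i => s (i + 1)) =
      if s (k + 1) then get k q.rc (fun i => s (i + 1)) else get k q.lc (fun i => s (i + 1)) := rfl
  have et : pv (k + 2) t s = pv (k + 1) t.lc s +
      (if s (k + 1) then -pv (k + 1) t.rc s else pv (k + 1) t.rc s) := rfl
  rw [eq, et]
  cases hs : s (k + 1)
  · simpa using h0
  · simpa using h1

end T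

end Pool.Agent.LSP
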