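import Pool.Agent.LSP.Rare
import Pool.Agent.LSP.DataG
import Pool.Agent.LSP.DataJ

set_option autoImplicit false

/-!
# MP_52aa73_nt (sign patterns of Liouville's function): the rare classes
-/

namespace Pool.Agent.LSP

private theorem one (c : Cer) (a : ℕ) (h : c.chk (fun W => W == a) = true) : ¬ RareC a := by
  obtain ⟨w, hw, hr⟩ := not_rare c _ h
  rw [beq_iff_eq] at hw
  rwa [hw] at hr

private theorem two (c : Cer) (a b : ℕ) (h : c.chk (fun W => W == a || W == b) = true) :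
    ¬ (RareC a ∧ RareC b) := by
  obtain ⟨w, hw, hr⟩ := not_rare c _ h
  rw [Bool.or_eq_true, beq_iff_eq, beq_iff_eq] at hw
  rintro ⟨h1, h2⟩
  rcases hw with rfl | rfl
  · exact hr h1
  · exact hr h2

/-- the pairs of classes from different groups -/
def prs : List (ℕ × ℕ) :=
  [(0, 2), (0, 3), (0, 4), (0, 6), (0, 9), (0, 11), (0, 12), (0, 13), (2, 3), (2, 4), (2, 5),
   (2, 6), (2, 9), (2, 10), (2, 12), (2, 13), (2, 15), (3, 4), (3, 5), (3, 10), (3, 11),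
   (3, 13), (3, 15), (4, 5), (4, 6), (4, 9), (4, 10), (4, 11), (4, 12), (4, 15), (5, 6),
   (5, 9), (5, 11), (5, 12), (5, 13), (6, 10), (6, 11), (6, 13), (6, 15), (9, 10), (9, 11),
   (9, 13), (9, 15), (10, 11), (10, 12), (10, 13), (11, 12), (11, 13), (11, 15), (12, 13),
   (12, 15), (13, 15)]

theorem prs_spec : ∀ ab ∈ prs, ¬ (RareC ab.1 ∧ RareC ab.2) := by
  unfold prs
  refine List.forall_mem_cons.2 ⟨two _ _ _ c0_2_chk, ?_⟩
  refine List.forall_mem_cons.2 ⟨two _ _ _ c0_3_chk, ?_⟩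
  refine List.forall_mem_cons.2 ⟨two _ _ _ c0_4_chk, ?_⟩
  refine List.forall_mem_cons.2 ⟨two _ _ _ c0_6_chk, ?_⟩
  refine List.forall_mem_cons.2 ⟨two _ _ _ c0_9_chk, ?_⟩
  refine List.forall_mem_cons.2 ⟨two _ _ _ c0_11_chk, ?_⟩
  refine List.forall_mem_cons.2 ⟨two _ _ _ c0_12_chk, ?_⟩
  refine List.forall_mem_cons.2 ⟨two _ _ _ c0_13_chk, ?_⟩
  refine List.forall_mem_cons.2 ⟨two _ _ _ c2_3_chk, ?_⟩
  refine List.forall_mem_cons.2 ⟨two _ _ _ c2_4_chk, ?_⟩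
  refine List.forall_mem_cons.2 ⟨two _ _ _ c2_5_chk, ?_⟩
  refine List.forall_mem_cons.2 ⟨two _ _ _ c2_6_chk, ?_⟩
  refine List.forall_mem_cons.2 ⟨two _ _ _ c2_9_chk, ?_⟩
  refine List.forall_mem_cons.2 ⟨two _ _ _ c2_10_chk, ?_⟩
  refine List.forall_mem_cons.2 ⟨two _ _ _ c2_12_chk, ?_⟩
  refine List.forall_mem_cons.2 ⟨two _ _ _ c2_13_chk, ?_⟩
  refine List.forall_mem_cons.2 ⟨two _ _ _ c2_15_chk, ?_⟩
  refine List.forall_mem_cons.2 ⟨two _ _ _ c3_4_chk, ?_⟩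
  refine List.forall_mem_cons.2 ⟨two _ _ _ c3_5_chk, ?_⟩
  refine List.forall_mem_cons.2 ⟨two _ _ _ c3_10_chk, ?_⟩
  refine List.forall_mem_cons.2 ⟨two _ _ _ c3_11_chk, ?_⟩
  refine List.forall_mem_cons.2 ⟨two _ _ _ c3_13_chk, ?_⟩
  refine List.forall_mem_cons.2 ⟨two _ _ _ c3_15_chk, ?_⟩
  refine List.forall_mem_cons.2 ⟨two _ _ _ c4_5_chk, ?_⟩
  refine List.forall_mem_cons.2 ⟨two _ _ _ c4_6_chk, ?_⟩
  refine List.forall_mem_cons.2 ⟨two _ _ _ c4_9_chk, ?_⟩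
  refine List.forall_mem_cons.2 ⟨two _ _ _ c4_10_chk, ?_⟩
  refine List.forall_mem_cons.2 ⟨two _ _ _ c4_11_chk, ?_⟩
  refine List.forall_mem_cons.2 ⟨two _ _ _ c4_12_chk, ?_⟩
  refine List.forall_mem_cons.2 ⟨two _ _ _ c4_15_chk, ?_⟩
  refine List.forall_mem_cons.2 ⟨two _ _ _ c5_6_chk, ?_⟩
  refine List.forall_mem_cons.2 ⟨two _ _ _ c5_9_chk, ?_⟩
  refine List.forall_mem_cons.2 ⟨two _ _ _ c5_11_chk, ?_⟩
  refine List.forall_mem_cons.2 ⟨two _ _ _ c5_12_chk, ?_⟩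
  refine List.forall_mem_cons.2 ⟨two _ _ _ c5_13_chk, ?_⟩
  refine List.forall_mem_cons.2 ⟨two _ _ _ c6_10_chk, ?_⟩
  refine List.forall_mem_cons.2 ⟨two _ _ _ c6_11_chk, ?_⟩
  refine List.forall_mem_cons.2 ⟨two _ _ _ c6_13_chk, ?_⟩
  refine List.forall_mem_cons.2 ⟨two _ _ _ c6_15_chk, ?_⟩
  refine List.forall_mem_cons.2 ⟨two _ _ _ c9_10_chk, ?_⟩
  refine List.forall_mem_cons.2 ⟨two _ _ _ c9_11_chk, ?_⟩
  refine List.forall_mem_cons.2 ⟨two _ _ _ c9_13_chk, ?_⟩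
  refine List.forall_mem_cons.2 ⟨two _ _ _ c9_15_chk, ?_⟩
  refine List.forall_mem_cons.2 ⟨two _ _ _ c10_11_chk, ?_⟩
  refine List.forall_mem_cons.2 ⟨two _ _ _ c10_12_chk, ?_⟩
  refine List.forall_mem_cons.2 ⟨two _ _ _ c10_13_chk, ?_⟩
  refine List.forall_mem_cons.2 ⟨two _ _ _ c11_12_chk, ?_⟩
  refine List.forall_mem_cons.2 ⟨two _ _ _ c11_13_chk, ?_⟩
  refine List.forall_mem_cons.2 ⟨two _ _ _ c11_15_chk, ?_⟩
  refine List.forall_mem_cons.2 ⟨two _ _ _ c12_13_chk, ?_⟩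
  refine List.forall_mem_cons.2 ⟨two _ _ _ c12_15_chk, ?_⟩
  refine List.forall_mem_cons.2 ⟨two _ _ _ c13_15_chk, ?_⟩
  exact fun ab h => absurd h List.not_mem_nil

/-- the group of a class (`0`: never rare) -/
def grp (w : ℕ) : ℕ :=
  if w = 2 ∨ w = 11 then 1 else if w = 4 ∨ w = 13 then 2 else
  if w = 0 ∨ w = 5 ∨ w = 10 ∨ w = 15 then 3 else
  if w = 3 ∨ w = 6 ∨ w = 9 ∨ w = 12 then 4 else 0

private theorem prs_all : ∀ a b : Fin 16, grp a.val = 0 ∨ grp b.val = 0 ∨ grp a.val = grp b.val ∨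
    (a.val, b.val) ∈ prs ∨ (b.val, a.val) ∈ prs := by
  decide +kernel

private theorem grp_zero : ∀ w : Fin 16, grp w.val ≠ 0 ∨ w.val = 1 ∨ w.val = 7 ∨ w.val = 8 ∨ w.val = 14 := by
  decide +kernel

theorem rare_grp {w : ℕ} (hw : w < 16) (h : RareC w) : grp w ≠ 0 := by
  intro h0
  rcases grp_zero ⟨w, hw⟩ with h1 | h1 | h1 | h1 | h1
  · exact h1 h0
  all_goals dsimp only at h1; subst h1
  · exact one _ _ c1_chk h
  · exact one _ _ c7_chk h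
  · exact one _ _ c8_chk h
  · exact one _ _ c14_chk h

theorem rare_same {a b : ℕ} (ha : a < 16) (hb : b < 16) (h : RareC a) (h' : RareC b) : grp a = grp b := by
  by_contra hne
  rcases prs_all ⟨a, ha⟩ ⟨b, hb⟩ with h1 | h1 | h1 | h1 | h1
  · exact rare_grp ha h h1
  · exact rare_grp hb h' h1
  · exact hne h1
  · exact prs_spec _ h1 ⟨h, h'⟩
  · exact prs_spec _ h1 ⟨h', h⟩

theorem not_four : ¬ (RareC 3 ∧ RareC 6 ∧ RareC 9 ∧ RareC 12) := by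
  obtain ⟨w, hw, hr⟩ := not_rare c3_6_9_12 _ c3_6_9_12_chk
  simp only [Bool.or_eq_true, beq_iff_eq] at hw
  rintro ⟨h3, h6, h9, h12⟩
  rcases hw with ((rfl | rfl) | rfl) | rfl
  · exact hr h3
  · exact hr h6
  · exact hr h9
  · exact hr h12

end Pool.Agent.LSP
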