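import Pool.Agent.LSP.Gens

set_option autoImplicit false

/-! Certificates (generated by linear programming; see `Gens.lean`). -/

namespace Pool.Agent.LSP

def c0_3 : Cer where
  k := 5
  M := 2
  D := 24
  K := 1
  w := 6
  gs := []
  ts := [(6, 1), (6, 2), (3, 3), (3, 4), (1, 7)]
  P := [0x18809410a32200a1160884a008809810642210a11208c3a01061160883a408c09410a41e10a0161883a008819400a422,
    0x18809410a32200a1160884a008809810642210a11208c3a01061160883a408c09410a41e10a0161883a008819400a422]

private theorem c0_3_r0 : c0_3.chkR (fun W => W == 0 || W == 3) 0 = true := by decide +kernel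

private theorem c0_3_r1 : c0_3.chkR (fun W => W == 0 || W == 3) 1 = true := by decide +kernel

theorem c0_3_chk : c0_3.chk (fun W => W == 0 || W == 3) = true := by
  refine Cer.chk_of (by decide +kernel) fun r hr => ?_
  replace hr : r < 2 := hr
  interval_cases r
  · exact c0_3_r0
  · exact c0_3_r1

def c0_6 : Cer where
  k := 4
  M := 2
  D := 24
  K := 1
  w := 5
  gs := []
  ts := [(6, 1), (3, 2), (6, 3), (3, 4), (1, 6)]
  P := [0x120d0720dc1214c721580290e6291a2190e8191a,
    0x120d0720dc1214c721580290e6291a2190e8191a]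

private theorem c0_6_r0 : c0_6.chkR (fun W => W == 0 || W == 6) 0 = true := by decide +kernel

private theorem c0_6_r1 : c0_6.chkR (fun W => W == 0 || W == 6) 1 = true := by decide +kernel

theorem c0_6_chk : c0_6.chk (fun W => W == 0 || W == 6) = true := by
  refine Cer.chk_of (by decide +kernel) fun r hr => ?_
  replace hr : r < 2 := hr
  interval_cases r
  · exact c0_6_r0
  · exact c0_6_r1

def c0_9 : Cer where
  k := 6
  M := 2
  D := 249
  K := 1
  w := 9
  gs := [⟨-17, 2, 0, [(0, 1)]⟩, ⟨3, 2, 0, [(0, 2)]⟩, ⟨3, 2, 0, [(0, 3)]⟩, ⟨3, 2, 0, [(0, 1), (2, 3)]⟩,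
    ⟨2, 2, 0, [(0, 4)]⟩, ⟨-7, 2, 0, [(0, 1), (2, 4)]⟩, ⟨-2, 2, 0, [(0, 1), (3, 4)]⟩,
    ⟨-7, 2, 0, [(0, 2), (3, 4)]⟩]
  ts := [(17, 1), (46, 2), (16, 3), (16, 4), (-19, 5), (-6, 7), (-1, 8)]
  P := [0x3c298a0ba291f04d003b2b0dc7c26298f8ae2b260dce03c31878fa342b868a239260dc8826288d0df352f08d043b2e0849432288f87e35270b4b030228610e402d8c88a1f270e4b83b2909cbc281e849023a2a8d87a25290fcac2c268e0de3d3207cf8332c064a438268e08a25290ccdd362f891023a2e8809631290fc8034268b0b22f2205d103f2e0c4881e268e0b6,
    0x461f8810e2d17074dc251d0bcb432178e89a39250ece44a178c0ce2e1b8e8f6451d0a4ac30148b0f6391c0150c332413cf4380c8f0b62b254dd102a06888ea3c1b8b0de4716044d82b1109d00341a8010b2c20928ea3d10104a832288f1102f0a0a4dc37180cce84c19830e63f1f095043219888d22c208d8be371a104a83227908ee45140a4dc27180ccec4c198b89e]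

private theorem c0_9_r0 : c0_9.chkR (fun W => W == 0 || W == 9) 0 = true := by decide +kernel

private theorem c0_9_r1 : c0_9.chkR (fun W => W == 0 || W == 9) 1 = true := by decide +kernel

theorem c0_9_chk : c0_9.chk (fun W => W == 0 || W == 9) = true := by
  refine Cer.chk_of (by decide +kernel) fun r hr => ?_
  replace hr : r < 2 := hr
  interval_cases r
  · exact c0_9_r0
  · exact c0_9_r1

def c0_12 : Cer where
  k := 5
  M := 2
  D := 24
  K := 1
  w := 5
  gs := []
  ts := [(6, 1), (6, 2), (3, 3), (3, 4), (1, 7)]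
  P := [0x63886510543404c408964388a31058540486089254048418164388a500d4530c8408964480a51054,
    0x63886510543404c408964388a31058540486089254048418164388a500d4530c8408964480a51054]

private theorem c0_12_r0 : c0_12.chkR (fun W => W == 0 || W == 12) 0 = true := by decide +kernel

private theorem c0_12_r1 : c0_12.chkR (fun W => W == 0 || W == 12) 1 = true := by decide +kernel

theorem c0_12_chk : c0_12.chk (fun W => W == 0 || W == 12) = true := by
  refine Cer.chk_of (by decide +kernel) fun r hr => ?_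
  replace hr : r < 2 := hr
  interval_cases r
  · exact c0_12_r0
  · exact c0_12_r1

def c2_3 : Cer where
  k := 4
  M := 2
  D := 16
  K := 1
  w := 5
  gs := [⟨1, 2, 0, [(0, 2)]⟩]
  ts := [(2, 1), (1, 2), (-2, 3), (-2, 4)]
  P := [0x2108c022102108c022102108c022102108c02210,
    0x19c6f19e6f19c6f19e6f19c6f19e6f19c6f19e6f]

private theorem c2_3_r0 : c2_3.chkR (fun W => W == 2 || W == 3) 0 = true := by decide +kernel

private theorem c2_3_r1 : c2_3.chkR (fun W => W == 2 || W == 3) 1 = true := by decide +kernel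

theorem c2_3_chk : c2_3.chk (fun W => W == 2 || W == 3) = true := by
  refine Cer.chk_of (by decide +kernel) fun r hr => ?_
  replace hr : r < 2 := hr
  interval_cases r
  · exact c2_3_r0
  · exact c2_3_r1

def c2_4 : Cer where
  k := 4
  M := 2
  D := 24
  K := 1
  w := 5
  gs := []
  ts := [(6, 1), (-3, 2), (-6, 3), (-3, 4), (1, 6)]
  P := [0x120d0152501214c152cc0290e05a8e2190e24a8e,
    0x120d0152501214c152cc0290e05a8e2190e24a8e]

private theorem c2_4_r0 : c2_4.chkR (fun W => W == 2 || W == 4) 0 = true := by decide +kernel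

private theorem c2_4_r1 : c2_4.chkR (fun W => W == 2 || W == 4) 1 = true := by decide +kernel

theorem c2_4_chk : c2_4.chk (fun W => W == 2 || W == 4) = true := by
  refine Cer.chk_of (by decide +kernel) fun r hr => ?_
  replace hr : r < 2 := hr
  interval_cases r
  · exact c2_4_r0
  · exact c2_4_r1

def c2_10 : Cer where
  k := 4
  M := 2
  D := 16
  K := 1
  w := 4
  gs := [⟨1, 2, 0, [(0, 2)]⟩]
  ts := [(2, 1), (-3, 2), (-2, 3), (-2, 4)]
  P := [0x88844c4088844c4088844c4088844c4,
    0x37b737b737b737b737b737b737b737b7]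

private theorem c2_10_r0 : c2_10.chkR (fun W => W == 2 || W == 10) 0 = true := by decide +kernel

private theorem c2_10_r1 : c2_10.chkR (fun W => W == 2 || W == 10) 1 = true := by decide +kernel

theorem c2_10_chk : c2_10.chk (fun W => W == 2 || W == 10) = true := by
  refine Cer.chk_of (by decide +kernel) fun r hr => ?_
  replace hr : r < 2 := hr
  interval_cases r
  · exact c2_10_r0
  · exact c2_10_r1

def c2_12 : Cer where
  k := 6
  M := 2
  D := 1520
  K := 1
  w := 11
  gs := [⟨-22, 2, 0, [(0, 1)]⟩, ⟨-14, 2, 0, [(0, 2)]⟩, ⟨-22, 2, 0, [(0, 3)]⟩,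
    ⟨144, 2, 0, [(0, 1), (2, 3)]⟩, ⟨-57, 2, 0, [(0, 4)]⟩, ⟨-92, 2, 0, [(0, 1), (2, 4)]⟩,
    ⟨49, 2, 0, [(0, 1), (3, 4)]⟩, ⟨92, 2, 0, [(0, 2), (3, 4)]⟩]
  ts := [(150, 1), (58, 2), (-198, 3), (-73, 4), (62, 5), (39, 6), (-24, 7), (-23, 8)]
  P := [0xc4d631c8562af073a1b52cb95130ac57eae8c4abb5c0c4d9213e51e39073a692583852307c202ba8aaac5574ce59c14656a40887a1520822d270841b2a5097b19574bb5501c251299860a414dcce50f05652ec40c0a955c4bf16e9b1590b4c68204556b39078c3550a8cce2d2592bf1869554f0334682802863d92e865230c04b62ae546d419995d53c3cc7c22c2362893286d1e0aaca3302546c115b9ab5409f46422a50ac910386d540be4cc2ac5e2,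
    0xb19c894b4809fcda30456eb19a982f34460c342e84e2ca98e89531843c572d055eab9bc8e74ac8e49031c54ebb1c49d137075c812de57a458938273906a4302221663f87888d32845c531be192ad9c098b3a09ac9c2f654ebaddb1d037681898add5784547c0563925f0479f31643ac610bc2ca3a04398f190a1da916c3a2a60a3af5500b15b114c47a970c3b0556ca5da10003426081cae7484ca5a60663164f83facf500b75cd1064aa8e8a7b1d59c]

private theorem c2_12_r0 : c2_12.chkR (fun W => W == 2 || W == 12) 0 = true := by decide +kernel

private theorem c2_12_r1 : c2_12.chkR (fun W => W == 2 || W == 12) 1 = true := by decide +kernel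

theorem c2_12_chk : c2_12.chk (fun W => W == 2 || W == 12) = true := by
  refine Cer.chk_of (by decide +kernel) fun r hr => ?_
  replace hr : r < 2 := hr
  interval_cases r
  · exact c2_12_r0
  · exact c2_12_r1

def c2_13 : Cer where
  k := 4
  M := 2
  D := 24
  K := 1
  w := 5
  gs := []
  ts := [(-3, 2), (-3, 4), (1, 6)]
  P := [0x4380a4098a4388640a0634048311c853048501c8,
    0x4380a4098a4388640a0634048311c853048501c8]

private theorem c2_13_r0 : c2_13.chkR (fun W => W == 2 || W == 13) 0 = true := by decide +kernel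

private theorem c2_13_r1 : c2_13.chkR (fun W => W == 2 || W == 13) 1 = true := by decide +kernel

theorem c2_13_chk : c2_13.chk (fun W => W == 2 || W == 13) = true := by
  refine Cer.chk_of (by decide +kernel) fun r hr => ?_
  replace hr : r < 2 := hr
  interval_cases r
  · exact c2_13_r0
  · exact c2_13_r1

def c3_4 : Cer where
  k := 6
  M := 2
  D := 1520
  K := 1
  w := 12
  gs := [⟨-22, 2, 0, [(0, 1)]⟩, ⟨-14, 2, 0, [(0, 2)]⟩, ⟨-22, 2, 0, [(0, 3)]⟩,
    ⟨144, 2, 0, [(0, 1), (2, 3)]⟩, ⟨-57, 2, 0, [(0, 4)]⟩, ⟨92, 2, 0, [(0, 1), (2, 4)]⟩,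
    ⟨49, 2, 0, [(0, 1), (3, 4)]⟩, ⟨-92, 2, 0, [(0, 2), (3, 4)]⟩]
  ts := [(150, 1), (58, 2), (-198, 3), (-73, 4), (62, 5), (39, 6), (-24, 7), (-23, 8)]
  P := [0x22e1941485ca43c90289e6a83966246d85b61b85426125d026e6985ac52e34490683e7184325c47187521bc8ba8b258027a5ec5fc57a3948b68ea76849e6706cc6c216c8ca86258021e1e00f857e44c9127f265c3a65786c86622084f25c25d02001661765f846a8d48cc6d63c46526aa58818a5706405a229c6c657e5003169308106ea4045966ea74c1ea88c8e055228c61a5ce54c3668e48bc73a4706426fa6f019a89c8905521f01b21265ac47a92082068a3d45a669a6341da5205f05ee,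
    0x19436a20231c00254461c5d64505526226b043e86074c66232855a5f67d85668906e05961a02de28e34c08e66c64855a1843b66867d04b688466858a3a83ea5d66a042e85080c6664144b25aa7c85568dc7ec6e21542ee6566a84367f865455a1de3586847724b888266a5883aa4485d46fe48c8ae80e6c44325105a88265588de7ea6a015229061864a3d87f665250c13636820031a0004e661a5d84ae4f46206523e080274e6c038655c5f877a50888e6e25f41a233c28c34a08c60e6465a8]

private theorem c3_4_r0 : c3_4.chkR (fun W => W == 3 || W == 4) 0 = true := by decide +kernel

private theorem c3_4_r1 : c3_4.chkR (fun W => W == 3 || W == 4) 1 = true := by decide +kernel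

theorem c3_4_chk : c3_4.chk (fun W => W == 3 || W == 4) = true := by
  refine Cer.chk_of (by decide +kernel) fun r hr => ?_
  replace hr : r < 2 := hr
  interval_cases r
  · exact c3_4_r0
  · exact c3_4_r1

def c3_5 : Cer where
  k := 4
  M := 2
  D := 24
  K := 1
  w := 5
  gs := []
  ts := [(-3, 2), (3, 4), (-1, 6)]
  P := [0x2190e24a8e0290e05a8e1214c152cc120d015250,
    0x2190e24a8e0290e05a8e1214c152cc120d015250]

private theorem c3_5_r0 : c3_5.chkR (fun W => W == 3 || W == 5) 0 = true := by decide +kernel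

private theorem c3_5_r1 : c3_5.chkR (fun W => W == 3 || W == 5) 1 = true := by decide +kernel

theorem c3_5_chk : c3_5.chk (fun W => W == 3 || W == 5) = true := by
  refine Cer.chk_of (by decide +kernel) fun r hr => ?_
  replace hr : r < 2 := hr
  interval_cases r
  · exact c3_5_r0
  · exact c3_5_r1

def c3_11 : Cer where
  k := 4
  M := 2
  D := 16
  K := 1
  w := 4
  gs := [⟨1, 2, 0, [(0, 2)]⟩]
  ts := [(-2, 1), (1, 2), (2, 3), (-2, 4)]
  P := [0x44c4088844c4088844c4088844c40888,
    0x37b737b737b737b737b737b737b737b7]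

private theorem c3_11_r0 : c3_11.chkR (fun W => W == 3 || W == 11) 0 = true := by decide +kernel

private theorem c3_11_r1 : c3_11.chkR (fun W => W == 3 || W == 11) 1 = true := by decide +kernel

theorem c3_11_chk : c3_11.chk (fun W => W == 3 || W == 11) = true := by
  refine Cer.chk_of (by decide +kernel) fun r hr => ?_
  replace hr : r < 2 := hr
  interval_cases r
  · exact c3_11_r0
  · exact c3_11_r1

def c3_13 : Cer where
  k := 6
  M := 2
  D := 1520
  K := 1
  w := 12
  gs := [⟨-22, 2, 0, [(0, 1)]⟩, ⟨-14, 2, 0, [(0, 2)]⟩, ⟨-22, 2, 0, [(0, 3)]⟩,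
    ⟨144, 2, 0, [(0, 1), (2, 3)]⟩, ⟨-57, 2, 0, [(0, 4)]⟩, ⟨92, 2, 0, [(0, 1), (2, 4)]⟩,
    ⟨49, 2, 0, [(0, 1), (3, 4)]⟩, ⟨-92, 2, 0, [(0, 2), (3, 4)]⟩]
  ts := [(-230, 1), (58, 2), (182, 3), (-73, 4), (62, 5), (39, 6), (-24, 7), (-23, 8)]
  P := [0x42e3940504ce63c50e7a65b05968245e04be3b814e51a4d446e8984b443254051274662062e7c46206563bc4ca7ba48447a7ec50447e5944c27f266c69e8705d45ca36c4da76a48441e3e00004826485226fa5645a67785d056a4080fe4ca4d440036607e4fc66a4e07d45de5c48525b249038a17c5484a64988c24864045125407185f26007965f26543ea49c7e845648881a4d64505664f07c46426708426025f839a4ac7984563f03b202e4b06765307285925d47a65a253c3da12c4f84f2,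
    0x39456a10a2242021545204da65074e5265b863e47065456a52875a4fe6e07664a05e849e3a04da19225428e27c54c45e3845b258a6d86b649456c48e5a45e64da5a862e46071456a6106ae4b26d07564ec6f45e63544ea55e5b063640855c45e3de55458867a6b849256e48c5aa6444d860668c4be7165c863270c4b072e7584ee6f25a835248c5205525d840655a4103365681082222000f651e4dc6aa6f052855a5e04126565c858675c50068270849e5ea4fc3a253819025228c21e54a4ac]

private theorem c3_13_r0 : c3_13.chkR (fun W => W == 3 || W == 13) 0 = true := by decide +kernel

private theorem c3_13_r1 : c3_13.chkR (fun W => W == 3 || W == 13) 1 = true := by decide +kernel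

theorem c3_13_chk : c3_13.chk (fun W => W == 3 || W == 13) = true := by
  refine Cer.chk_of (by decide +kernel) fun r hr => ?_
  replace hr : r < 2 := hr
  interval_cases r
  · exact c3_13_r0
  · exact c3_13_r1

def c3_15 : Cer where
  k := 5
  M := 2
  D := 24
  K := 1
  w := 5
  gs := []
  ts := [(-6, 1), (6, 2), (-3, 3), (3, 4), (-1, 7)]
  P := [0xa088a50248b10484198aa180a511c8b00c840a0a9104c40a0ac0886511c8b104860a06a088a311cc,
    0xa088a50248b10484198aa180a511c8b00c840a0a9104c40a0ac0886511c8b104860a06a088a311cc]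

private theorem c3_15_r0 : c3_15.chkR (fun W => W == 3 || W == 15) 0 = true := by decide +kernel

private theorem c3_15_r1 : c3_15.chkR (fun W => W == 3 || W == 15) 1 = true := by decide +kernel

theorem c3_15_chk : c3_15.chk (fun W => W == 3 || W == 15) = true := by
  refine Cer.chk_of (by decide +kernel) fun r hr => ?_
  replace hr : r < 2 := hr
  interval_cases r
  · exact c3_15_r0
  · exact c3_15_r1

def c4_5 : Cer where
  k := 4
  M := 2
  D := 16
  K := 1
  w := 5
  gs := [⟨1, 2, 0, [(0, 2)]⟩]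
  ts := [(2, 1), (-3, 2), (-2, 3), (-2, 4)]
  P := [0x210825184021082518402108251840210825184,
    0x19d671dd6719d671dd6719d671dd6719d671dd67]

private theorem c4_5_r0 : c4_5.chkR (fun W => W == 4 || W == 5) 0 = true := by decide +kernel

private theorem c4_5_r1 : c4_5.chkR (fun W => W == 4 || W == 5) 1 = true := by decide +kernel

theorem c4_5_chk : c4_5.chk (fun W => W == 4 || W == 5) = true := by
  refine Cer.chk_of (by decide +kernel) fun r hr => ?_
  replace hr : r < 2 := hr
  interval_cases r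
  · exact c4_5_r0
  · exact c4_5_r1

def c4_11 : Cer where
  k := 4
  M := 2
  D := 24
  K := 1
  w := 5
  gs := []
  ts := [(-3, 2), (-3, 4), (1, 6)]
  P := [0x12244150c4122c01514002a820590221a8224902,
    0x12244150c4122c01514002a820590221a8224902]

private theorem c4_11_r0 : c4_11.chkR (fun W => W == 4 || W == 11) 0 = true := by decide +kernel

private theorem c4_11_r1 : c4_11.chkR (fun W => W == 4 || W == 11) 1 = true := by decide +kernel

theorem c4_11_chk : c4_11.chk (fun W => W == 4 || W == 11) = true := by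
  refine Cer.chk_of (by decide +kernel) fun r hr => ?_
  replace hr : r < 2 := hr
  interval_cases r
  · exact c4_11_r0
  · exact c4_11_r1

def c4_12 : Cer where
  k := 4
  M := 2
  D := 16
  K := 1
  w := 4
  gs := [⟨1, 2, 0, [(0, 2)]⟩]
  ts := [(2, 1), (1, 2), (-2, 3), (-2, 4)]
  P := [0x88804c4488804c4488804c4488804c44,
    0x7b737b737b737b737b737b737b737b73]

private theorem c4_12_r0 : c4_12.chkR (fun W => W == 4 || W == 12) 0 = true := by decide +kernel

private theorem c4_12_r1 : c4_12.chkR (fun W => W == 4 || W == 12) 1 = true := by decide +kernel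

theorem c4_12_chk : c4_12.chk (fun W => W == 4 || W == 12) = true := by
  refine Cer.chk_of (by decide +kernel) fun r hr => ?_
  replace hr : r < 2 := hr
  interval_cases r
  · exact c4_12_r0
  · exact c4_12_r1

def c5_6 : Cer where
  k := 5
  M := 2
  D := 24
  K := 1
  w := 5
  gs := []
  ts := [(-6, 2), (3, 3), (3, 4), (-1, 7)]
  P := [0x22a06761c8121cc84a0a02a0a75248321c88598a1224865a0a2298a951c8131c885a0621a0a751cc,
    0x22a06761c8121cc84a0a02a0a75248321c88598a1224865a0a2298a951c8131c885a0621a0a751cc]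

private theorem c5_6_r0 : c5_6.chkR (fun W => W == 5 || W == 6) 0 = true := by decide +kernel

private theorem c5_6_r1 : c5_6.chkR (fun W => W == 5 || W == 6) 1 = true := by decide +kernel

theorem c5_6_chk : c5_6.chk (fun W => W == 5 || W == 6) = true := by
  refine Cer.chk_of (by decide +kernel) fun r hr => ?_
  replace hr : r < 2 := hr
  interval_cases r
  · exact c5_6_r0
  · exact c5_6_r1

def c5_9 : Cer where
  k := 5
  M := 2
  D := 24
  K := 1
  w := 5
  gs := []
  ts := [(-6, 2), (-3, 3), (3, 4), (1, 7)]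
  P := [0x3214c25902029121514412150059062290e351402290e160c412150249822198e15144130d025902,
    0x3214c25902029121514412150059062290e351402290e160c412150249822198e15144130d025902]

private theorem c5_9_r0 : c5_9.chkR (fun W => W == 5 || W == 9) 0 = true := by decide +kernel

private theorem c5_9_r1 : c5_9.chkR (fun W => W == 5 || W == 9) 1 = true := by decide +kernel

theorem c5_9_chk : c5_9.chk (fun W => W == 5 || W == 9) = true := by
  refine Cer.chk_of (by decide +kernel) fun r hr => ?_
  replace hr : r < 2 := hr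
  interval_cases r
  · exact c5_9_r0
  · exact c5_9_r1

def c5_13 : Cer where
  k := 4
  M := 2
  D := 16
  K := 1
  w := 4
  gs := [⟨1, 2, 0, [(0, 2)]⟩]
  ts := [(-2, 1), (-3, 2), (2, 3), (-2, 4)]
  P := [0x4c4488804c4488804c4488804c448880,
    0x7b737b737b737b737b737b737b737b73]

private theorem c5_13_r0 : c5_13.chkR (fun W => W == 5 || W == 13) 0 = true := by decide +kernel

private theorem c5_13_r1 : c5_13.chkR (fun W => W == 5 || W == 13) 1 = true := by decide +kernel

theorem c5_13_chk : c5_13.chk (fun W => W == 5 || W == 13) = true := by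
  refine Cer.chk_of (by decide +kernel) fun r hr => ?_
  replace hr : r < 2 := hr
  interval_cases r
  · exact c5_13_r0
  · exact c5_13_r1

def c6_10 : Cer where
  k := 5
  M := 2
  D := 24
  K := 1
  w := 5
  gs := []
  ts := [(-6, 2), (3, 3), (3, 4), (-1, 7)]
  P := [0x122c48198222a82730c4132448290221b027214402a8672144322c08290222a8292140122c462906,
    0x122c48198222a82730c4132448290221b027214402a8672144322c08290222a8292140122c462906]

private theorem c6_10_r0 : c6_10.chkR (fun W => W == 6 || W == 10) 0 = true := by decide +kernel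

private theorem c6_10_r1 : c6_10.chkR (fun W => W == 6 || W == 10) 1 = true := by decide +kernel

theorem c6_10_chk : c6_10.chk (fun W => W == 6 || W == 10) = true := by
  refine Cer.chk_of (by decide +kernel) fun r hr => ?_
  replace hr : r < 2 := hr
  interval_cases r
  · exact c6_10_r0
  · exact c6_10_r1

def c6_15 : Cer where
  k := 6
  M := 2
  D := 890
  K := 1
  w := 10
  gs := [⟨-51, 2, 0, [(0, 1)]⟩, ⟨21, 2, 0, [(0, 2)]⟩, ⟨-20, 2, 0, [(0, 3)]⟩,
    ⟨23, 2, 0, [(0, 1), (2, 3)]⟩, ⟨-5, 2, 0, [(0, 4)]⟩, ⟨26, 2, 0, [(0, 1), (2, 4)]⟩,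
    ⟨-9, 2, 0, [(0, 1), (3, 4)]⟩, ⟨26, 2, 0, [(0, 2), (3, 4)]⟩]
  ts := [(-217, 1), (160, 2), (-36, 3), (64, 4), (33, 5), (27, 6), (-19, 7), (-13, 8)]
  P := [0x9b93a8c9229a8ee8893ae68426a952c28f28990aad9b26f96e8a992a18f6f69169290ea38e66c93eb813c8d1ac9515084138e714482150a60dc84980911b07014c900ac6b0f8f10005a110c00fc6d118a212086108a10d88f14ce005c7116cbc0e0830f0a71986915484178a80dcfd0fc8c0f4aa0cc66124b1956869c68e96a8a91eed92a88936ac8c27e166979967694a968c671912ea81a6092ab991673932,
    0xbecc369d83ccd375fd1bc4d6f48cbff34af58d3f96def48c8bfd0af6bd5deccab48ccbe74b34cce78f54d6b5b9bf56d71555c5539605a5ee59158541a45ed5a5a1ce5916b55fbd54d56501da4e96f5599f54167579cf52d7f595c25795d599de5855b535945e557599be5856e553cd529464c1e4ca96c565aeccf68dc3bcd7762d27c7d2f38cb3e346f55d4ba6de345c7ffd0a368d69dcccf58d0bd7cf34fd27]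

private theorem c6_15_r0 : c6_15.chkR (fun W => W == 6 || W == 15) 0 = true := by decide +kernel

private theorem c6_15_r1 : c6_15.chkR (fun W => W == 6 || W == 15) 1 = true := by decide +kernel

theorem c6_15_chk : c6_15.chk (fun W => W == 6 || W == 15) = true := by
  refine Cer.chk_of (by decide +kernel) fun r hr => ?_
  replace hr : r < 2 := hr
  interval_cases r
  · exact c6_15_r0
  · exact c6_15_r1

def c7 : Cer where
  k := 6
  M := 2
  D := 1886
  K := 17
  w := 11
  gs := [⟨-42, 2, 0, [(0, 1)]⟩, ⟨-32, 2, 0, [(0, 2)]⟩, ⟨-22, 2, 0, [(0, 3)]⟩,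
    ⟨-22, 2, 0, [(0, 1), (2, 3)]⟩, ⟨-12, 2, 0, [(0, 4)]⟩, ⟨-13, 2, 0, [(0, 1), (2, 4)]⟩,
    ⟨-13, 2, 0, [(0, 1), (3, 4)]⟩, ⟨-13, 2, 0, [(0, 2), (3, 4)]⟩]
  ts := [(-174, 1), (57, 2), (-47, 3), (-60, 4), (27, 5), (-20, 6), (4, 7), (-4, 8)]
  P := [0x53d04a582f6bb90425a4400012627444c83d24a7533230513a79412b31142764680991b268470a751ba6940a37509a623daba10926445402925274458a0525a773fa4cd0ea7332eb590f2724680712026e4748ad20a6f35652d06a5c2feba90625e4480112827645484d26a7933a31511a7540ab41122744700891d26c478a651da6d40a38507a5e3d2bb10726044c019272764509f527a773f24bd10a77336b491127646c0811e26a4788bd1ea6b34e,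
    0x68eac65fc33bc7015b4b191531b670c6dab722e5fc3722f04673c7bb731165cc5d5b2c7662c91b4718dc7b434c6e5661c47bdb06626bfd17b18670c75adf23e61c43256ff671c67b9b0c65ac5d3eb00664c95b1f1ce29beb4e6e1661c37bcf0261ebed15b1c670c71abf23e61c3b23703671c77b7b1065ac6140afc664c95b3f19e29bfb66eb065fc43be3055bcb2917319670c71ad724e5fc3f24f00673c6bb930d65cc5d592cb662c99b271bdc7b43]

private theorem c7_r0 : c7.chkR (fun W => W == 7) 0 = true := by decide +kernel

private theorem c7_r1 : c7.chkR (fun W => W == 7) 1 = true := by decide +kernel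

theorem c7_chk : c7.chk (fun W => W == 7) = true := by
  refine Cer.chk_of (by decide +kernel) fun r hr => ?_
  replace hr : r < 2 := hr
  interval_cases r
  · exact c7_r0
  · exact c7_r1

def c9_10 : Cer where
  k := 5
  M := 2
  D := 24
  K := 1
  w := 5
  gs := []
  ts := [(-6, 2), (-3, 3), (3, 4), (1, 7)]
  P := [0x63a8e540c4342d04398243a9253144542cc44902532d04390644a8e54140542506390243b0e34144,
    0x63a8e540c4342d04398243a9253144542cc44902532d04390644a8e54140542506390243b0e34144]

private theorem c9_10_r0 : c9_10.chkR (fun W => W == 9 || W == 10) 0 = true := by decide +kernel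

private theorem c9_10_r1 : c9_10.chkR (fun W => W == 9 || W == 10) 1 = true := by decide +kernel

theorem c9_10_chk : c9_10.chk (fun W => W == 9 || W == 10) = true := by
  refine Cer.chk_of (by decide +kernel) fun r hr => ?_
  replace hr : r < 2 := hr
  interval_cases r
  · exact c9_10_r0
  · exact c9_10_r1

def c9_15 : Cer where
  k := 4
  M := 2
  D := 24
  K := 1
  w := 5
  gs := []
  ts := [(-6, 1), (3, 2), (-6, 3), (3, 4), (1, 6)]
  P := [0xd20d0720c4d214c72140c290e62902e190e81902,
    0xd20d0720c4d214c72140c290e62902e190e81902]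

private theorem c9_15_r0 : c9_15.chkR (fun W => W == 9 || W == 15) 0 = true := by decide +kernel

private theorem c9_15_r1 : c9_15.chkR (fun W => W == 9 || W == 15) 1 = true := by decide +kernel

theorem c9_15_chk : c9_15.chk (fun W => W == 9 || W == 15) = true := by
  refine Cer.chk_of (by decide +kernel) fun r hr => ?_
  replace hr : r < 2 := hr
  interval_cases r
  · exact c9_15_r0
  · exact c9_15_r1

def c10_11 : Cer where
  k := 4
  M := 2
  D := 16
  K := 1
  w := 5
  gs := [⟨1, 2, 0, [(0, 2)]⟩]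
  ts := [(-2, 1), (-3, 2), (2, 3), (-2, 4)]
  P := [0x2328442100232844210023284421002328442100,
    0x3aee33ace33aee33ace33aee33ace33aee33ace3]

private theorem c10_11_r0 : c10_11.chkR (fun W => W == 10 || W == 11) 0 = true := by decide +kernel

private theorem c10_11_r1 : c10_11.chkR (fun W => W == 10 || W == 11) 1 = true := by decide +kernel

theorem c10_11_chk : c10_11.chk (fun W => W == 10 || W == 11) = true := by
  refine Cer.chk_of (by decide +kernel) fun r hr => ?_
  replace hr : r < 2 := hr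
  interval_cases r
  · exact c10_11_r0
  · exact c10_11_r1

def c10_12 : Cer where
  k := 4
  M := 2
  D := 24
  K := 1
  w := 5
  gs := []
  ts := [(-3, 2), (3, 4), (-1, 6)]
  P := [0x84a828190265a8262902752c07214075244720c4,
    0x84a828190265a8262902752c07214075244720c4]

private theorem c10_12_r0 : c10_12.chkR (fun W => W == 10 || W == 12) 0 = true := by decide +kernel

private theorem c10_12_r1 : c10_12.chkR (fun W => W == 10 || W == 12) 1 = true := by decide +kernel

theorem c10_12_chk : c10_12.chk (fun W => W == 10 || W == 12) = true := by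
  refine Cer.chk_of (by decide +kernel) fun r hr => ?_
  replace hr : r < 2 := hr
  interval_cases r
  · exact c10_12_r0
  · exact c10_12_r1

def c11_12 : Cer where
  k := 6
  M := 2
  D := 1520
  K := 1
  w := 12
  gs := [⟨-22, 2, 0, [(0, 1)]⟩, ⟨-14, 2, 0, [(0, 2)]⟩, ⟨-22, 2, 0, [(0, 3)]⟩,
    ⟨144, 2, 0, [(0, 1), (2, 3)]⟩, ⟨-57, 2, 0, [(0, 4)]⟩, ⟨-92, 2, 0, [(0, 1), (2, 4)]⟩,
    ⟨49, 2, 0, [(0, 1), (3, 4)]⟩, ⟨92, 2, 0, [(0, 2), (3, 4)]⟩]
  ts := [(-230, 1), (58, 2), (182, 3), (-73, 4), (62, 5), (39, 6), (-24, 7), (-23, 8)]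
  P := [0x7ba72081c3fe70c3622d23c875e5e05e441a7084a641245c7ba7dc7083ba35c36236e0f435662058409e76843e4264108068047184063983b22c60a42aa63059404e6bc3f24ce41076e6d48103ae66031631e3788065d05383ca7b44963c646078c74e7ee42c73a3342a43f27305b26123ec6da4cc44042e78c7ae73638c32e33439c12238064e5560cc79646c3f83e28347fa7463d837a3842f40d22d865e56607c6ea4204a03e279c7027e23dc68e3242f03a67dc5a25663dc7864c43f447e,
    0x7208b672231c6924fc4a440a72083a4ea1e049a26446c37e7e87ce5b61b43b22f043c3fa6f088665a3486063d44d43ea76c8a682e20c5423984584163c03e24da22c4e62542e00023903765a61c43c22e021802e7008967a223c66a4044883ea76a90082c2125a03f64564143be38453822e48c2b228200036a3186041663642a21ba02c6a283876423e6c442248639c71e85872431664c4a24a64086c281848c1de49820646a3207e682c5581b241029243a39c74e8c86983466084324d6438]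

private theorem c11_12_r0 : c11_12.chkR (fun W => W == 11 || W == 12) 0 = true := by decide +kernel

private theorem c11_12_r1 : c11_12.chkR (fun W => W == 11 || W == 12) 1 = true := by decide +kernel

theorem c11_12_chk : c11_12.chk (fun W => W == 11 || W == 12) = true := by
  refine Cer.chk_of (by decide +kernel) fun r hr => ?_
  replace hr : r < 2 := hr
  interval_cases r
  · exact c11_12_r0
  · exact c11_12_r1

def c11_13 : Cer where
  k := 4
  M := 2
  D := 24
  K := 1
  w := 5
  gs := []
  ts := [(-6, 1), (-3, 2), (6, 3), (-3, 4), (1, 6)]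
  P := [0x75244720c4752c07214065a826290284a8281902,
    0x75244720c4752c07214065a826290284a8281902]

private theorem c11_13_r0 : c11_13.chkR (fun W => W == 11 || W == 13) 0 = true := by decide +kernel

private theorem c11_13_r1 : c11_13.chkR (fun W => W == 11 || W == 13) 1 = true := by decide +kernel

theorem c11_13_chk : c11_13.chk (fun W => W == 11 || W == 13) = true := by
  refine Cer.chk_of (by decide +kernel) fun r hr => ?_
  replace hr : r < 2 := hr
  interval_cases r
  · exact c11_13_r0
  · exact c11_13_r1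

def c12_13 : Cer where
  k := 4
  M := 2
  D := 16
  K := 1
  w := 5
  gs := [⟨1, 2, 0, [(0, 2)]⟩]
  ts := [(-2, 1), (1, 2), (2, 3), (-2, 4)]
  P := [0x8410061084841006108484100610848410061084,
    0x7cce378ce37cce378ce37cce378ce37cce378ce3]

private theorem c12_13_r0 : c12_13.chkR (fun W => W == 12 || W == 13) 0 = true := by decide +kernel

private theorem c12_13_r1 : c12_13.chkR (fun W => W == 12 || W == 13) 1 = true := by decide +kernel

theorem c12_13_chk : c12_13.chk (fun W => W == 12 || W == 13) = true := by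
  refine Cer.chk_of (by decide +kernel) fun r hr => ?_
  replace hr : r < 2 := hr
  interval_cases r
  · exact c12_13_r0
  · exact c12_13_r1

def c12_15 : Cer where
  k := 5
  M := 2
  D := 24
  K := 1
  w := 6
  gs := []
  ts := [(-6, 1), (6, 2), (-3, 3), (3, 4), (-1, 7)]
  P := [0x89028050620280e20658028479028450230290e20258418480e30248428489018460220281220258428088c284502206,
    0x89028050620280e20658028479028450230290e20258418480e30248428489018460220281220258428088c284502206]

private theorem c12_15_r0 : c12_15.chkR (fun W => W == 12 || W == 15) 0 = true := by decide +kernel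

private theorem c12_15_r1 : c12_15.chkR (fun W => W == 12 || W == 15) 1 = true := by decide +kernel

theorem c12_15_chk : c12_15.chk (fun W => W == 12 || W == 15) = true := by
  refine Cer.chk_of (by decide +kernel) fun r hr => ?_
  replace hr : r < 2 := hr
  interval_cases r
  · exact c12_15_r0
  · exact c12_15_r1

def c14 : Cer where
  k := 6
  M := 2
  D := 1886
  K := 17
  w := 11
  gs := [⟨-42, 2, 0, [(0, 1)]⟩, ⟨-32, 2, 0, [(0, 2)]⟩, ⟨-22, 2, 0, [(0, 3)]⟩,
    ⟨-22, 2, 0, [(0, 1), (2, 3)]⟩, ⟨-12, 2, 0, [(0, 4)]⟩, ⟨-13, 2, 0, [(0, 1), (2, 4)]⟩,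
    ⟨-13, 2, 0, [(0, 1), (3, 4)]⟩, ⟨-13, 2, 0, [(0, 2), (3, 4)]⟩]
  ts := [(-174, 1), (57, 2), (-47, 3), (-60, 4), (27, 5), (-20, 6), (4, 7), (-4, 8)]
  P := [0xe9658cff84765a5850299195a7a51c99d2de78d1d883c5e67d219635d26851e9b99f26f5109c15166fd1195bcce5dd0992b6425d50c9a59827951c9a94a679d1f94be2662d1b87f5fa6351a9b99ca745169c534e74d178a7e865ad0384f64a5a50699996a7c51e9a52ee7ad2188bc6e65d1d95b5e26651c9c19e2715149c950671d1595bcde5bd059236525b50899d9727b51e9a14967bd1f943e1664d1f8875ea6551e9bd9da725129c935e72d1389f,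
    0xfe8001081846645585d06aaac6f9191be55877108188b885811c1cc614659051aef0c1b90b1e25e86d070094e203910a19867c5a8cf14ead46c9191c65807810a194bb05311a1b863c609031aed445490d1e65c0710d213ce403510a18866c568c713eab4709191c25607810a18cb905711a1c861c649031b2d645090d1e65e06e0d214cfc8041081946845986507aacc6d9191c257879108190ba85411c1bc634619051aeeec1f90b1ea5c870070094]

private theorem c14_r0 : c14.chkR (fun W => W == 14) 0 = true := by decide +kernel

private theorem c14_r1 : c14.chkR (fun W => W == 14) 1 = true := by decide +kernel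

theorem c14_chk : c14.chk (fun W => W == 14) = true := by
  refine Cer.chk_of (by decide +kernel) fun r hr => ?_
  replace hr : r < 2 := hr
  interval_cases r
  · exact c14_r0
  · exact c14_r1

end Pool.Agent.LSP
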