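import Pool.Agent.H86.FamOf

/-!
# Cut systems of a pair of simply connected 1-manifolds: definitions for squad LSP

`NS z z'` : two distinct non-separated points. `Cc z z'` : the complement of the side of `z` which
contains `z'`; it is closed, connected, contains `z` and not `z'`.

A cut system assigns to every ordered pair of distinct non-separated points of `X` a half-space of
`Y`, and vice versa, such that the two half-spaces of the two orders of a pair are disjoint.
-/

open Set Topology Filter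

namespace Pool.Agent.LSP

open Pool.Agent.H86.Bifol

variable {X Y : Type*} [TopologicalSpace X] [TopologicalSpace Y]

/-- Two distinct non-separated points. -/
def NS (z z' : X) : Prop := z ≠ z' ∧ NonSeparated z z'

theorem NS.symm {z z' : X} (h : NS z z') : NS z' z := ⟨h.1.symm, h.2.symm'⟩

/-- The complement of the side of `z` which contains `z'`. -/
def Cc (z z' : X) : Set X := (side z z')ᶜ

/-- Cut systems. -/
structure Cuts (V : X → X → Set Y) (S : Y → Y → Set X) : Prop where
  hV : ∀ z z', NS z z' → IsHalfSpace (V z z')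
  dV : ∀ z z', NS z z' → Disjoint (V z z') (V z' z)
  hS : ∀ w w', NS w w' → IsHalfSpace (S w w')
  dS : ∀ w w', NS w w' → Disjoint (S w w') (S w' w)

/-- The set of the pairs `(x, y)` which satisfy all constraints of the cut system. -/
def Om (V : X → X → Set Y) (S : Y → Y → Set X) : Set (X × Y) :=
  {p | (∀ z z', NS z z' → p.1 ∈ Cc z z' → p.2 ∈ V z z') ∧
    (∀ w w', NS w w' → p.2 ∈ Cc w w' → p.1 ∈ S w w')}

/-- An open subset of `X × Y` all of whose slices are lines. -/
structure Slices (Ω : Set (X × Y)) : Prop where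
  isOpen : IsOpen Ω
  fst : ∀ x, IsLine {y | (x, y) ∈ Ω}
  snd : ∀ y, IsLine {x | (x, y) ∈ Ω}

/-- The pairwise compatibility conditions for a cut system. -/
structure Compat (V : X → X → Set Y) (S : Y → Y → Set X) : Prop extends Cuts V S where
  c1 : ∀ z z' u u', NS z z' → NS u u' → (Cc z z' ∩ Cc u u').Nonempty →
    (V z z' ∩ V u u').Nonempty
  c1' : ∀ w w' v v', NS w w' → NS v v' → (Cc w w' ∩ Cc v v').Nonempty →
    (S w w' ∩ S v v').Nonempty
  c2 : ∀ z z' w w', NS z z' → NS w w' → ¬ Cc z z' ⊆ S w w' → ¬ V z z' ⊆ Cc w w'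
  c2' : ∀ z z' w w', NS z z' → NS w w' → ¬ Cc w w' ⊆ V z z' → ¬ S w w' ⊆ Cc z z'
  c3 : ∀ w w' v v', NS w w' → NS v v' → S w w' ∪ S v v' ≠ univ → Cc w w' ∪ Cc v v' ≠ univ
  c3' : ∀ z z' u u', NS z z' → NS u u' → V z z' ∪ V u u' ≠ univ → Cc z z' ∪ Cc u u' ≠ univ

/-! ### Symmetry -/

theorem Cuts.swap {V : X → X → Set Y} {S : Y → Y → Set X} (h : Cuts V S) : Cuts S V :=
  ⟨h.hS, h.dS, h.hV, h.dV⟩

theorem mem_Om_swap {V : X → X → Set Y} {S : Y → Y → Set X} {x : X} {y : Y} :
    (y, x) ∈ Om S V ↔ (x, y) ∈ Om V S :=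
  ⟨fun h => ⟨h.2, h.1⟩, fun h => ⟨h.2, h.1⟩⟩

theorem Om_swap {V : X → X → Set Y} {S : Y → Y → Set X} :
    Om S V = Prod.swap ⁻¹' (Om V S) := by
  ext ⟨y, x⟩
  exact mem_Om_swap

theorem mem_interior_Om_swap {V : X → X → Set Y} {S : Y → Y → Set X} {x : X} {y : Y} :
    (y, x) ∈ interior (Om S V) ↔ (x, y) ∈ interior (Om V S) := by
  have h : interior (Om S V) = Prod.swap ⁻¹' interior (Om V S) := by
    rw [Om_swap]
    exact ((Homeomorph.prodComm Y X).preimage_interior (Om V S)).symm
  rw [h]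
  rfl

theorem Compat.swap {V : X → X → Set Y} {S : Y → Y → Set X} (h : Compat V S) : Compat S V :=
  ⟨h.toCuts.swap, h.c1', h.c1, fun z z' w w' hz hw => h.c2' w w' z z' hw hz,
    fun z z' w w' hz hw => h.c2 w w' z z' hw hz, h.c3', h.c3⟩

theorem Slices.swap {Ω : Set (X × Y)} (h : Slices Ω) : Slices (Prod.swap ⁻¹' Ω : Set (Y × X)) :=
  ⟨h.isOpen.preimage continuous_swap, h.snd, h.fst⟩

/-! ### Elementary facts -/

theorem self_mem_Cc {z z' : X} : z ∈ Cc z z' := self_notMem_side

theorem isHalfSpace_side {z z' : X} (h : z' ≠ z) : IsHalfSpace (side z z') := ⟨z, z', h, rfl⟩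

theorem isPreconnected_of_halfSpace {H : Set X} (h : IsHalfSpace H) : IsPreconnected H := by
  obtain ⟨w, z, -, rfl⟩ := h
  exact isPreconnected_side

theorem nonempty_of_halfSpace {H : Set X} (h : IsHalfSpace H) : H.Nonempty := by
  obtain ⟨w, z, hz, rfl⟩ := h
  exact ⟨z, mem_side hz⟩

theorem notMem_Cc {z z' x : X} : x ∉ Cc z z' ↔ x ∈ side z z' := not_not

section
variable [SCM X]

theorem isClosed_Cc {z z' : X} : IsClosed (Cc z z') := isOpen_side.isClosed_compl

theorem isPreconnected_Cc {z z' : X} : IsPreconnected (Cc z z') := isPreconnected_compl_side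

theorem isOpen_of_halfSpace {H : Set X} (h : IsHalfSpace H) : IsOpen H := by
  obtain ⟨w, z, -, rfl⟩ := h
  exact isOpen_side

end

/-- The slice of `Om V S` at `x` is an intersection of half-spaces. -/
theorem mem_Om_iff {V : X → X → Set Y} {S : Y → Y → Set X} {x : X} {y : Y} :
    (x, y) ∈ Om V S ↔ (∀ z z', NS z z' → x ∈ Cc z z' → y ∈ V z z') ∧
      (∀ w w', NS w w' → x ∉ S w w' → y ∈ side w w') := by
  constructor
  · rintro ⟨h1, h2⟩
    refine ⟨h1, fun w w' hw hx => ?_⟩
    by_contra hy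
    exact hx (h2 w w' hw hy)
  · rintro ⟨h1, h2⟩
    refine ⟨h1, fun w w' hw hy => ?_⟩
    by_contra hx
    exact hy (h2 w w' hw hx)

end Pool.Agent.LSP
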