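import Pool.Agent.LSP.Defs

/-!
# LSP module ExhA (size 3)

Attaching a ray of a chart to an open connected set.
-/

open Set Topology Filter

namespace Pool.Agent.LSP

open Pool.Agent.H86.Bifol

variable {X : Type*} [TopologicalSpace X]

/-- `Z'` is `Z`, or `Z` with a half-line attached: `Z' = Z ∪ range ℓ` for an open embedding `ℓ` of the
real line such that `ℓ t ∈ Z` iff `t < 0`. -/
def StepSet (Z Z' : Set X) : Prop :=
  Z' = Z ∨ ∃ ℓ : ℝ → X, IsOpenEmbedding ℓ ∧ ℓ ⁻¹' Z = Iio 0 ∧ Z' = Z ∪ range ℓ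

theorem StepSet.subset {Z Z' : Set X} (h : StepSet Z Z') : Z ⊆ Z' := by
  rcases h with rfl | ⟨ℓ, -, -, rfl⟩
  · exact subset_rfl
  · exact subset_union_left

theorem StepSet.isOpen {Z Z' : Set X} (h : StepSet Z Z') (hZ : IsOpen Z) : IsOpen Z' := by
  rcases h with rfl | ⟨ℓ, hℓ, -, rfl⟩
  · exact hZ
  · exact hZ.union hℓ.isOpen_range

/-- PROOF. `range ℓ` is connected and meets `Z` (`ℓ (-1) ∈ Z`): `IsPreconnected.union`. -/
theorem StepSet.isPreconnected {Z Z' : Set X} (h : StepSet Z Z') (hZ : IsPreconnected Z) :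
    IsPreconnected Z' := by
  rcases h with rfl | ⟨ℓ, hℓ, hZl, rfl⟩
  · exact hZ
  · have hr : IsPreconnected (range ℓ) := isPreconnected_range hℓ.continuous
    have h1 : ℓ (-1) ∈ Z := by
      have : (-1 : ℝ) ∈ ℓ ⁻¹' Z := by rw [hZl]; simp
      exact this
    exact hZ.union (ℓ (-1)) h1 (mem_range_self _) hr

/-- A chart with target `univ` gives an open embedding of the line.
PROOF. `e.symm` is continuous (`e.continuousOn_symm`), injective and open
(`isOpen_symm_image` in Side.lean). -/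
theorem isOpenEmbedding_symm {e : OpenPartialHomeomorph X ℝ} (he : e.target = univ) :
    IsOpenEmbedding e.symm := by
  refine IsOpenEmbedding.of_continuous_injective_isOpenMap ?_ ?_ ?_
  · rw [← continuousOn_univ, ← he]
    exact e.continuousOn_symm
  · intro a b hab
    have h1 := congrArg e hab
    rwa [e.right_inv (by rw [he]; trivial), e.right_inv (by rw [he]; trivial)] at h1
  · intro s hs
    exact e.isOpen_image_symm_of_subset_target hs (by rw [he]; exact subset_univ _)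

/-- The traces of open connected sets are intervals.
PROOF. `e.symm '' P = Z ∩ e.source` for `P := e.symm ⁻¹' Z`, preconnected by
`isPreconnected_inter` (Side.lean, `isPreconnected_source`); `P = e '' (Z ∩ e.source)` with `e`
continuous on its source; preconnected subsets of `ℝ` are `OrdConnected`
(`IsPreconnected.ordConnected`). -/
theorem ordConnected_trace [SCM X] {e : OpenPartialHomeomorph X ℝ} (he : e.target = univ)
    {Z : Set X} (hZo : IsOpen Z) (hZ : IsPreconnected Z) : OrdConnected (e.symm ⁻¹' Z) := by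
  have h1 : IsPreconnected (Z ∩ e.source) :=
    isPreconnected_inter hZ hZo (isPreconnected_source he) e.open_source
  have h2 : e.symm ⁻¹' Z = e '' (Z ∩ e.source) := by
    ext c
    constructor
    · intro hc
      exact ⟨e.symm c, ⟨hc, symm_mem he c⟩, apply_symm he c⟩
    · rintro ⟨x, ⟨hx, hxs⟩, rfl⟩
      change e.symm (e x) ∈ Z
      rw [e.left_inv hxs]
      exact hx
  rw [h2]
  exact (h1.image e (e.continuousOn.mono inter_subset_right)).ordConnected

/-- PROOF. `P := e.symm ⁻¹' Z` is open and `OrdConnected`. If `P` is empty or not bounded above,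
`Z' := Z` works (if it is not bounded above: for `a ∈ P`, `a ≤ b`, there is `c ∈ P`, `b ≤ c`, so `b ∈ P`).
Otherwise let `a₀ ∈ P`, `b₀ := sSup P`; `b₀ ∉ P` since `P` is open; `a₀ < b₀`; for `a₀ ≤ x < b₀` `x ∈ P`
(`exists_lt_of_lt_csSup`, OrdConnected); for `x ≥ b₀`, `x ∉ P`. Put
`ℓ t := e.symm (a₀ + (b₀ - a₀) * Real.exp t)`: an open embedding (composition of `e.symm`,
an affine homeomorphism, and `Real.exp`, which is an open embedding: `Real.isOpenEmbedding_exp`),
`ℓ t ∈ Z ↔ a₀ + (b₀ - a₀) * exp t < b₀ ↔ exp t < 1 ↔ t < 0`. `Z' := Z ∪ range ℓ`. For `a ∈ P`, `a ≤ b`: if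
`b < b₀` and `b ≥ a₀`... in all cases `b ≤ a₀` gives `b ∈ [a, a₀] ⊆ P`, and `b > a₀` gives
`b = a₀ + (b₀ - a₀) * exp t` for `t := log ((b - a₀) / (b₀ - a₀))`. -/
theorem exists_step_up [SCM X] {e : OpenPartialHomeomorph X ℝ} (he : e.target = univ)
    {Z : Set X} (hZo : IsOpen Z) (hZ : IsPreconnected Z) :
    ∃ Z', StepSet Z Z' ∧ ∀ a b, a ≤ b → e.symm a ∈ Z → e.symm b ∈ Z' := by
  have hoc : OrdConnected (e.symm ⁻¹' Z) := ordConnected_trace he hZo hZ
  have hPo : IsOpen (e.symm ⁻¹' Z) := hZo.preimage (isOpenEmbedding_symm he).continuous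
  set P : Set ℝ := e.symm ⁻¹' Z with hP
  by_cases hne : P.Nonempty
  swap
  · refine ⟨Z, Or.inl rfl, fun a b _ ha => ?_⟩
    exact absurd ⟨a, ha⟩ hne
  by_cases hbd : BddAbove P
  swap
  · refine ⟨Z, Or.inl rfl, fun a b hab ha => ?_⟩
    rw [not_bddAbove_iff] at hbd
    obtain ⟨c, hc, hbc⟩ := hbd b
    exact hoc.out (show a ∈ P from ha) hc ⟨hab, hbc.le⟩
  obtain ⟨a₀, ha₀⟩ := hne
  set b₀ := sSup P with hb₀
  have hle : ∀ x ∈ P, x ≤ b₀ := fun x hx => le_csSup hbd hx
  have hb₀P : b₀ ∉ P := by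
    intro hb
    obtain ⟨ε, hε, hball⟩ := Metric.isOpen_iff.1 hPo b₀ hb
    have h3 : b₀ + ε / 2 ∈ P := by
      apply hball
      rw [Metric.mem_ball, Real.dist_eq]
      have : b₀ + ε / 2 - b₀ = ε / 2 := by ring
      rw [this, abs_of_pos (by positivity)]
      linarith
    have := hle _ h3
    linarith
  have hlt : a₀ < b₀ := lt_of_le_of_ne (hle a₀ ha₀) (fun h => hb₀P (h ▸ ha₀))
  have hin : ∀ x, a₀ ≤ x → x < b₀ → x ∈ P := by
    intro x hx hxb
    obtain ⟨c, hc, hxc⟩ := exists_lt_of_lt_csSup ⟨a₀, ha₀⟩ hxb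
    exact hoc.out ha₀ hc ⟨hx, hxc.le⟩
  have hout : ∀ x, b₀ ≤ x → x ∉ P := by
    intro x hx hxP
    have := hle x hxP
    exact hb₀P ((le_antisymm this hx) ▸ hxP)
  have hd : 0 < b₀ - a₀ := sub_pos.2 hlt
  refine ⟨Z ∪ range (fun t : ℝ => e.symm (a₀ + (b₀ - a₀) * Real.exp t)),
    Or.inr ⟨fun t => e.symm (a₀ + (b₀ - a₀) * Real.exp t), ?_, ?_, rfl⟩, ?_⟩
  · have haff : IsOpenEmbedding (fun x : ℝ => a₀ + (b₀ - a₀) * x) :=
      ((Homeomorph.mulLeft₀ (b₀ - a₀) hd.ne').trans (Homeomorph.addLeft a₀)).isOpenEmbedding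
    exact (isOpenEmbedding_symm he).comp (haff.comp Real.isOpenEmbedding_exp)
  · ext t
    change e.symm (a₀ + (b₀ - a₀) * Real.exp t) ∈ Z ↔ t ∈ Iio 0
    have hpos : 0 < (b₀ - a₀) * Real.exp t := mul_pos hd (Real.exp_pos t)
    constructor
    · intro h
      have h4 : a₀ + (b₀ - a₀) * Real.exp t < b₀ := by
        by_contra hcon
        exact hout _ (not_lt.1 hcon) h
      have h5 : (b₀ - a₀) * Real.exp t < (b₀ - a₀) * 1 := by linarith
      have h6 : Real.exp t < 1 := lt_of_mul_lt_mul_left h5 hd.le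
      exact Real.exp_lt_one_iff.1 h6
    · intro h
      have h6 : Real.exp t < 1 := Real.exp_lt_one_iff.2 h
      have h5 : (b₀ - a₀) * Real.exp t < (b₀ - a₀) * 1 := mul_lt_mul_of_pos_left h6 hd
      exact hin _ (by linarith) (by linarith)
  · intro a b hab ha
    by_cases hb : b ≤ a₀
    · left
      exact hoc.out (show a ∈ P from ha) ha₀ ⟨hab, hb⟩
    · right
      have hb' : 0 < b - a₀ := sub_pos.2 (not_le.1 hb)
      refine ⟨Real.log ((b - a₀) / (b₀ - a₀)), ?_⟩
      change e.symm (a₀ + (b₀ - a₀) * Real.exp (Real.log ((b - a₀) / (b₀ - a₀)))) = e.symm b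
      rw [Real.exp_log (div_pos hb' hd), mul_div_cancel₀ _ hd.ne']
      congr 1
      ring

/-- PROOF. `exists_step_up` for `negC e` (H86/Orient: `negC_target`, `negC_symm_apply`). -/
theorem exists_step_dn [SCM X] {e : OpenPartialHomeomorph X ℝ} (he : e.target = univ)
    {Z : Set X} (hZo : IsOpen Z) (hZ : IsPreconnected Z) :
    ∃ Z', StepSet Z Z' ∧ ∀ a b, b ≤ a → e.symm a ∈ Z → e.symm b ∈ Z' := by
  obtain ⟨Z', h1, h2⟩ := exists_step_up (negC_target he) hZo hZ
  refine ⟨Z', h1, fun a b hab ha => ?_⟩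
  have h3 := h2 (-a) (-b) (neg_le_neg hab) (by rw [negC_symm_apply, neg_neg]; exact ha)
  rwa [negC_symm_apply, neg_neg] at h3

end Pool.Agent.LSP
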