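import Pool.Agent.LSP.ExhA

/-!
# LSP module ExhB (size 3)

A second countable simply connected 1-manifold is exhausted by successive attachment of rays.
-/

open Set Topology Filter

namespace Pool.Agent.LSP

open Pool.Agent.H86.Bifol

variable {X : Type*} [TopologicalSpace X] [SCM X] [SecondCountableTopology X]

/-- PROOF. Countably many charts `e k` (`k : ℕ`, target `univ`) cover `X`
(`exists_chart` and Lindelöf: `TopologicalSpace.isOpen_iUnion_countable` or
`TopologicalSpace.countable_cover_nhds`). For a state `Z` (open, preconnected) and a label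
`(k, s) : ℕ × Bool` let `T Z (k, s)` be the `Z'` of `exists_step_up` (`s = true`) or
`exists_step_dn` for `e k`. Let `σ : ℕ → ℕ × Bool` hit every label infinitely often (e.g. from
`Nat.unpair` and a surjection `ℕ → ℕ × Bool`: `σ n := f (n.unpair).2`; then for every label and every
`N` there is `n ≥ N` with `σ n = label`, `Nat.unpair_pair`, `Nat.left_le_pair`). `Z 0 := (e 0).source`
`= range (e 0).symm`, `Z (n + 1) := T (Z n) (σ n)` (recursion on the subtype of open preconnected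
nonempty sets). `Z` is increasing (`StepSet.subset`).
Cover: `W := ⋃ n, Z n` is open, nonempty. Claim: if `(e k).source` meets `W` then
`(e k).source ⊆ W`: let `(e k).symm a ∈ Z N`; for `n ≥ N` with `σ n = (k, true)`:
`(e k).symm b ∈ Z (n + 1)` for `b ≥ a`, and for `n' ≥ N` with `σ n' = (k, false)` for `b ≤ a`. Hence `W` is
closed: a point `x ∈ closure W` is in some `(e k).source`, which is open and meets `W`. `X` is
connected, so `W = univ` (`IsClopen.eq_univ`). -/
theorem exists_exhaustion_rays :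
    ∃ Z : ℕ → Set X, (∃ ℓ₀ : ℝ → X, IsOpenEmbedding ℓ₀ ∧ Z 0 = range ℓ₀) ∧
      (∀ n, IsOpen (Z n)) ∧ (∀ n, StepSet (Z n) (Z (n + 1))) ∧ ∀ x, ∃ n, x ∈ Z n := by
  classical
  choose ch hch htar using fun x : X => exists_chart x
  obtain ⟨S, hSc, hS⟩ := TopologicalSpace.countable_cover_nhds (f := fun x => (ch x).source)
    (fun x => (ch x).open_source.mem_nhds (hch x))
  obtain ⟨x₀⟩ : Nonempty X := inferInstance
  have hSne : S.Nonempty := by
    have h : x₀ ∈ ⋃ x ∈ S, (ch x).source := hS ▸ mem_univ x₀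
    obtain ⟨y, hy, _⟩ := mem_iUnion₂.1 h
    exact ⟨y, hy⟩
  obtain ⟨f, hf⟩ := hSc.exists_eq_range hSne
  obtain ⟨e, hcov, he⟩ : ∃ e : ℕ → OpenPartialHomeomorph X ℝ, (∀ x, ∃ k, x ∈ (e k).source) ∧
      ∀ k, (e k).target = univ := by
    refine ⟨fun k => ch (f k), fun x => ?_, fun k => htar _⟩
    have h : x ∈ ⋃ x ∈ S, (ch x).source := hS ▸ mem_univ x
    obtain ⟨y, hy, hxy⟩ := mem_iUnion₂.1 h
    rw [hf] at hy
    obtain ⟨k, rfl⟩ := hy
    exact ⟨k, hxy⟩
  have stepU : ∀ (Z : {Z : Set X // IsOpen Z ∧ IsPreconnected Z}) (k : ℕ),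
      ∃ Z' : {Z : Set X // IsOpen Z ∧ IsPreconnected Z}, StepSet Z.1 Z'.1 ∧
        ∀ a b, a ≤ b → (e k).symm a ∈ Z.1 → (e k).symm b ∈ Z'.1 := by
    intro Z k
    obtain ⟨Z', h1, h2⟩ := exists_step_up (he k) Z.2.1 Z.2.2
    exact ⟨⟨Z', h1.isOpen Z.2.1, h1.isPreconnected Z.2.2⟩, h1, h2⟩
  have stepD : ∀ (Z : {Z : Set X // IsOpen Z ∧ IsPreconnected Z}) (k : ℕ),
      ∃ Z' : {Z : Set X // IsOpen Z ∧ IsPreconnected Z}, StepSet Z.1 Z'.1 ∧
        ∀ a b, b ≤ a → (e k).symm a ∈ Z.1 → (e k).symm b ∈ Z'.1 := by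
    intro Z k
    obtain ⟨Z', h1, h2⟩ := exists_step_dn (he k) Z.2.1 Z.2.2
    exact ⟨⟨Z', h1.isOpen Z.2.1, h1.isPreconnected Z.2.2⟩, h1, h2⟩
  choose TU hTU hTU' using stepU
  choose TD hTD hTD' using stepD
  obtain ⟨Z, hZ0, hZs⟩ : ∃ Z : ℕ → {Z : Set X // IsOpen Z ∧ IsPreconnected Z},
      (Z 0).1 = (e 0).source ∧ ∀ n, Z (n + 1) =
        if (Nat.unpair (Nat.unpair n).2).2 = 0 then TU (Z n) (Nat.unpair (Nat.unpair n).2).1
        else TD (Z n) (Nat.unpair (Nat.unpair n).2).1 :=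
    ⟨fun n => Nat.rec ⟨(e 0).source, (e 0).open_source, isPreconnected_source (he 0)⟩
      (fun n Z => if (Nat.unpair (Nat.unpair n).2).2 = 0 then TU Z (Nat.unpair (Nat.unpair n).2).1
        else TD Z (Nat.unpair (Nat.unpair n).2).1) n, rfl, fun n => rfl⟩
  have hstep : ∀ n, StepSet (Z n).1 (Z (n + 1)).1 := by
    intro n
    rw [hZs]
    split_ifs
    · exact hTU _ _
    · exact hTD _ _
  have hmono : ∀ n m, n ≤ m → (Z n).1 ⊆ (Z m).1 := by
    intro n m hnm
    induction m, hnm using Nat.le_induction with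
    | base => exact subset_rfl
    | succ m _ ih => exact ih.trans (hstep m).subset
  have hup : ∀ k N a b, a ≤ b → (e k).symm a ∈ (Z N).1 → ∃ M, (e k).symm b ∈ (Z M).1 := by
    intro k N a b hab ha
    refine ⟨Nat.pair N (Nat.pair k 0) + 1, ?_⟩
    have h1 : (e k).symm a ∈ (Z (Nat.pair N (Nat.pair k 0))).1 :=
      hmono _ _ (Nat.left_le_pair _ _) ha
    rw [hZs]
    simp only [Nat.unpair_pair, if_true]
    exact hTU' _ _ a b hab h1
  have hdn : ∀ k N a b, b ≤ a → (e k).symm a ∈ (Z N).1 → ∃ M, (e k).symm b ∈ (Z M).1 := by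
    intro k N a b hab ha
    refine ⟨Nat.pair N (Nat.pair k 1) + 1, ?_⟩
    have h1 : (e k).symm a ∈ (Z (Nat.pair N (Nat.pair k 1))).1 :=
      hmono _ _ (Nat.left_le_pair _ _) ha
    rw [hZs]
    simp only [Nat.unpair_pair, one_ne_zero, if_false]
    exact hTD' _ _ a b hab h1
  have hWo : IsOpen (⋃ n, (Z n).1) := isOpen_iUnion fun n => (Z n).2.1
  have hWc : IsClosed (⋃ n, (Z n).1) := by
    refine isClosed_of_closure_subset fun x hx => ?_
    obtain ⟨k, hk⟩ := hcov x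
    obtain ⟨y, hy1, hy2⟩ := mem_closure_iff.1 hx _ (e k).open_source hk
    obtain ⟨N, hN⟩ := mem_iUnion.1 hy2
    have hN' : (e k).symm (e k y) ∈ (Z N).1 := by
      rw [(e k).left_inv hy1]
      exact hN
    rw [← (e k).left_inv hk]
    rcases le_total (e k y) (e k x) with h | h
    · exact mem_iUnion.2 (hup k N _ _ h hN')
    · exact mem_iUnion.2 (hdn k N _ _ h hN')
  have hWne : (⋃ n, (Z n).1).Nonempty := by
    refine ⟨(e 0).symm 0, mem_iUnion.2 ⟨0, ?_⟩⟩
    rw [hZ0]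
    exact (e 0).map_target (by rw [he]; exact mem_univ _)
  have hW : (⋃ n, (Z n).1) = univ := IsClopen.eq_univ ⟨hWc, hWo⟩ hWne
  refine ⟨fun n => (Z n).1, ⟨(e 0).symm, isOpenEmbedding_symm (he 0), ?_⟩, fun n => (Z n).2.1,
    hstep, fun x => ?_⟩
  · show (Z 0).1 = _
    rw [hZ0, ← (e 0).symm_image_target_eq_source, he, image_univ]
  · have : x ∈ ⋃ n, (Z n).1 := hW ▸ mem_univ x
    exact mem_iUnion.1 this

end Pool.Agent.LSP
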