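import Pool.Agent.LSP.Helly

/-!
# LSP module Fin (size 3)

Finite type: `Om V S` is open and all its slices are nonempty.
-/

open Set Topology Filter

namespace Pool.Agent.LSP

open Pool.Agent.H86.Bifol

variable {X Y : Type*} [TopologicalSpace X] [TopologicalSpace Y] [SCM X] [SCM Y]

/-- Only finitely many ordered pairs of distinct non-separated points. -/
def FinType (X : Type*) [TopologicalSpace X] : Prop := {p : X × X | NS p.1 p.2}.Finite

/-- PROOF. The complement of `Om V S` is the union of the finitely many closed sets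
`Cc z z' ×ˢ (V z z')ᶜ` (`(z, z') ∈ {NS}`) and `(S w w')ᶜ ×ˢ Cc w w'` (`(w, w') ∈ {NS}`)
(`isClosed_Cc`, `isOpen_of_halfSpace`, `Set.Finite.isClosed_biUnion`). -/
theorem isOpen_Om (hX : FinType X) (hY : FinType Y) {V : X → X → Set Y} {S : Y → Y → Set X}
    (h : Cuts V S) : IsOpen (Om V S) := by
  have h1 : IsClosed (⋃ p ∈ {p : X × X | NS p.1 p.2}, Cc p.1 p.2 ×ˢ (V p.1 p.2)ᶜ) := by
    refine hX.isClosed_biUnion fun p hp => ?_
    exact isClosed_Cc.prod (isOpen_of_halfSpace (h.hV p.1 p.2 hp)).isClosed_compl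
  have h2 : IsClosed (⋃ q ∈ {q : Y × Y | NS q.1 q.2}, (S q.1 q.2)ᶜ ×ˢ Cc q.1 q.2) := by
    refine hY.isClosed_biUnion fun q hq => ?_
    exact (isOpen_of_halfSpace (h.hS q.1 q.2 hq)).isClosed_compl.prod isClosed_Cc
  have he : Om V S = ((⋃ p ∈ {p : X × X | NS p.1 p.2}, Cc p.1 p.2 ×ˢ (V p.1 p.2)ᶜ) ∪
      (⋃ q ∈ {q : Y × Y | NS q.1 q.2}, (S q.1 q.2)ᶜ ×ˢ Cc q.1 q.2))ᶜ := by
    ext ⟨x, y⟩
    constructor
    · rintro ⟨a, b⟩ hc
      rcases hc with hc | hc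
      · obtain ⟨p, hp, hc⟩ := mem_iUnion₂.1 hc
        exact hc.2 (a p.1 p.2 hp hc.1)
      · obtain ⟨q, hq, hc⟩ := mem_iUnion₂.1 hc
        exact hc.1 (b q.1 q.2 hq hc.2)
    · intro hc
      refine ⟨fun z z' hz hx => ?_, fun w w' hw hy => ?_⟩
      · by_contra hn
        exact hc (Or.inl (mem_iUnion₂.2 ⟨(z, z'), hz, hx, hn⟩))
      · by_contra hn
        exact hc (Or.inr (mem_iUnion₂.2 ⟨(w, w'), hw, hn, hy⟩))
  rw [he]
  exact (h1.union h2).isOpen_compl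

/-- PROOF. By `mem_Om_iff` the slice at `x` is the intersection of the half-spaces `V z z'` for the
finitely many `NS z z'` with `x ∈ Cc z z'`, and `side w w'` for the finitely many `NS w w'` with
`x ∉ S w w'`. If there is none, any point `y` of `Y` works (`Nonempty Y`). Otherwise `helly`, for the
finset `s : Finset ((X × X) ⊕ (Y × Y))` (or two steps) and the obvious family; each member is open
and preconnected (`isOpen_of_halfSpace`, `isPreconnected_of_halfSpace`). They meet pairwise: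
* `V z z'` and `V u u'`: `x ∈ Cc z z' ∩ Cc u u'`, so by `c1`;
* `V z z'` and `side w w'`: `x ∈ Cc z z'`, `x ∉ S w w'`, so `¬ Cc z z' ⊆ S w w'`, so by `c2` there is
  `y ∈ V z z'`, `y ∉ Cc w w'`, that is `y ∈ side w w'` (`notMem_Cc`);
* `side w w'` and `side v v'`: `x ∉ S w w' ∪ S v v'`, so `Cc w w' ∪ Cc v v' ≠ univ` by `c3`: there is
  `y` in none of the two, i.e. in both sides. -/
theorem exists_slice (hX : FinType X) (hY : FinType Y) {V : X → X → Set Y} {S : Y → Y → Set X}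
    (h : Compat V S) (x : X) : ∃ y, (x, y) ∈ Om V S := by
  classical
  have f1 : ({p : X × X | NS p.1 p.2 ∧ x ∈ Cc p.1 p.2} : Set (X × X)).Finite :=
    hX.subset fun p hp => hp.1
  have f2 : ({q : Y × Y | NS q.1 q.2 ∧ x ∉ S q.1 q.2} : Set (Y × Y)).Finite :=
    hY.subset fun q hq => hq.1
  let I : Set ((X × X) ⊕ (Y × Y)) := Sum.inl '' {p : X × X | NS p.1 p.2 ∧ x ∈ Cc p.1 p.2} ∪
    Sum.inr '' {q : Y × Y | NS q.1 q.2 ∧ x ∉ S q.1 q.2}
  have fI : I.Finite := (f1.image _).union (f2.image _)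
  let A : (X × X) ⊕ (Y × Y) → Set Y := Sum.elim (fun p => V p.1 p.2) (fun q => side q.1 q.2)
  have hl : ∀ p : X × X, NS p.1 p.2 → x ∈ Cc p.1 p.2 → Sum.inl p ∈ I := fun p h1 h2 =>
    Or.inl ⟨p, ⟨h1, h2⟩, rfl⟩
  have hr : ∀ q : Y × Y, NS q.1 q.2 → x ∉ S q.1 q.2 → Sum.inr q ∈ I := fun q h1 h2 =>
    Or.inr ⟨q, ⟨h1, h2⟩, rfl⟩
  have key : ∃ y, ∀ i ∈ I, y ∈ A i := by
    rcases I.eq_empty_or_nonempty with hI | hI
    · obtain ⟨y⟩ : Nonempty Y := inferInstance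
      exact ⟨y, fun i hi => by rw [hI] at hi; exact absurd hi (Set.notMem_empty i)⟩
    · have mainS : (∀ i ∈ fI.toFinset, IsOpen (A i)) ∧ (∀ i ∈ fI.toFinset, IsPreconnected (A i)) ∧
          ∀ i ∈ fI.toFinset, ∀ j ∈ fI.toFinset, (A i ∩ A j).Nonempty := ⟨?_, ?_, ?_⟩
      · obtain ⟨y, hy⟩ := helly fI.toFinset (fI.toFinset_nonempty.2 hI) A mainS.1 mainS.2.1 mainS.2.2
        exact ⟨y, fun i hi => hy i (fI.mem_toFinset.2 hi)⟩
      · intro i hi
        rcases fI.mem_toFinset.1 hi with ⟨p, ⟨h1, -⟩, rfl⟩ | ⟨q, ⟨h1, -⟩, rfl⟩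
        · exact isOpen_of_halfSpace (h.hV p.1 p.2 h1)
        · exact isOpen_side
      · intro i hi
        rcases fI.mem_toFinset.1 hi with ⟨p, ⟨h1, -⟩, rfl⟩ | ⟨q, ⟨h1, -⟩, rfl⟩
        · exact isPreconnected_of_halfSpace (h.hV p.1 p.2 h1)
        · exact isPreconnected_side
      · have mixed : ∀ p : X × X, ∀ q : Y × Y, NS p.1 p.2 → x ∈ Cc p.1 p.2 → NS q.1 q.2 →
            x ∉ S q.1 q.2 → ∃ y, y ∈ V p.1 p.2 ∧ y ∈ side q.1 q.2 := by
          intro p q h1 h2 h3 h4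
          have := h.c2 p.1 p.2 q.1 q.2 h1 h3 (fun hs => h4 (hs h2))
          obtain ⟨y, hy1, hy2⟩ := Set.not_subset.1 this
          exact ⟨y, hy1, notMem_Cc.1 hy2⟩
        intro i hi j hj
        rcases fI.mem_toFinset.1 hi with ⟨p, ⟨h1, h2⟩, rfl⟩ | ⟨q, ⟨h1, h2⟩, rfl⟩
        · rcases fI.mem_toFinset.1 hj with ⟨p', ⟨h3, h4⟩, rfl⟩ | ⟨q', ⟨h3, h4⟩, rfl⟩
          · exact h.c1 p.1 p.2 p'.1 p'.2 h1 h3 ⟨x, h2, h4⟩
          · obtain ⟨y, hy1, hy2⟩ := mixed p q' h1 h2 h3 h4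
            exact ⟨y, hy1, hy2⟩
        · rcases fI.mem_toFinset.1 hj with ⟨p', ⟨h3, h4⟩, rfl⟩ | ⟨q', ⟨h3, h4⟩, rfl⟩
          · obtain ⟨y, hy1, hy2⟩ := mixed p' q h3 h4 h1 h2
            exact ⟨y, hy2, hy1⟩
          · have hne : S q.1 q.2 ∪ S q'.1 q'.2 ≠ univ := by
              intro hu
              have hx : x ∈ S q.1 q.2 ∪ S q'.1 q'.2 := hu ▸ mem_univ x
              rcases hx with hx | hx
              · exact h2 hx
              · exact h4 hx
            have := h.c3 q.1 q.2 q'.1 q'.2 h1 h3 hne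
            obtain ⟨y, hy⟩ := (Set.ne_univ_iff_exists_notMem _).1 this
            refine ⟨y, ?_, ?_⟩
            · exact notMem_Cc.1 fun hc => hy (Or.inl hc)
            · exact notMem_Cc.1 fun hc => hy (Or.inr hc)
  obtain ⟨y, hy⟩ := key
  refine ⟨y, mem_Om_iff.2 ⟨fun z z' hz hx => ?_, fun w w' hw hx => ?_⟩⟩
  · exact hy _ (hl (z, z') hz hx)
  · exact hy _ (hr (w, w') hw hx)

/-- PROOF. `isOpen_Om` gives `interior (Om V S) = Om V S`; `exists_slice` for `h` and for `h.swap`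
(with `mem_Om_swap`). -/
theorem exists_interior (hX : FinType X) (hY : FinType Y) {V : X → X → Set Y}
    {S : Y → Y → Set X} (h : Compat V S) :
    (∀ x, ∃ y, (x, y) ∈ interior (Om V S)) ∧ ∀ y, ∃ x, (x, y) ∈ interior (Om V S) := by
  have ho : interior (Om V S) = Om V S := (isOpen_Om hX hY h.toCuts).interior_eq
  rw [ho]
  refine ⟨exists_slice hX hY h, fun y => ?_⟩
  obtain ⟨x, hx⟩ := exists_slice hY hX h.swap y
  exact ⟨x, mem_Om_swap.1 hx⟩

end Pool.Agent.LSP
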