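import Pool.Agent.LSP.Null
import Pool.Agent.LLO.Avg

set_option autoImplicit false

/-!
# MP_52aa73_nt (sign patterns of Liouville's function): two-point correlations

`avg` (averages over `[m, 2m)`) gives `∑_{n ≤ Z} λ(n) λ(n+k) / n = o(log Z)`.
-/

open Finset

namespace Pool.Agent.LSP

open Pool.Agent.LLO

section

variable {g : ℕ → ℝ}

private noncomputable def GG (g : ℕ → ℝ) (n : ℕ) : ℝ := ∑ i ∈ Ico 1 n, g i

private theorem GG_succ (g : ℕ → ℝ) (n : ℕ) (hn : 1 ≤ n) : GG g (n + 1) = GG g n + g n := by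
  unfold GG
  rw [sum_Ico_succ_top hn]

private theorem GG_abs (hg : ∀ n, |g n| ≤ 1) (n : ℕ) : |GG g n| ≤ n := by
  unfold GG
  refine (abs_sum_le_sum_abs _ _).trans ((sum_le_sum fun i _ => hg i).trans ?_)
  rw [sum_const, Nat.card_Ico, nsmul_eq_mul, mul_one]
  exact_mod_cast Nat.sub_le _ _

private noncomputable def AA (g : ℕ → ℝ) (Z : ℕ) : ℝ := ∑ n ∈ Icc 1 Z, GG g n / (n : ℝ) ^ 2

private theorem AA_succ (g : ℕ → ℝ) (Z : ℕ) : AA g (Z + 1) = AA g Z + GG g (Z + 1) / ((Z : ℝ) + 1) ^ 2 := by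
  unfold AA
  rw [sum_Icc_succ_top (by omega)]
  push_cast
  rfl

/-- step (i) -/
private theorem st1 (hg : ∀ n, |g n| ≤ 1) (Z : ℕ) :
    |LS g Z - AA g Z - GG g (Z + 1) / ((Z : ℝ) + 1)| ≤ 4 * (1 - 1 / ((Z : ℝ) + 1)) := by
  induction Z with
  | zero => simp [LS, AA, GG]
  | succ Z ih =>
    have hZ : (0 : ℝ) < (Z : ℝ) + 1 := by positivity
    have hZ2 : (0 : ℝ) < (Z : ℝ) + 2 := by positivity
    rw [LS_succ, AA_succ, GG_succ g (Z + 1) (by omega)]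
    push_cast
    set G := GG g (Z + 1) with hG
    have hGb : |G| ≤ (Z : ℝ) + 1 := by
      have := GG_abs hg (Z + 1)
      push_cast at this
      exact this
    have e : LS g Z + g (Z + 1) / ((Z : ℝ) + 1) - (AA g Z + G / ((Z : ℝ) + 1) ^ 2) -
        (G + g (Z + 1)) / ((Z : ℝ) + 1 + 1) =
        (LS g Z - AA g Z - G / ((Z : ℝ) + 1)) +
        (g (Z + 1) * (1 / (((Z : ℝ) + 1) * ((Z : ℝ) + 2))) -
          G * (1 / (((Z : ℝ) + 1) ^ 2 * ((Z : ℝ) + 2)))) := by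
      field_simp
      ring
    rw [e]
    have h1 : |g (Z + 1) * (1 / (((Z : ℝ) + 1) * ((Z : ℝ) + 2)))| ≤ 1 / (((Z : ℝ) + 1) * ((Z : ℝ) + 2)) := by
      rw [abs_mul, abs_of_nonneg (by positivity : 0 ≤ 1 / (((Z : ℝ) + 1) * ((Z : ℝ) + 2)))]
      exact mul_le_of_le_one_left (by positivity) (hg _)
    have h2 : |G * (1 / (((Z : ℝ) + 1) ^ 2 * ((Z : ℝ) + 2)))| ≤ 1 / (((Z : ℝ) + 1) * ((Z : ℝ) + 2)) := by
      rw [abs_mul, abs_of_nonneg (by positivity : 0 ≤ 1 / (((Z : ℝ) + 1) ^ 2 * ((Z : ℝ) + 2)))]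
      calc |G| * (1 / (((Z : ℝ) + 1) ^ 2 * ((Z : ℝ) + 2))) ≤
            ((Z : ℝ) + 1) * (1 / (((Z : ℝ) + 1) ^ 2 * ((Z : ℝ) + 2))) :=
            mul_le_mul_of_nonneg_right hGb (by positivity)
        _ = 1 / (((Z : ℝ) + 1) * ((Z : ℝ) + 2)) := by field_simp
    have h3 : 4 * (1 - 1 / ((Z : ℝ) + 1 + 1)) - 4 * (1 - 1 / ((Z : ℝ) + 1)) =
        4 / (((Z : ℝ) + 1) * ((Z : ℝ) + 2)) := by
      field_simp
      ring
    have h4 : 0 ≤ 1 / (((Z : ℝ) + 1) * ((Z : ℝ) + 2)) := by positivity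
    have h5 : 4 / (((Z : ℝ) + 1) * ((Z : ℝ) + 2)) = 4 * (1 / (((Z : ℝ) + 1) * ((Z : ℝ) + 2))) := by ring
    have h6 := abs_sub (g (Z + 1) * (1 / (((Z : ℝ) + 1) * ((Z : ℝ) + 2))))
      (G * (1 / (((Z : ℝ) + 1) ^ 2 * ((Z : ℝ) + 2))))
    refine (abs_add_le _ _).trans ?_
    linarith

/-- step (ii) -/
private theorem st2 (hg : ∀ n, |g n| ≤ 1) (Z : ℕ) :
    |∑ m ∈ Icc 1 Z, GG g (2 * m) / (m : ℝ) ^ 2 - 2 * AA g (2 * Z + 1)| ≤
      2 + 20 * (1 - 1 / ((Z : ℝ) + 1)) := by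
  induction Z with
  | zero => simp [AA, GG]
  | succ Z ih =>
    have hZ : (0 : ℝ) < (Z : ℝ) + 1 := by positivity
    have hZ2 : (0 : ℝ) < (Z : ℝ) + 2 := by positivity
    have hZ3 : (0 : ℝ) < 2 * (Z : ℝ) + 3 := by positivity
    rw [sum_Icc_succ_top (by omega), show 2 * (Z + 1) + 1 = (2 * Z + 1) + 1 + 1 by ring,
      AA_succ, AA_succ, show 2 * Z + 1 + 1 + 1 = (2 * (Z + 1)) + 1 by ring,
      GG_succ g (2 * (Z + 1)) (by omega), show 2 * Z + 1 + 1 = 2 * (Z + 1) by ring]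
    push_cast
    set G := GG g (2 * (Z + 1)) with hG
    set γ := g (2 * (Z + 1)) with hγ
    have hGb : |G| ≤ 2 * ((Z : ℝ) + 1) := by
      have := GG_abs hg (2 * (Z + 1))
      push_cast at this
      exact this
    have e : ∑ m ∈ Icc 1 Z, GG g (2 * m) / (m : ℝ) ^ 2 + G / ((Z : ℝ) + 1) ^ 2 -
        2 * (AA g (2 * Z + 1) + G / (2 * (Z : ℝ) + 1 + 1) ^ 2 + (G + γ) / (2 * ((Z : ℝ) + 1) + 1) ^ 2) =
        (∑ m ∈ Icc 1 Z, GG g (2 * m) / (m : ℝ) ^ 2 - 2 * AA g (2 * Z + 1)) +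
        (G * ((4 * (Z : ℝ) + 5) / (2 * ((Z : ℝ) + 1) ^ 2 * (2 * (Z : ℝ) + 3) ^ 2)) -
          γ * (2 / (2 * (Z : ℝ) + 3) ^ 2)) := by
      have a1 : 2 * (Z : ℝ) + 1 + 1 = 2 * ((Z : ℝ) + 1) := by ring
      have a2 : 2 * ((Z : ℝ) + 1) + 1 = 2 * (Z : ℝ) + 3 := by ring
      rw [a2, a1]
      field_simp
      ring
    rw [e]
    have hc : 0 ≤ (4 * (Z : ℝ) + 5) / (2 * ((Z : ℝ) + 1) ^ 2 * (2 * (Z : ℝ) + 3) ^ 2) := by positivity
    have hq : (0 : ℝ) < 1 / (((Z : ℝ) + 1) * ((Z : ℝ) + 2)) := by positivity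
    have h1 : |G * ((4 * (Z : ℝ) + 5) / (2 * ((Z : ℝ) + 1) ^ 2 * (2 * (Z : ℝ) + 3) ^ 2))| ≤
        10 * (1 / (((Z : ℝ) + 1) * ((Z : ℝ) + 2))) := by
      rw [abs_mul, abs_of_nonneg hc]
      refine (mul_le_mul_of_nonneg_right hGb hc).trans ?_
      rw [mul_div_assoc', mul_one_div, div_le_div_iff₀ (by positivity) (by positivity)]
      have : 0 ≤ (Z : ℝ) := Nat.cast_nonneg Z
      nlinarith [mul_nonneg this this, mul_nonneg (mul_nonneg this this) this,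
        mul_nonneg (mul_nonneg this this) (mul_nonneg this this)]
    have h2 : |γ * (2 / (2 * (Z : ℝ) + 3) ^ 2)| ≤ 10 * (1 / (((Z : ℝ) + 1) * ((Z : ℝ) + 2))) := by
      rw [abs_mul, abs_of_nonneg (by positivity : 0 ≤ 2 / (2 * (Z : ℝ) + 3) ^ 2)]
      refine (mul_le_of_le_one_left (by positivity) (hg _)).trans ?_
      rw [mul_one_div, div_le_div_iff₀ (by positivity) (by positivity)]
      have : 0 ≤ (Z : ℝ) := Nat.cast_nonneg Z
      nlinarith [mul_nonneg this this]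
    have h3 : 20 * (1 - 1 / ((Z : ℝ) + 1 + 1)) - 20 * (1 - 1 / ((Z : ℝ) + 1)) =
        20 * (1 / (((Z : ℝ) + 1) * ((Z : ℝ) + 2))) := by
      field_simp
      ring
    have h6 := abs_sub (G * ((4 * (Z : ℝ) + 5) / (2 * ((Z : ℝ) + 1) ^ 2 * (2 * (Z : ℝ) + 3) ^ 2)))
      (γ * (2 / (2 * (Z : ℝ) + 3) ^ 2))
    refine (abs_add_le _ _).trans ?_
    linarith

/-- step (iii) -/
private theorem st3 (hg : ∀ n, |g n| ≤ 1) (Z : ℕ) : |AA g (2 * Z + 1) - AA g Z| ≤ 1 := by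
  have hsub : Icc 1 Z ⊆ Icc 1 (2 * Z + 1) := Icc_subset_Icc_right (by omega)
  have e : AA g (2 * Z + 1) - AA g Z = ∑ n ∈ Icc 1 (2 * Z + 1) \ Icc 1 Z, GG g n / (n : ℝ) ^ 2 := by
    unfold AA
    rw [← sum_sdiff hsub]
    ring
  have e2 : Icc 1 (2 * Z + 1) \ Icc 1 Z = Ioc Z (2 * Z + 1) := by
    ext m
    simp only [mem_sdiff, mem_Icc, mem_Ioc]
    omega
  rw [e, e2]
  refine (abs_sum_le_sum_abs _ _).trans ?_
  have h1 : ∀ n ∈ Ioc Z (2 * Z + 1), |GG g n / (n : ℝ) ^ 2| ≤ 1 / ((Z : ℝ) + 1) := by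
    intro n hn
    rw [mem_Ioc] at hn
    have hn0 : (0 : ℝ) < n := by
      have : 0 < n := by omega
      exact_mod_cast this
    rw [abs_div, abs_of_pos (by positivity : (0 : ℝ) < (n : ℝ) ^ 2), div_le_div_iff₀ (by positivity) (by positivity)]
    have h2 := GG_abs hg n
    have h3 : (Z : ℝ) + 1 ≤ n := by exact_mod_cast hn.1
    nlinarith [abs_nonneg (GG g n)]
  refine (sum_le_sum h1).trans ?_
  rw [sum_const, Nat.card_Ioc, nsmul_eq_mul, show 2 * Z + 1 - Z = Z + 1 by omega]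
  push_cast
  rw [mul_one_div, div_self (by positivity)]

end

/-- two-point correlations vanish in logarithmic average -/
theorem null_two (k : ℕ) (hk : 1 ≤ k) : Null (fun n => lam n * lam (n + k)) := by
  set g : ℕ → ℝ := fun n => lam n * lam (n + k) with hgd
  have hg : ∀ n, |g n| ≤ 1 := fun n => by
    rw [hgd]
    simp only [abs_mul, lam_abs, mul_one, le_refl]
  have hcs : ∀ m : ℕ, 1 ≤ m → cs m k = GG g (2 * m) - GG g m := by
    intro m hm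
    unfold cs GG
    rw [← sum_Ico_consecutive g hm (by omega : m ≤ 2 * m)]
    ring
  have hmain : ∀ Z : ℕ, |LS g Z| ≤ 40 + ∑ m ∈ Icc 1 Z, |cs m k| / (m : ℝ) ^ 2 := by
    intro Z
    have e1 : ∑ m ∈ Icc 1 Z, cs m k / (m : ℝ) ^ 2 = ∑ m ∈ Icc 1 Z, GG g (2 * m) / (m : ℝ) ^ 2 - AA g Z := by
      unfold AA
      rw [← sum_sub_distrib]
      exact sum_congr rfl fun m hm => by rw [hcs m (mem_Icc.1 hm).1, sub_div]
    have h0 : |∑ m ∈ Icc 1 Z, cs m k / (m : ℝ) ^ 2| ≤ ∑ m ∈ Icc 1 Z, |cs m k| / (m : ℝ) ^ 2 := by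
      refine (abs_sum_le_sum_abs _ _).trans (sum_le_sum fun m _ => ?_)
      rw [abs_div, abs_of_nonneg (by positivity : (0 : ℝ) ≤ (m : ℝ) ^ 2)]
    have h1 := st1 hg Z
    have h2 := st2 hg Z
    have h3 := st3 hg Z
    have hZ : 0 ≤ 1 / ((Z : ℝ) + 1) := by positivity
    have hG : |GG g (Z + 1) / ((Z : ℝ) + 1)| ≤ 1 := by
      rw [abs_div, abs_of_pos (by positivity : (0 : ℝ) < (Z : ℝ) + 1), div_le_one (by positivity)]
      have := GG_abs hg (Z + 1)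
      push_cast at this
      exact this
    rw [e1] at h0
    rw [abs_le] at h0 h1 h2 h3 hG ⊢
    constructor <;> linarith [h0.1, h0.2, h1.1, h1.2, h2.1, h2.2, h3.1, h3.2, hG.1, hG.2]
  intro ε hε
  obtain ⟨Z0, h0⟩ := avg k hk (ε / 2) (by positivity)
  refine ⟨max Z0 ⌈Real.exp (40 / (ε / 2))⌉₊, fun Z hZ => ?_⟩
  have h1 := h0 Z ((le_max_left _ _).trans hZ)
  have h2 : Real.exp (40 / (ε / 2)) ≤ Z := (Nat.le_ceil _).trans (by exact_mod_cast (le_max_right _ _).trans hZ)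
  have h3 : (0 : ℝ) < Z := (Real.exp_pos _).trans_le h2
  have h4 : 40 / (ε / 2) ≤ Real.log Z := (Real.le_log_iff_exp_le h3).2 h2
  rw [div_le_iff₀ (by positivity)] at h4
  have := hmain Z
  linarith

end Pool.Agent.LSP
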