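import Pool.Agent.LSP.Cert
import Pool.Agent.LSP.Two

set_option autoImplicit false

/-!
# MP_52aa73_nt (sign patterns of Liouville's function): certificates

Relations between correlations (dilation by `p`, two-point correlations) and the soundness of
certificates.
-/

open Finset

namespace Pool.Agent.LSP

open Pool.Agent.LLO

open Classical in
/-- the sign change bit -/
noncomputable def zb (m : ℕ) : Bool := decide (lam m ≠ lam (m + 1))

/-- the sign changes from `n` -/
noncomputable def sn (n : ℕ) : ℕ → Bool := fun i => zb (n + i)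

theorem sn_succ (n : ℕ) : (fun i => sn n (i + 1)) = sn (n + 1) := by
  funext i
  show zb (n + (i + 1)) = zb (n + 1 + i)
  rw [show n + (i + 1) = n + 1 + i by ring]

theorem zb_spec (m : ℕ) : lam m * lam (m + 1) = if zb m = true then -1 else 1 := by
  unfold zb
  rcases lam_or m with h | h <;> rcases lam_or (m + 1) with h' | h' <;> rw [h, h'] <;> norm_num

theorem lam_prod (n a b : ℕ) (hab : a ≤ b) :
    lam (n + a) * lam (n + b) = ∏ i ∈ Ico a b, (if zb (n + i) = true then (-1 : ℝ) else 1) := by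
  induction b, hab using Nat.le_induction with
  | base => rw [Ico_self, prod_empty]; exact lam_sq _
  | succ b hb ih =>
    rw [prod_Ico_succ_top hb, ← ih, ← zb_spec]
    calc lam (n + a) * lam (n + (b + 1)) = lam (n + a) * (lam (n + b) * lam (n + b)) * lam (n + b + 1) := by
          rw [lam_sq, mul_one, ← add_assoc]
      _ = _ := by ring

/-- the correlation function given by a list of pairs -/
noncomputable def cc : List (ℕ × ℕ) → ℕ → ℝ
  | [], _ => 1
  | ab :: l, n => lam (n + ab.1) * lam (n + ab.2) * cc l n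

theorem cc_abs (ps : List (ℕ × ℕ)) (n : ℕ) : |cc ps n| = 1 := by
  induction ps with
  | nil => simp [cc]
  | cons ab l ih => rw [cc, abs_mul, abs_mul, lam_abs, lam_abs, ih]; norm_num

/-- the interval `[a, b)` as a mask -/
def imask (a b : ℕ) : ℕ := (2 ^ (b - a) - 1) <<< a

theorem testBit_imask (a b i : ℕ) (hab : a ≤ b) : (imask a b).testBit i = decide (a ≤ i ∧ i < b) := by
  unfold imask
  rw [Nat.testBit_shiftLeft, Nat.testBit_two_pow_sub_one, ← Bool.decide_and]
  apply decide_eq_decide.2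
  constructor
  · rintro ⟨h1, h2⟩; constructor <;> omega
  · rintro ⟨h1, h2⟩; constructor <;> omega

/-- the mask of a list of pairs -/
def mask : List (ℕ × ℕ) → ℕ
  | [] => 0
  | ab :: l => imask ab.1 ab.2 ^^^ mask l

theorem chi_xor (L S S' : ℕ) (s : ℕ → Bool) : T.chi L (S ^^^ S') s = T.chi L S s * T.chi L S' s := by
  unfold T.chi
  rw [← prod_mul_distrib]
  refine prod_congr rfl fun i _ => ?_
  rw [Nat.testBit_xor]
  cases S.testBit i <;> cases S'.testBit i <;> cases s i <;> simp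

theorem chi_imask (L a b : ℕ) (hab : a ≤ b) (hb : b ≤ L) (n : ℕ) :
    ((T.chi L (imask a b) (sn n) : ℤ) : ℝ) = lam (n + a) * lam (n + b) := by
  rw [lam_prod n a b hab]
  unfold T.chi
  push_cast
  have hsub : Ico a b ⊆ range L := fun i hi => by
    rw [mem_Ico] at hi; rw [mem_range]; omega
  rw [← prod_subset hsub]
  · refine prod_congr rfl fun i hi => ?_
    rw [mem_Ico] at hi
    rw [testBit_imask a b i hab, decide_eq_true hi, Bool.true_and]
    rfl
  · intro i _ hi
    rw [mem_Ico] at hi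
    rw [testBit_imask a b i hab, decide_eq_false hi]
    simp

theorem cc_eq (L : ℕ) (ps : List (ℕ × ℕ)) (h : ∀ ab ∈ ps, ab.1 ≤ ab.2 ∧ ab.2 ≤ L) (n : ℕ) :
    ((T.chi L (mask ps) (sn n) : ℤ) : ℝ) = cc ps n := by
  induction ps with
  | nil =>
    simp [mask, cc, T.chi]
  | cons ab l ih =>
    rw [mask, chi_xor]
    push_cast
    have h1 := h ab (by simp)
    rw [chi_imask L _ _ h1.1 h1.2, ih fun x hx => h x (by simp [hx]), cc]

/-- dilation of a list of pairs -/
def dps (p : ℕ) (ps : List (ℕ × ℕ)) : List (ℕ × ℕ) := ps.map fun ab => (p * ab.1, p * ab.2)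

theorem cc_dps (p : ℕ) (hp : 1 ≤ p) (ps : List (ℕ × ℕ)) (n : ℕ) (hn : 1 ≤ n) :
    cc (dps p ps) (p * n) = cc ps n := by
  induction ps with
  | nil => rfl
  | cons ab l ih =>
    show lam (p * n + p * ab.1) * lam (p * n + p * ab.2) * cc (dps p l) (p * n) = _
    rw [ih, cc, ← mul_add, ← mul_add, lam_mul (by omega) (by omega), lam_mul (by omega) (by omega)]
    have := lam_sq p
    calc lam p * lam (n + ab.1) * (lam p * lam (n + ab.2)) * cc l n =
          (lam p * lam p) * (lam (n + ab.1) * lam (n + ab.2) * cc l n) := by ring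
      _ = _ := by rw [this, one_mul]

/-- a dilation relation with a multiplier -/
structure Gen where
  y : ℤ
  p : ℕ
  ρ : ℕ
  ps : List (ℕ × ℕ)

/-- admissible relations -/
def Gen.ok (L M : ℕ) (g : Gen) : Bool :=
  decide (1 ≤ g.p) && decide (g.p ∣ M) && decide (g.p ∣ g.ρ) &&
    g.ps.all fun ab => decide (ab.1 ≤ ab.2) && decide (g.p * ab.2 ≤ L)

/-- the coefficient tree of a relation at the residue `r` -/
def Gen.tree (L M r : ℕ) (g : Gen) : T :=
  T.add L true (if r = g.ρ then T.sing L (mask (dps g.p g.ps)) (g.y * g.p) else T.z)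
    (if (g.p * r) % M = g.ρ then T.sing L (mask g.ps) (-g.y) else T.z)

/-- the function of the relation -/
noncomputable def Gen.fn (M : ℕ) (g : Gen) (n : ℕ) : ℝ :=
  g.y * ((if n % M = g.ρ then g.p * cc (dps g.p g.ps) n else 0) -
    (if (g.p * n) % M = g.ρ then cc g.ps n else 0))

theorem Gen.ok_iff {L M : ℕ} {g : Gen} (h : g.ok L M = true) :
    1 ≤ g.p ∧ g.p ∣ M ∧ g.p ∣ g.ρ ∧ ∀ ab ∈ g.ps, ab.1 ≤ ab.2 ∧ g.p * ab.2 ≤ L := by
  simp only [Gen.ok, Bool.and_eq_true, decide_eq_true_eq, List.all_eq_true] at h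
  obtain ⟨⟨⟨h1, h2⟩, h3⟩, h4⟩ := h
  exact ⟨h1, h2, h3, h4⟩

theorem Gen.null {L M : ℕ} {g : Gen} (h : g.ok L M = true) : Null (g.fn M) := by
  obtain ⟨h1, h2, h3, -⟩ := Gen.ok_iff h
  set f : ℕ → ℝ := fun n => if n % M = g.ρ then cc (dps g.p g.ps) n else 0 with hf
  have hfb : ∀ n, |f n| ≤ 1 := by
    intro n
    rw [hf]
    dsimp only
    split_ifs
    · rw [cc_abs]
    · simp
  have h4 := (null_dil hfb g.p h1).mul (g.y : ℝ)
  refine h4.congr fun n hn => ?_
  unfold Gen.fn
  congr 1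
  rw [hf]
  dsimp only
  congr 1
  · by_cases hr : n % M = g.ρ
    · rw [if_pos hr, if_pos hr, if_pos]
      have : g.p ∣ n % M := by rw [hr]; exact h3
      exact (Nat.dvd_mod_iff h2).1 this
    · rw [if_neg hr, if_neg hr]
      simp
  · rw [cc_dps g.p h1 g.ps n hn]

theorem Gen.tree_eq {L M : ℕ} {g : Gen} (h : g.ok L M = true) (n : ℕ) :
    ((T.pv L (g.tree L M (n % M)) (sn n) : ℤ) : ℝ) = g.fn M n := by
  obtain ⟨h1, h2, h3, h4⟩ := Gen.ok_iff h
  have e1 : ∀ ab ∈ g.ps, ab.1 ≤ ab.2 ∧ ab.2 ≤ L := fun ab hab =>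
    ⟨(h4 ab hab).1, (Nat.le_mul_of_pos_left _ h1).trans (h4 ab hab).2⟩
  have e2 : ∀ ab ∈ dps g.p g.ps, ab.1 ≤ ab.2 ∧ ab.2 ≤ L := by
    intro ab hab
    unfold dps at hab
    rw [List.mem_map] at hab
    obtain ⟨cd, hcd, rfl⟩ := hab
    exact ⟨Nat.mul_le_mul_left _ (h4 cd hcd).1, (h4 cd hcd).2⟩
  unfold Gen.tree Gen.fn
  rw [T.pv_add, Nat.mul_mod_mod]
  have a1 : ((T.pv L (if n % M = g.ρ then T.sing L (mask (dps g.p g.ps)) (g.y * g.p) else T.z) (sn n) : ℤ) : ℝ) =
      g.y * (if n % M = g.ρ then g.p * cc (dps g.p g.ps) n else 0) := by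
    split_ifs
    · rw [T.pv_sing]
      push_cast
      rw [cc_eq L _ e2]
      ring
    · rw [T.pv_z]; simp
  have a2 : ((T.pv L (if (g.p * n) % M = g.ρ then T.sing L (mask g.ps) (-g.y) else T.z) (sn n) : ℤ) : ℝ) =
      -(g.y * (if (g.p * n) % M = g.ρ then cc g.ps n else 0)) := by
    split_ifs
    · rw [T.pv_sing]
      push_cast
      rw [cc_eq L _ e1]
      ring
    · rw [T.pv_z]; simp
  rw [if_pos rfl]
  push_cast
  rw [a1, a2]
  ring

/-- the coefficient tree of a list of two-point correlations -/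
def tsT (L : ℕ) : List (ℤ × ℕ) → T
  | [] => T.z
  | tk :: l => T.add L true (T.sing L (imask 0 tk.2) tk.1) (tsT L l)

/-- the coefficient tree of a list of relations and of two-point correlations -/
def total (L M : ℕ) (ts : List (ℤ × ℕ)) (r : ℕ) : List Gen → T
  | [] => tsT L ts
  | g :: l => T.add L true (g.tree L M r) (total L M ts r l)

theorem tsT_null {L : ℕ} (ts : List (ℤ × ℕ)) (ht : ∀ tk ∈ ts, 1 ≤ tk.2 ∧ tk.2 ≤ L) :
    Null (fun n => ((T.pv L (tsT L ts) (sn n) : ℤ) : ℝ)) := by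
  induction ts with
  | nil =>
    refine null_zero.congr fun n _ => ?_
    rw [tsT, T.pv_z, Int.cast_zero]
  | cons tk ts ih =>
    have h1 := ht tk (by simp)
    refine (((null_two tk.2 h1.1).mul (tk.1 : ℝ)).add (ih fun x hx => ht x (by simp [hx]))).congr
      fun n _ => ?_
    rw [tsT, T.pv_add, T.pv_sing, if_pos rfl]
    push_cast
    rw [chi_imask L 0 tk.2 (Nat.zero_le _) h1.2, add_zero]

theorem total_null {L M : ℕ} (gs : List Gen) (ts : List (ℤ × ℕ)) (hg : ∀ g ∈ gs, g.ok L M = true)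
    (ht : ∀ tk ∈ ts, 1 ≤ tk.2 ∧ tk.2 ≤ L) :
    Null (fun n => ((T.pv L (total L M ts (n % M) gs) (sn n) : ℤ) : ℝ)) := by
  induction gs with
  | nil => exact tsT_null ts ht
  | cons g gs ih =>
    have h1 := hg g (by simp)
    refine ((Gen.null h1).add (ih fun x hx => hg x (by simp [hx]))).congr fun n _ => ?_
    rw [total, T.pv_add, if_pos rfl]
    push_cast
    rw [Gen.tree_eq h1]

/-- the cost tree: the leaves at the addresses in `f` are `1` -/
def ct (f : ℕ → Bool) : ℕ → ℕ → T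
  | 0, b => T.leaf (if f b then 1 else 0)
  | k + 1, b => T.node (ct f k b) (ct f k (b + 2 ^ k))

/-- the address of the first `k` signs -/
def cod : ℕ → (ℕ → Bool) → ℕ
  | 0, _ => 0
  | k + 1, s => cod k s + (if s k then 2 ^ k else 0)

theorem get_ct (f : ℕ → Bool) (k b : ℕ) (s : ℕ → Bool) :
    T.get k (ct f k b) s = if f (b + cod k s) then 1 else 0 := by
  induction k generalizing b with
  | zero => rfl
  | succ k ih =>
    show (if s k then T.get k (ct f k (b + 2 ^ k)) s else T.get k (ct f k b) s) = _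
    cases hs : s k
    · simp [ih, cod, hs]
    · simp [ih, cod, hs, add_comm (cod k s), add_assoc]

/-- a certificate: window of `k + 2` sign changes, residues mod `M`; the potentials are packed in
numbers with digits of `w` bits -/
structure Cer where
  k : ℕ
  M : ℕ
  D : ℤ
  K : ℤ
  gs : List Gen
  ts : List (ℤ × ℕ)
  w : ℕ
  P : List ℕ

/-- admissibility of a certificate -/
def Cer.base (c : Cer) : Bool :=
  decide (3 ≤ c.k) && decide (0 < c.M) && decide (0 < c.D) && decide (0 < c.K) &&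
  (c.gs.all fun g => g.ok (c.k + 2) c.M) &&
  (c.ts.all fun tk => decide (1 ≤ tk.2) && decide (tk.2 ≤ c.k + 2))

/-- the check of a certificate at the residue `r` -/
def Cer.chkR (c : Cer) (f : ℕ → Bool) (r : ℕ) : Bool :=
  T.chkT c.K c.D c.k (total (c.k + 2) c.M c.ts r c.gs) (T.mk c.w (c.k + 1) (c.P.getD r 0))
    (T.mk c.w (c.k + 1) (c.P.getD ((r + 1) % c.M) 0)) (ct f 4 0)

/-- the check of a certificate for the cost function `f` -/
def Cer.chk (c : Cer) (f : ℕ → Bool) : Bool := c.base && (List.range c.M).all fun r => c.chkR f r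

theorem Cer.chk_of {c : Cer} {f : ℕ → Bool} (hb : c.base = true) (h : ∀ r < c.M, c.chkR f r = true) :
    c.chk f = true := by
  rw [Cer.chk, hb, Bool.true_and, List.all_eq_true]
  intro r hr
  exact h r (List.mem_range.1 hr)

/-- the set `{n : cod 4 (sn n) ∈ f}` has positive lower logarithmic density -/
theorem Cer.sound (c : Cer) (f : ℕ → Bool) (h : c.chk f = true) (δ : ℝ) (hδ : δ * c.D < c.K) :
    ∃ Z0 : ℕ, ∀ Z : ℕ, Z0 ≤ Z →
      δ * Real.log Z ≤ LS (fun n => if f (cod 4 (sn n)) = true then 1 else 0) Z := by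
  simp only [Cer.chk, Cer.base, Bool.and_eq_true, decide_eq_true_eq, List.all_eq_true,
    List.mem_range] at h
  obtain ⟨⟨⟨⟨⟨⟨hk, hM⟩, hD⟩, hK⟩, hg⟩, ht⟩, hc⟩ := h
  set L := c.k + 2 with hL
  set pot : ℕ → ℝ := fun n => ((T.get (c.k + 1) (T.mk c.w (c.k + 1) (c.P.getD (n % c.M) 0)) (sn n) : ℤ) : ℝ)
    with hpot
  -- the potential is bounded
  have hB : ∃ B : ℝ, ∀ n, |pot n| ≤ B := by
    have h1 : ∀ r : ℕ, ∃ B : ℤ, ∀ s, |T.get (c.k + 1) (T.mk c.w (c.k + 1) (c.P.getD r 0)) s| ≤ B :=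
      fun r => T.get_bdd _ _
    choose B hB using h1
    refine ⟨∑ r ∈ range c.M, |(B r : ℝ)|, fun n => ?_⟩
    have h2 := hB (n % c.M) (sn n)
    have h3 : |pot n| ≤ (B (n % c.M) : ℝ) := by
      rw [hpot]
      dsimp only
      rw [← Int.cast_abs]
      exact_mod_cast h2
    refine (h3.trans (le_abs_self _)).trans ?_
    exact single_le_sum (f := fun r => |(B r : ℝ)|) (fun _ _ => abs_nonneg _)
      (mem_range.2 (Nat.mod_lt _ hM))
  obtain ⟨B, hB⟩ := hB
  set V : ℕ → ℝ := fun n => ((T.pv L (total L c.M c.ts (n % c.M) c.gs) (sn n) : ℤ) : ℝ) with hV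
  have hVn : Null V := total_null c.gs c.ts hg ht
  have hS : Null (fun n => pot (n + 1) - pot n) := null_shift hB
  -- pointwise inequality
  have hpt : ∀ n : ℕ, (c.K : ℝ) + ((pot (n + 1) - pot n) + V n) ≤
      c.D * (if f (cod 4 (sn n)) = true then 1 else 0) := by
    intro n
    have h1 := T.chkT_sound c.K c.D c.k hk _ _ _ _ (hc (n % c.M) (Nat.mod_lt _ hM)) (sn n)
    rw [sn_succ, get_ct, zero_add, Nat.mod_add_mod] at h1
    have h2 : ((c.K + T.get (c.k + 1) (T.mk c.w (c.k + 1) (c.P.getD ((n + 1) % c.M) 0)) (sn (n + 1)) +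
        T.pv (c.k + 2) (total (c.k + 2) c.M c.ts (n % c.M) c.gs) (sn n) : ℤ) : ℝ) ≤
        ((c.D * (if f (cod 4 (sn n)) = true then 1 else 0) +
          T.get (c.k + 1) (T.mk c.w (c.k + 1) (c.P.getD (n % c.M) 0)) (sn n) : ℤ) : ℝ) := by
      exact_mod_cast h1
    push_cast at h2
    rw [hpot, hV]
    dsimp only
    linarith
  have hN : Null (fun n => (pot (n + 1) - pot n) + V n) := hS.add hVn
  have hDr : (0 : ℝ) < c.D := by exact_mod_cast hD
  obtain ⟨Z0, hZ0⟩ := hN (c.K - δ * c.D) (by linarith)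
  refine ⟨Z0, fun Z hZ => ?_⟩
  have h1 := hZ0 Z hZ
  have h2 := LS_mono (f := fun n => (c.K : ℝ) * 1 + ((pot (n + 1) - pot n) + V n))
    (g := fun n => (c.D : ℝ) * (if f (cod 4 (sn n)) = true then 1 else 0))
    (fun n _ => by have := hpt n; linarith) Z
  rw [LS_add (fun n => (c.K : ℝ) * 1), LS_mul, LS_mul] at h2
  have h3 := log_le_LS Z
  have h4 : (c.K : ℝ) * Real.log Z ≤ c.K * LS (fun _ => 1) Z :=
    mul_le_mul_of_nonneg_left h3 (by exact_mod_cast hK.le)
  have h5 : -((c.K - δ * c.D) * Real.log Z) ≤ LS (fun n => (pot (n + 1) - pot n) + V n) Z := (abs_le.1 h1).1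
  have h6 : δ * c.D * Real.log Z ≤ c.D * LS (fun n => if f (cod 4 (sn n)) = true then 1 else 0) Z := by
    linarith
  have h7 : c.D * (δ * Real.log Z) ≤ c.D * LS (fun n => if f (cod 4 (sn n)) = true then 1 else 0) Z := by
    linarith
  exact le_of_mul_le_mul_left h7 hDr

end Pool.Agent.LSP
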