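import Pool.Agent.LSP.Defs

/-!
# LSP module Helly (size 3)

Helly's theorem for open connected subsets of a simply connected 1-manifold.
-/

open Set Topology Filter

namespace Pool.Agent.LSP

open Pool.Agent.H86.Bifol

variable {Y : Type*} [TopologicalSpace Y] [SCM Y]

/-- PROOF. Suppose not. `W := A ∩ B` is open and preconnected (`isPreconnected_inter`, Side.lean);
take `y ∈ W` and `g ∈ A ∩ C`; `g ∉ W`. `exit` (A, W, g, y) gives `p ∈ A`, `p ∈ closure W`, `p ∉ W` (so
`p ∉ B`), `p = g ∨ y ∉ side p g`.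
Then `p ∈ C`: if `p = g` clear. If `p ≠ g`: `B` is connected, avoids `p`, contains `y`, so
`B ⊆ side p y`. Take `b ∈ B ∩ C`. `C` contains `g` and `b`; if `p ∉ C` then `C ⊆ side p g`
(`subset_side`), so `b ∈ side p g` and `b ∈ side p y`, hence `y ∈ side p g` (`mem_side_trans`,
`mem_side_symm`): contradiction. So `p ∈ C`. `C` is open and `p ∈ closure W`, so `C` meets `W`. -/
theorem helly3 {A B C : Set Y} (oA : IsOpen A) (pA : IsPreconnected A) (oB : IsOpen B)
    (pB : IsPreconnected B) (oC : IsOpen C) (pC : IsPreconnected C) (hAB : (A ∩ B).Nonempty)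
    (hAC : (A ∩ C).Nonempty) (hBC : (B ∩ C).Nonempty) : (A ∩ B ∩ C).Nonempty := by
  by_contra hne
  obtain ⟨y, hy⟩ := hAB
  obtain ⟨g, hgA, hgC⟩ := hAC
  obtain ⟨b, hbB, hbC⟩ := hBC
  have hgW : g ∉ A ∩ B := fun h => hne ⟨g, h, hgC⟩
  obtain ⟨p, hpA, hpcl, hpW, hor⟩ := exit pA oA (isPreconnected_inter pA oA pB oB) (oA.inter oB)
    inter_subset_left hgA hgW hy
  have hpB : p ∉ B := fun h => hpW ⟨hpA, h⟩
  have hpC : p ∈ C := by
    rcases hor with h | h
    · rw [h]; exact hgC
    · by_contra hpC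
      have h1 : b ∈ side p y := subset_side pB hpB hy.2 hbB
      have h2 : b ∈ side p g := subset_side pC hpC hgC hbC
      exact h (mem_side_trans (mem_side_symm h1) h2)
  obtain ⟨z, hzC, hzW⟩ := mem_closure_iff.1 hpcl C oC hpC
  exact hne ⟨z, hzW, hzC⟩

/-- PROOF. Induction over the finset (`Finset.Nonempty.cons_induction` or strong induction on the
card), generalizing `A`: for the set `insert j s` replace `A i` (`i ∈ s`) by `A i ∩ A j`: they are
open, preconnected (`isPreconnected_inter`), and pairwise meeting by `helly3`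
(`(A i ∩ A j) ∩ (A k ∩ A j) ⊇ A i ∩ A k ∩ A j`). -/
theorem helly {ι : Type*} (s : Finset ι) (hs : s.Nonempty) (A : ι → Set Y)
    (ho : ∀ i ∈ s, IsOpen (A i)) (hp : ∀ i ∈ s, IsPreconnected (A i))
    (hm : ∀ i ∈ s, ∀ j ∈ s, (A i ∩ A j).Nonempty) : ∃ y, ∀ i ∈ s, y ∈ A i := by
  induction hs using Finset.Nonempty.cons_induction generalizing A with
  | singleton a =>
    obtain ⟨y, hy⟩ := hm a (Finset.mem_singleton_self a) a (Finset.mem_singleton_self a)
    refine ⟨y, fun i hi => ?_⟩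
    rw [Finset.mem_singleton] at hi
    rw [hi]
    exact hy.1
  | cons a s h hs ih =>
    have ha : a ∈ Finset.cons a s h := Finset.mem_cons_self a s
    have hi : ∀ i ∈ s, i ∈ Finset.cons a s h := fun i hi => Finset.mem_cons_of_mem hi
    obtain ⟨y, hy⟩ := ih (fun i => A i ∩ A a)
      (fun i his => (ho i (hi i his)).inter (ho a ha))
      (fun i his => isPreconnected_inter (hp i (hi i his)) (ho i (hi i his)) (hp a ha) (ho a ha))
      (fun i his j hjs => by
        obtain ⟨z, hz⟩ := helly3 (ho i (hi i his)) (hp i (hi i his)) (ho j (hi j hjs)) (hp j (hi j hjs)) (ho a ha) (hp a ha)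
          (hm i (hi i his) j (hi j hjs)) (hm i (hi i his) a ha) (hm j (hi j hjs) a ha)
        exact ⟨z, ⟨hz.1.1, hz.2⟩, ⟨hz.1.2, hz.2⟩⟩)
    obtain ⟨b, hb⟩ := hs
    refine ⟨y, fun i his => ?_⟩
    rcases Finset.mem_cons.1 his with h1 | h1
    · rw [h1]; exact (hy b hb).2
    · exact (hy i h1).1

end Pool.Agent.LSP
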