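import Pool.Agent.LSP.Plane0

/-!
# The homeomorphism between the total space and the plane
-/

open Set Topology Filter

namespace Pool.Agent.LSP.F0

open Pool.Agent.H86.Bifol

set_option linter.unusedSectionVars false
set_option linter.unusedVariables false

variable {X : Type*} [TopologicalSpace X] [SCM X]

section phi

variable {F : Fam X} {o : Orientation X} (B : ℕ → Box F o)

/-- The coordinates on the total space. -/
noncomputable def Φ (p : F.Ω) : ℝ × ℝ := (p.1.2, height B p.1 / mass B p.1.2)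

variable {B} (hB : ∀ p ∈ F.Ω, ∃ j, p.1 ∈ (B j).e.symm '' Ioo (B j).α (B j).β ∧
      p.2 ∈ Ioo (B j).a (B j).b)

include hB

theorem mass_pos' (p : F.Ω) : 0 < mass B p.1.2 := mass_pos hB ⟨p.1.1, p.2⟩

theorem continuous_Φ : Continuous (Φ B) := by
  refine (continuous_snd.comp continuous_subtype_val).prodMk ?_
  refine Continuous.div ?_ ?_ ?_
  · exact continuousOn_iff_continuous_domRestrict.1 (continuousOn_height B)
  · exact (continuous_mass B).comp (continuous_snd.comp continuous_subtype_val)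
  · intro p
    exact (mass_pos' hB p).ne'

theorem injective_Φ : Function.Injective (Φ B) := by
  rintro ⟨⟨l, x⟩, hl⟩ ⟨⟨k, y⟩, hk⟩ h
  simp only [Φ, Prod.mk.injEq] at h
  obtain ⟨rfl, h2⟩ := h
  have hm : mass B x ≠ 0 := (mass_pos hB ⟨l, hl⟩).ne'
  have h3 : height B (l, x) = height B (k, x) := by
    have := congrArg (· * mass B x) h2
    simpa [div_mul_cancel₀ _ hm] using this
  have h4 : l = k := by
    by_contra hne
    rcases o.up_or_dn (Ne.symm hne) with h | h
    · exact (height_lt hB hl hk h).ne h3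
    · have h5 : l ∈ o.up k := ((F.isLine hl).mem_up_iff o hk hl).2 h
      exact (height_lt hB hk hl h5).ne' h3
  subst h4
  rfl

theorem isOpenMap_Φ : IsOpenMap (Φ B) := by
  intro W hW
  obtain ⟨W', hW', rfl⟩ := isOpen_induced_iff.1 hW
  rw [isOpen_iff_mem_nhds]
  rintro _ ⟨⟨⟨l, x₀⟩, hl⟩, hlW, rfl⟩
  obtain ⟨C, hC1, hC2, hC3⟩ := exists_box F o (W := W' ∩ F.Ω) (hW'.inter F.isOpen)
    inter_subset_right (p := (l, x₀)) ⟨hlW, hl⟩
  obtain ⟨c₀, hc₀, rfl⟩ := hC1
  have hαI : C.α ∈ Icc C.α C.β := left_mem_Icc.2 C.hαβ.le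
  have hβI : C.β ∈ Icc C.α C.β := right_mem_Icc.2 C.hαβ.le
  -- the heights of the ends of the segment
  have hcont : ∀ c ∈ Icc C.α C.β,
      ContinuousAt (fun x => height B (C.e.symm c, x) / mass B x) x₀ := by
    intro c hc
    have h1 : (C.e.symm c, x₀) ∈ F.Ω := (hC3 c hc x₀ hC2).2
    have h2 : ContinuousAt (height B) (C.e.symm c, x₀) :=
      (continuousOn_height B).continuousAt (F.isOpen.mem_nhds h1)
    have h3 : ContinuousAt (fun x : ℝ => (C.e.symm c, x)) x₀ := by fun_prop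
    have h4 : ContinuousAt (fun x => height B (C.e.symm c, x)) x₀ :=
      ContinuousAt.comp (f := fun x : ℝ => (C.e.symm c, x)) (g := height B) h2 h3
    exact h4.div (continuous_mass B).continuousAt (mass_pos hB ⟨_, h1⟩).ne'
  have hm : 0 < mass B x₀ := mass_pos hB ⟨_, hl⟩
  have hup : ∀ c d, c < d → C.e.symm d ∈ o.up (C.e.symm c) := by
    intro c d hcd
    rw [C.pos.up_eq _ (symm_mem C.pos.tar c), mem_upS_iff (symm_mem C.pos.tar c) C.pos.tar
      (symm_mem C.pos.tar d), apply_symm C.pos.tar, apply_symm C.pos.tar]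
    exact hcd
  set t₀ := height B (C.e.symm c₀, x₀) / mass B x₀ with ht₀
  have hlow : height B (C.e.symm C.α, x₀) / mass B x₀ < t₀ :=
    div_lt_div_of_pos_right (height_lt hB (hC3 _ hαI x₀ hC2).2 hl (hup _ _ hc₀.1)) hm
  have hhigh : t₀ < height B (C.e.symm C.β, x₀) / mass B x₀ :=
    div_lt_div_of_pos_right (height_lt hB hl (hC3 _ hβI x₀ hC2).2 (hup _ _ hc₀.2)) hm
  have hΦ : Φ B ⟨(C.e.symm c₀, x₀), hl⟩ = (x₀, t₀) := rfl
  rw [hΦ]
  have e1 : ∀ᶠ q : ℝ × ℝ in 𝓝 (x₀, t₀), q.1 ∈ Ioo C.a C.b :=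
    continuousAt_fst.eventually (Ioo_mem_nhds hC2.1 hC2.2)
  have e2 : ∀ᶠ q : ℝ × ℝ in 𝓝 (x₀, t₀),
      height B (C.e.symm C.α, q.1) / mass B q.1 < q.2 := by
    have h1 : ContinuousAt (fun q : ℝ × ℝ => height B (C.e.symm C.α, q.1) / mass B q.1)
        (x₀, t₀) :=
      ContinuousAt.comp (f := fun q : ℝ × ℝ => q.1)
        (g := fun x => height B (C.e.symm C.α, x) / mass B x) (hcont _ hαI) continuousAt_fst
    exact h1.eventually_lt continuousAt_snd hlow
  have e3 : ∀ᶠ q : ℝ × ℝ in 𝓝 (x₀, t₀),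
      q.2 < height B (C.e.symm C.β, q.1) / mass B q.1 := by
    have h1 : ContinuousAt (fun q : ℝ × ℝ => height B (C.e.symm C.β, q.1) / mass B q.1)
        (x₀, t₀) :=
      ContinuousAt.comp (f := fun q : ℝ × ℝ => q.1)
        (g := fun x => height B (C.e.symm C.β, x) / mass B x) (hcont _ hβI) continuousAt_fst
    exact continuousAt_snd.eventually_lt h1 hhigh
  filter_upwards [e1, e2, e3] with q h1 h2 h3
  obtain ⟨x, t⟩ := q
  have hsegc : ContinuousOn (fun c => height B (C.e.symm c, x) / mass B x) (Icc C.α C.β) := by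
    refine ContinuousOn.div_const ?_ _
    refine (continuousOn_height B).comp (f := fun c => (C.e.symm c, x)) ?_ ?_
    · refine ContinuousOn.prodMk (C.e.continuousOn_symm.mono ?_) continuousOn_const
      rw [C.pos.tar]; exact subset_univ _
    · intro c hc
      exact (hC3 c hc x h1).2
  obtain ⟨c, hc, hct⟩ := intermediate_value_Icc C.hαβ.le hsegc ⟨h2.le, h3.le⟩
  refine ⟨⟨(C.e.symm c, x), (hC3 c hc x h1).2⟩, (hC3 c hc x h1).1, ?_⟩
  exact Prod.ext rfl hct

theorem isOpenEmbedding_Φ : IsOpenEmbedding (Φ B) :=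
  .of_continuous_injective_isOpenMap (continuous_Φ hB) (injective_Φ hB) (isOpenMap_Φ hB)

theorem range_Φ : range (Φ B) = {x | (F.U x).Nonempty} ×ˢ Ioo (-1 : ℝ) 1 := by
  ext ⟨x, t⟩
  constructor
  · rintro ⟨⟨⟨l, y⟩, hl⟩, h⟩
    simp only [Φ, Prod.mk.injEq] at h
    obtain ⟨rfl, rfl⟩ := h
    have hm := mass_pos hB ⟨l, hl⟩
    refine ⟨⟨l, hl⟩, ?_, ?_⟩
    · change -1 < height B (l, y) / mass B y
      rw [lt_div_iff₀ hm]
      have := neg_mass_lt_height hB hl
      linarith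
    · change height B (l, y) / mass B y < 1
      rw [div_lt_one hm]
      exact height_lt_mass hB hl
  · rintro ⟨hx, ht⟩
    have hx' : (F.U x).Nonempty := hx
    have ht' : t ∈ Ioo (-1 : ℝ) 1 := ht
    have hm := mass_pos hB hx'
    obtain ⟨l, hl, hlt⟩ := exists_height_gt (B := B) hx' (t := t * mass B x) (by
      have := mul_lt_mul_of_pos_right ht'.2 hm
      linarith)
    obtain ⟨k, hk, hkt⟩ := exists_height_lt (B := B) hx' (t := t * mass B x) (by
      have := mul_lt_mul_of_pos_right ht'.1 hm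
      linarith)
    have hc : ContinuousOn (fun l => height B (l, x)) (F.U x) := by
      refine (continuousOn_height B).comp (f := fun l => (l, x)) (by fun_prop) ?_
      intro l hl; exact hl
    obtain ⟨n, hn, hnt⟩ := (F.pre x).intermediate_value hk hl hc ⟨hkt.le, hlt.le⟩
    refine ⟨⟨(n, x), hn⟩, Prod.ext rfl ?_⟩
    change height B (n, x) / mass B x = t
    have hnt' : height B (n, x) = t * mass B x := hnt
    rw [hnt', mul_div_cancel_right₀ _ hm.ne']

end phi

theorem isOpen_base (F : Fam X) : IsOpen {x | (F.U x).Nonempty} := by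
  have h := isOpenMap_snd _ F.isOpen
  have h2 : Prod.snd '' {p : X × ℝ | p.1 ∈ F.U p.2} = {x | (F.U x).Nonempty} := by
    ext x
    constructor
    · rintro ⟨⟨l, y⟩, hl, rfl⟩
      exact ⟨l, hl⟩
    · rintro ⟨l, hl⟩
      exact ⟨(l, x), hl, rfl⟩
  rwa [h2] at h

theorem isPreconnected_fibre (F : Fam X) (l : X) :
    IsPreconnected {p : F.Ω | p.1.1 = l} := by
  have h1 : IsPreconnected {x | l ∈ F.U x} := (F.ordC l).isPreconnected
  have h2 : PreconnectedSpace {x | l ∈ F.U x} := Subtype.preconnectedSpace h1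
  have h3 : {p : F.Ω | p.1.1 = l} =
      range (fun x : {x | l ∈ F.U x} => (⟨(l, x.1), x.2⟩ : F.Ω)) := by
    ext p
    constructor
    · rintro rfl
      exact ⟨⟨p.1.2, p.2⟩, rfl⟩
    · rintro ⟨x, rfl⟩
      rfl
  rw [h3]
  exact isPreconnected_range (by fun_prop)

/-- The standard embedding of the line with image `(-1,1)`. -/
noncomputable def κ (t : ℝ) : ℝ := (orderIsoIooNegOneOne ℝ t : ℝ)

theorem isOpenEmbedding_κ : IsOpenEmbedding κ := by
  have h1 : IsOpenEmbedding (Subtype.val : Ioo (-1 : ℝ) 1 → ℝ) := isOpen_Ioo.isOpenEmbedding_subtypeVal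
  exact h1.comp (orderIsoIooNegOneOne ℝ).toHomeomorph.isOpenEmbedding

theorem range_κ : range κ = Ioo (-1 : ℝ) 1 := by
  ext x
  constructor
  · rintro ⟨t, rfl⟩
    exact (orderIsoIooNegOneOne ℝ t).2
  · intro hx
    exact ⟨(orderIsoIooNegOneOne ℝ).symm ⟨x, hx⟩, by simp [κ]⟩

/-- **The total space is a strip.** -/
theorem exists_homeo (F : Fam X) [SecondCountableTopology X]
    (hne : ∀ x ∈ Ioo (-1 : ℝ) 1, (F.U x).Nonempty) :
    ∃ Ψ : ℝ × ℝ ≃ₜ F.Ω, ∀ q, (Ψ q).1.2 = κ q.1 := by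
  obtain ⟨up, hup⟩ := exists_orientation X
  obtain ⟨l, hl⟩ := hne 0 ⟨by norm_num, by norm_num⟩
  obtain ⟨B, hB⟩ := exists_boxes F ⟨up, hup⟩ ⟨(l, 0), hl⟩
  have hbase : {x | (F.U x).Nonempty} = Ioo (-1 : ℝ) 1 := by
    ext x
    exact ⟨fun h => F.bdd x h, fun h => hne x h⟩
  have h1 := isOpenEmbedding_Φ hB
  have h2 : IsOpenEmbedding (Prod.map κ κ) := isOpenEmbedding_κ.prodMap isOpenEmbedding_κ
  have h3 : range (Prod.map κ κ) = range (Φ B) := by
    rw [range_Φ hB, hbase, range_prodMap, range_κ]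
  refine ⟨h2.isEmbedding.toHomeomorph.trans
    ((Homeomorph.setCongr h3).trans h1.isEmbedding.toHomeomorph.symm), fun q => ?_⟩
  set p := (h2.isEmbedding.toHomeomorph.trans
    ((Homeomorph.setCongr h3).trans h1.isEmbedding.toHomeomorph.symm)) q with hp
  have h4 : h1.isEmbedding.toHomeomorph p =
      (Homeomorph.setCongr h3) (h2.isEmbedding.toHomeomorph q) := by
    rw [hp]
    simp
  have h5 := congrArg (fun z => z.1.1) h4
  exact h5

end Pool.Agent.LSP.F0
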