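import Pool.Agent.LSP.Defs

open Set Topology Filter

namespace Pool.Agent.LSP

open Pool.Agent.H86.Bifol

variable {Y : Type*} [TopologicalSpace Y]

/-- The hull: the intersection of the half-spaces which contain `A`. -/
def Qh (A : Set Y) : Set Y := {q | ∀ H, IsHalfSpace H → A ⊆ H → q ∈ H}

theorem mem_Qh_of_sep {A : Set Y} {y₁ y₂ p : Y} (h₁ : y₁ ∈ A) (h₂ : y₂ ∈ A)
    (hp : y₁ ∉ side p y₂) : p ∈ Qh A := by
  intro H hH hA
  by_contra hpH
  exact hp (subset_side (isPreconnected_of_halfSpace hH) hpH (hA h₂) (hA h₁))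

theorem interior_aux [SCM Y] {A C : Set Y} {y₁ y₂ p : Y} (h₁ : y₁ ∈ A) (h₂ : y₂ ∈ A)
    (hQ : ∀ a ∈ Qh A, ∀ b ∈ Qh A, NonSeparated a b → a = b)
    (hC : IsPreconnected C) (hCQ : C ⊆ Qh A) (hyC : y₁ ∈ C) (hpC : p ∉ C) (hcl : p ∈ closure C)
    {e : OpenPartialHomeomorph Y ℝ} (hpe : p ∈ e.source) (he : e.target = univ)
    (hy1 : y₁ ∈ dnS e p) (hy2 : y₂ ∈ upS e p) (hpQ : p ∈ Qh A) : p ∈ interior (Qh A) := by
  have hmem : ∀ c, e.symm c ∈ e.source := fun c => symm_mem he c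
  have hnest : ∀ c c', c ≤ c' → upS e (e.symm c') ⊆ upS e (e.symm c) := by
    intro c c' hcc
    refine upS_subset he (hmem c) (hmem c') ?_
    rw [apply_symm he, apply_symm he]
    exact hcc
  have hnestp : ∀ c, e p ≤ c → upS e (e.symm c) ⊆ upS e p := by
    intro c hc
    refine upS_subset he hpe (hmem c) ?_
    rw [apply_symm he]
    exact hc
  have hup : ∀ c c', c < c' → e.symm c' ∈ upS e (e.symm c) := by
    intro c c' hcc
    rw [mem_upS_iff (hmem c) he (hmem c'), apply_symm he, apply_symm he]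
    exact hcc
  -- points just below `p`
  have hs1 : side p y₁ = dnS e p := (side_eq hy1).symm
  have hg := germ hC hpC hcl hyC
  rw [hs1, mem_nhdsWithin] at hg
  obtain ⟨O, hO, hpO, hOC⟩ := hg
  obtain ⟨a, hap, hlow⟩ : ∃ a < e p, ∀ c ∈ Ioo a (e p), e.symm c ∈ Qh A := by
    have h1 : e.symm ⁻¹' O ∈ 𝓝 (e p) := by
      have := e.continuousAt_symm (e.map_source hpe)
      rw [ContinuousAt, e.left_inv hpe] at this
      exact this (hO.mem_nhds hpO)
    obtain ⟨a, b, hab, hab'⟩ := mem_nhds_iff_exists_Ioo_subset.1 h1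
    refine ⟨a, hab.1, fun c hc => hCQ (hOC ⟨hab' ⟨hc.1, hc.2.trans hab.2⟩, ?_⟩)⟩
    exact symm_mem_dnS hpe he hc.2
  by_cases hcase : ∃ c₀, e p < c₀ ∧ y₂ ∈ upS e (e.symm c₀)
  · obtain ⟨c₀, hc₀, hy⟩ := hcase
    have hhigh : ∀ c ∈ Ioc (e p) c₀, e.symm c ∈ Qh A := by
      intro c hc
      refine mem_Qh_of_sep h₁ h₂ fun h => ?_
      have h3 : y₁ ∈ upS e (e.symm c) := mem_side_trans h (hnest _ _ hc.2 hy)
      exact Set.disjoint_left.1 (disjoint_upS_dnS hpe he) (hnestp c hc.1.le h3) hy1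
    rw [mem_interior]
    refine ⟨e.symm '' Ioo a c₀, ?_, isOpen_symm_image he isOpen_Ioo,
      ⟨e p, ⟨hap, hc₀⟩, e.left_inv hpe⟩⟩
    rintro _ ⟨c, hc, rfl⟩
    rcases lt_trichotomy c (e p) with h | h | h
    · exact hlow c ⟨hc.1, h⟩
    · rw [h, e.left_inv hpe]
      exact hpQ
    · exact hhigh c ⟨h, hc.2.le⟩
  exfalso
  push Not at hcase
  set R : Set Y := ⋃ c ∈ Ioi (e p), upS e (e.symm c) with hR
  have hRmem : ∀ x, x ∈ R ↔ ∃ c, e p < c ∧ x ∈ upS e (e.symm c) := by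
    intro x
    simp [hR]
  have hRo : IsOpen R := isOpen_biUnion fun c _ => isOpen_side
  have hRp : IsPreconnected R := by
    refine isPreconnected_of_forall_pair ?_
    intro x hx x' hx'
    obtain ⟨c, hc, hxc⟩ := (hRmem x).1 hx
    obtain ⟨c', hc', hxc'⟩ := (hRmem x').1 hx'
    have hm : e p < min c c' := lt_min hc hc'
    refine ⟨upS e (e.symm (min c c')), fun z hz => (hRmem z).2 ⟨_, hm, hz⟩,
      hnest _ _ (min_le_left _ _) hxc, hnest _ _ (min_le_right _ _) hxc', isPreconnected_side⟩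
  have hRsub : R ⊆ upS e p := by
    intro x hx
    obtain ⟨c, hc, hxc⟩ := (hRmem x).1 hx
    exact hnestp c hc.le hxc
  have hRsymm : ∀ c, e p < c → e.symm c ∈ R := by
    intro c hc
    obtain ⟨d, hd1, hd2⟩ := exists_between hc
    exact (hRmem _).2 ⟨d, hd1, hup _ _ hd2⟩
  have hy₂R : y₂ ∉ R := by
    intro h
    obtain ⟨c, hc, h⟩ := (hRmem _).1 h
    exact hcase c hc h
  have hyR : e.symm (e p + 1) ∈ R := hRsymm _ (by linarith)
  obtain ⟨w, hwA, hwcl, hwR, hw⟩ := exit (A := upS e p) (W := R) isPreconnected_side isOpen_side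
    hRp hRo hRsub hy2 hy₂R hyR
  -- `p` and `w` are not separated
  have hns : NonSeparated p w := by
    intro U U' hU hU' hpU hwU'
    set U₁ := connectedComponentIn U' w with hU₁
    have hU₁o : IsOpen U₁ := hU'.connectedComponentIn
    have hwU₁ : w ∈ U₁ := mem_connectedComponentIn hwU'
    have hU₁p : IsPreconnected U₁ := isPreconnected_connectedComponentIn
    have hU₁s : U₁ ⊆ U' := connectedComponentIn_subset _ _
    obtain ⟨u, huU, huR⟩ := mem_closure_iff.1 hwcl _ hU₁o hwU₁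
    obtain ⟨c, hc, huc⟩ := (hRmem u).1 huR
    have key : ∀ c', e p < c' → c' ≤ c → e.symm c' ∈ U₁ := by
      intro c' h1 h2
      by_contra hcon
      have h3 : u ∈ upS e (e.symm c') := hnest _ _ h2 huc
      have h4 : w ∈ side (e.symm c') u := subset_side hU₁p hcon huU hwU₁
      have h5 : w ∈ upS e (e.symm c') := mem_side_trans h4 h3
      exact hwR ((hRmem w).2 ⟨c', h1, h5⟩)
    have h1 : e.symm ⁻¹' U ∈ 𝓝 (e p) := by
      have := e.continuousAt_symm (e.map_source hpe)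
      rw [ContinuousAt, e.left_inv hpe] at this
      exact this (hU.mem_nhds hpU)
    obtain ⟨a', b', hab, hab'⟩ := mem_nhds_iff_exists_Ioo_subset.1 h1
    obtain ⟨d, hd1, hd2⟩ := exists_between (lt_min hab.2 hc)
    refine ⟨e.symm d, hab' ⟨hab.1.trans hd1, hd2.trans_le (min_le_left _ _)⟩,
      hU₁s (key d hd1 (hd2.le.trans (min_le_right _ _)))⟩
  have hwQ : w ∈ Qh A := by
    intro H hH hAH
    by_contra hwH
    rcases hw with rfl | hw
    · exact hwH (hAH h₂)
    have hpH : p ∈ H := hpQ H hH hAH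
    have hHo : IsOpen H := isOpen_of_halfSpace hH
    have hHp : IsPreconnected H := isPreconnected_of_halfSpace hH
    have h1 : e.symm ⁻¹' H ∈ 𝓝 (e p) := by
      have := e.continuousAt_symm (e.map_source hpe)
      rw [ContinuousAt, e.left_inv hpe] at this
      exact this (hHo.mem_nhds hpH)
    obtain ⟨a', b', hab, hab'⟩ := mem_nhds_iff_exists_Ioo_subset.1 h1
    obtain ⟨d, hd1, hd2⟩ := exists_between hab.2
    have hdH : e.symm d ∈ H := hab' ⟨hab.1.trans hd1, hd2⟩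
    have h2 : e.symm d ∈ side w (e.symm (e p + 1)) := subset_side hRp hwR hyR (hRsymm d hd1)
    have h3 : e.symm d ∈ side w y₂ := subset_side hHp hwH (hAH h₂) hdH
    exact hw (mem_side_trans (mem_side_symm h2) h3)
  have hwp : p = w := hQ p hpQ w hwQ hns
  exact self_notMem_side (hwp ▸ hwA)

theorem mem_interior_Qh [SCM Y] {A C : Set Y} {y₁ y₂ p : Y} (h₁ : y₁ ∈ A) (h₂ : y₂ ∈ A)
    (hQ : ∀ a ∈ Qh A, ∀ b ∈ Qh A, NonSeparated a b → a = b)
    (hC : IsPreconnected C) (hCQ : C ⊆ Qh A) (hyC : y₁ ∈ C) (hpC : p ∉ C) (hcl : p ∈ closure C)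
    (hy₂ : y₂ ≠ p) (hp : y₁ ∉ side p y₂) : p ∈ interior (Qh A) := by
  obtain ⟨e, hpe, he⟩ := exists_chart p
  have hpQ : p ∈ Qh A := mem_Qh_of_sep h₁ h₂ hp
  have hy₁ : y₁ ≠ p := by
    rintro rfl
    exact hpC hyC
  rcases mem_upS_or_dnS hpe he hy₁ with h | h
  · have hpe' : p ∈ (negC e).source := by rw [negC_source]; exact hpe
    rcases mem_upS_or_dnS hpe he hy₂ with h' | h'
    · exact absurd (mem_side_trans h (mem_side_symm h')) hp
    · exact interior_aux h₁ h₂ hQ hC hCQ hyC hpC hcl hpe' (negC_target he)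
        (by rw [dnS_negC]; exact h) (by rw [upS_negC]; exact h') hpQ
  · rcases mem_upS_or_dnS hpe he hy₂ with h' | h'
    · exact interior_aux h₁ h₂ hQ hC hCQ hyC hpC hcl hpe he h h' hpQ
    · exact absurd (mem_side_trans h (mem_side_symm h')) hp

end Pool.Agent.LSP
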