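import Pool.Agent.LSP.HullA

/-!
# LSP module HullB (size 2)

The hull of two open connected sets contains an open connected set which contains both.
-/

open Set Topology Filter

namespace Pool.Agent.LSP

open Pool.Agent.H86.Bifol

variable {Y : Type*} [TopologicalSpace Y]

/-- PROOF. Let `A := N₁ ∪ N₂`; `A ⊆ Qh A`, so `N₁, N₂ ⊆ interior (Qh A)` (they are open). Let `C` be the
component of `interior (Qh A)` containing `y₁` (`connectedComponentIn`; it is open:
`IsOpen.connectedComponentIn`, in a locally connected space; SCM gives the instance). `N₁ ⊆ C`.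
If `y₂ ∈ C` then `N₂ ⊆ C` and `P := C` works. Suppose `y₂ ∉ C`. Apply `exit` (H86/Side.lean) with
`A := univ`, `W := C`, `g := y₂`, `y := y₁`: there is `p ∈ closure C`, `p ∉ C`,
`p = y₂ ∨ y₁ ∉ side p y₂`. (univ is preconnected.)
`p ∈ interior (Qh A)`: if `p = y₂` this is `y₂ ∈ N₂ ⊆ interior (Qh A)`; otherwise it is
`mem_interior_Qh` (HullA). The component of `interior (Qh A)` containing `p` is open, so it meets `C`
(`p ∈ closure C`), so it is equal to `C` (`connectedComponentIn_eq`), so `p ∈ C`: contradiction. -/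
theorem hull [SCM Y] {N₁ N₂ : Set Y} (o₁ : IsOpen N₁) (p₁ : IsPreconnected N₁) (o₂ : IsOpen N₂)
    (p₂ : IsPreconnected N₂) {y₁ y₂ : Y} (hy₁ : y₁ ∈ N₁) (hy₂ : y₂ ∈ N₂)
    (hQ : ∀ a ∈ Qh (N₁ ∪ N₂), ∀ b ∈ Qh (N₁ ∪ N₂), NonSeparated a b → a = b) :
    ∃ P, IsOpen P ∧ IsPreconnected P ∧ N₁ ⊆ P ∧ N₂ ⊆ P ∧ P ⊆ Qh (N₁ ∪ N₂) := by
  generalize hA : N₁ ∪ N₂ = A at *
  have hs1 : N₁ ⊆ A := hA ▸ subset_union_left
  have hs2 : N₂ ⊆ A := hA ▸ subset_union_right
  have hsub : A ⊆ Qh A := fun a ha H _ hAH => hAH ha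
  have hAo : IsOpen A := hA ▸ o₁.union o₂
  have hint : A ⊆ interior (Qh A) := interior_maximal hsub hAo
  have h1 : y₁ ∈ interior (Qh A) := hint (hs1 hy₁)
  have h2 : y₂ ∈ interior (Qh A) := hint (hs2 hy₂)
  have hCo : IsOpen (connectedComponentIn (interior (Qh A)) y₁) :=
    isOpen_interior.connectedComponentIn
  have hCp : IsPreconnected (connectedComponentIn (interior (Qh A)) y₁) :=
    isPreconnected_connectedComponentIn
  have hy1C : y₁ ∈ connectedComponentIn (interior (Qh A)) y₁ := mem_connectedComponentIn h1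
  have hN1 : N₁ ⊆ connectedComponentIn (interior (Qh A)) y₁ :=
    p₁.subset_connectedComponentIn hy₁ (hs1.trans hint)
  have hCs : connectedComponentIn (interior (Qh A)) y₁ ⊆ interior (Qh A) :=
    connectedComponentIn_subset _ _
  by_cases h : y₂ ∈ connectedComponentIn (interior (Qh A)) y₁
  · refine ⟨_, hCo, hCp, hN1, ?_, hCs.trans interior_subset⟩
    rw [connectedComponentIn_eq h]
    exact p₂.subset_connectedComponentIn hy₂ (hs2.trans hint)
  · exfalso
    obtain ⟨p, -, hpc, hpC, hor⟩ := exit (A := univ) isPreconnected_univ isOpen_univ hCp hCo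
      (subset_univ _) (mem_univ y₂) h hy1C
    have hpi : p ∈ interior (Qh A) := by
      by_cases hpe : p = y₂
      · rw [hpe]
        exact h2
      · rcases hor with h' | h'
        · exact absurd h' hpe
        · exact mem_interior_Qh (hs1 hy₁) (hs2 hy₂) hQ hCp (hCs.trans interior_subset) hy1C hpC
            hpc (Ne.symm hpe) h'
    have hDo : IsOpen (connectedComponentIn (interior (Qh A)) p) :=
      isOpen_interior.connectedComponentIn
    obtain ⟨q, hq1, hq2⟩ := mem_closure_iff.1 hpc _ hDo (mem_connectedComponentIn hpi)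
    have e1 := connectedComponentIn_eq hq1
    have e2 := connectedComponentIn_eq hq2
    apply hpC
    rw [e2, ← e1]
    exact mem_connectedComponentIn hpi

end Pool.Agent.LSP
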