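import Mathlib

/-!
# LSP module LimA (size 2)

Compact sets subordinate to an increasing open cover.
-/

open Set Topology Filter

namespace Pool.Agent.LSP

/-- PROOF. `M` has a countable basis `b`. Let `ℬ` be the set of `B ∈ b` with `closure B` compact and
contained in some `U n`. It is countable, and covers `M`: for `x ∈ U n` there are a compact
neighbourhood `K ⊆ U n` of `x` (`local_compact_nhds`), `B ∈ b` with `x ∈ B ⊆ interior K`; `K` is closed
(T2), so `closure B ⊆ K` is compact. Enumerate `ℬ` (nonempty if `M` is nonempty; for empty `M` take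
`C n := ∅`) as `B 0, B 1, …` and put `C n := ⋃ k ≤ n with closure (B k) ⊆ U n, closure (B k)`: a finite
union of compact sets, contained in `U n`, increasing in `n` since `U` is. For `x ∈ B k`,
`closure (B k) ⊆ U m` and `n := max k m`: `B k ⊆ C n` is open. -/
theorem exists_exhaustion {M : Type*} [TopologicalSpace M] [T2Space M] [LocallyCompactSpace M]
    [SecondCountableTopology M] {U : ℕ → Set M} (hUo : ∀ n, IsOpen (U n)) (hUm : Monotone U)
    (hU : ∀ x, ∃ n, x ∈ U n) :
    ∃ C : ℕ → Set M, (∀ n, IsCompact (C n)) ∧ (∀ n, C n ⊆ U n) ∧ Monotone C ∧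
      ∀ x, ∃ n, x ∈ interior (C n) := by
  classical
  let ℬ : Set (Set M) := {B | B ∈ TopologicalSpace.countableBasis M ∧ IsCompact (closure B) ∧ ∃ n, closure B ⊆ U n}
  have hc : ℬ.Countable := (TopologicalSpace.countable_countableBasis M).mono fun B h => h.1
  have hcov : ∀ x : M, ∃ B ∈ ℬ, x ∈ B := by
    intro x
    obtain ⟨n, hn⟩ := hU x
    obtain ⟨K, hK, hKU, hKc⟩ := local_compact_nhds ((hUo n).mem_nhds hn)
    obtain ⟨B, hB, hxB, hBK⟩ := (TopologicalSpace.isBasis_countableBasis M).mem_nhds_iff.1 (interior_mem_nhds.2 hK)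
    have h1 : closure B ⊆ K := (closure_mono (hBK.trans interior_subset)).trans hKc.isClosed.closure_subset
    exact ⟨B, ⟨hB, hKc.of_isClosed_subset isClosed_closure h1, n, h1.trans hKU⟩, hxB⟩
  rcases isEmpty_or_nonempty M with hM | ⟨⟨x0⟩⟩
  · exact ⟨fun _ => ∅, fun _ => isCompact_empty, fun _ => empty_subset _, fun _ _ _ => le_rfl,
      fun x => (hM.false x).elim⟩
  obtain ⟨B0, hB0, -⟩ := hcov x0
  obtain ⟨f, hf⟩ := hc.exists_eq_range ⟨B0, hB0⟩
  have hfB : ∀ k, f k ∈ ℬ := fun k => hf ▸ mem_range_self k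
  refine ⟨fun n => ⋃ k ∈ {k | k ≤ n ∧ closure (f k) ⊆ U n}, closure (f k), ?_, ?_, ?_, ?_⟩
  · intro n
    refine Set.Finite.isCompact_biUnion ((Set.finite_le_nat n).subset fun k hk => hk.1) fun k _ => (hfB k).2.1
  · intro n
    exact iUnion₂_subset fun k hk => hk.2
  · intro m n hmn
    refine iUnion₂_subset fun k hk => ?_
    have h1 : k ∈ {k | k ≤ n ∧ closure (f k) ⊆ U n} := ⟨hk.1.trans hmn, hk.2.trans (hUm hmn)⟩
    exact subset_biUnion_of_mem (u := fun k => closure (f k)) h1
  · intro x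
    obtain ⟨B, hB, hxB⟩ := hcov x
    rw [hf] at hB
    obtain ⟨k, rfl⟩ := hB
    obtain ⟨m, hm⟩ := (hfB k).2.2
    refine ⟨max k m, mem_interior.2 ⟨f k, ?_, ?_, hxB⟩⟩
    · have h1 : k ∈ {j | j ≤ max k m ∧ closure (f j) ⊆ U (max k m)} :=
        ⟨le_max_left _ _, hm.trans (hUm (le_max_right _ _))⟩
      exact subset_closure.trans (subset_biUnion_of_mem (u := fun k => closure (f k)) h1)
    · exact TopologicalSpace.isOpen_of_mem_countableBasis (hfB k).1

end Pool.Agent.LSP
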