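import Mathlib

/-!
# LSP module LimB (size 2)

The inductive construction of a sequence of homeomorphisms.
-/

open Set Topology Filter

namespace Pool.Agent.LSP

/-- PROOF. Recursion on `n` on the subtype of pairs `(H, K)` with `H.source = U n`,
`H.target = univ`, `IsCompact K`, `K ⊆ U n`, `C n ⊆ K`, `H.symm '' closedBall 0 n ⊆ K` (a sigma type over
`n` or: prove `∀ n, ∀ P : Good n, ∃ P' : Good (n + 1), R P P'` and use `exists_seq`-type recursion,
`Nat.rec` with `Classical.choose`). Start: `H` from `h0`, `K := C 0 ∪ H.symm '' closedBall 0 0`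
(compact: `H.symm` is continuous on `H.target = univ`; contained in `H.source`). Step: `H'` from
`hstep n H _ _ K _ _`, `K' := K ∪ C (n + 1) ∪ H'.symm '' closedBall 0 (n + 1)`. -/
theorem exists_sequence {M : Type*} [TopologicalSpace M] {U C : ℕ → Set M}
    (hUm : Monotone U) (hC : ∀ n, IsCompact (C n)) (hCU : ∀ n, C n ⊆ U n)
    (h0 : ∃ H : OpenPartialHomeomorph M (ℝ × ℝ), H.source = U 0 ∧ H.target = univ)
    (hstep : ∀ n, ∀ H : OpenPartialHomeomorph M (ℝ × ℝ), H.source = U n → H.target = univ →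
      ∀ K, IsCompact K → K ⊆ U n → ∃ H' : OpenPartialHomeomorph M (ℝ × ℝ),
        H'.source = U (n + 1) ∧ H'.target = univ ∧ EqOn H' H K) :
    ∃ (H : ℕ → OpenPartialHomeomorph M (ℝ × ℝ)) (K : ℕ → Set M),
      (∀ n, (H n).source = U n) ∧ (∀ n, (H n).target = univ) ∧ (∀ n, K n ⊆ U n) ∧
      (∀ n, C n ⊆ K n) ∧ (∀ n : ℕ, (H n).symm '' Metric.closedBall 0 n ⊆ K n) ∧ Monotone K ∧
      ∀ n, EqOn (H (n + 1)) (H n) (K n) := by
  classical
  let good : ℕ → OpenPartialHomeomorph M (ℝ × ℝ) × Set M → Prop := fun n x =>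
    x.1.source = U n ∧ x.1.target = univ ∧ IsCompact x.2 ∧ x.2 ⊆ U n ∧ C n ⊆ x.2 ∧
      x.1.symm '' Metric.closedBall 0 n ⊆ x.2
  -- the compact set of a homeomorphism
  have cpt : ∀ (n : ℕ) (H : OpenPartialHomeomorph M (ℝ × ℝ)), H.source = U n → H.target = univ →
      IsCompact (H.symm '' Metric.closedBall 0 (n : ℝ)) ∧ H.symm '' Metric.closedBall 0 (n : ℝ) ⊆ U n := by
    intro n H hs ht
    constructor
    · apply (isCompact_closedBall (0 : ℝ × ℝ) (n : ℝ)).image_of_continuousOn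
      exact H.continuousOn_symm.mono (by rw [ht]; exact subset_univ _)
    · rintro _ ⟨x, _, rfl⟩
      rw [← hs]
      exact H.map_target (by rw [ht]; exact mem_univ _)
  have start : ∃ x, good 0 x := by
    obtain ⟨H, hs, ht⟩ := h0
    obtain ⟨c1, c2⟩ := cpt 0 H hs ht
    exact ⟨(H, C 0 ∪ H.symm '' Metric.closedBall 0 ((0 : ℕ) : ℝ)), hs, ht, (hC 0).union c1,
      union_subset (hCU 0) c2, subset_union_left, subset_union_right⟩
  have step : ∀ n, ∀ x : {x // good n x}, ∃ y : {y // good (n + 1) y},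
      x.1.2 ⊆ y.1.2 ∧ EqOn y.1.1 x.1.1 x.1.2 := by
    rintro n ⟨⟨H, K⟩, hs, ht, hK, hKU, hCK, hb⟩
    obtain ⟨H', hs', ht', he⟩ := hstep n H hs ht K hK hKU
    obtain ⟨c1, c2⟩ := cpt (n + 1) H' hs' ht'
    refine ⟨⟨(H', K ∪ (C (n + 1) ∪ H'.symm '' Metric.closedBall 0 ((n + 1 : ℕ) : ℝ))), hs', ht',
      hK.union ((hC _).union c1), union_subset (hKU.trans (hUm (Nat.le_succ n)))
        (union_subset (hCU _) c2), ?_, ?_⟩, subset_union_left, he⟩
    · exact subset_union_left.trans subset_union_right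
    · exact subset_union_right.trans subset_union_right
  choose f hf1 hf2 using step
  let s : ∀ n, {x // good n x} := fun n => Nat.rec ⟨start.choose, start.choose_spec⟩ (fun n x => f n x) n
  have hs : ∀ n, s (n + 1) = f n (s n) := fun n => rfl
  refine ⟨fun n => (s n).1.1, fun n => (s n).1.2, fun n => (s n).2.1, fun n => (s n).2.2.1,
    fun n => (s n).2.2.2.2.1, fun n => (s n).2.2.2.2.2.1, fun n => (s n).2.2.2.2.2.2, ?_, ?_⟩
  · refine monotone_nat_of_le_succ fun n => ?_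
    change (s n).1.2 ⊆ (s (n + 1)).1.2
    rw [hs]
    exact hf1 n (s n)
  · intro n
    change EqOn (s (n + 1)).1.1 (s n).1.1 (s n).1.2
    rw [hs]
    exact hf2 n (s n)

end Pool.Agent.LSP
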