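import Pool.Agent.LSP.LimA
import Pool.Agent.LSP.LimB

/-!
# LSP module LimC (size 3)

An increasing union of planes with extension property is a plane.
-/

open Set Topology Filter

namespace Pool.Agent.LSP

/-- PROOF. Induction gives `EqOn (H m) (H n) (K n)` for `n ≤ m`. For `x` choose `ν x` with
`x ∈ interior (C (ν x)) ⊆ K (ν x)` and put `Φ x := H (ν x) x`. Then `Φ x = H n x` whenever `x ∈ K n`
(compare at `max n (ν x)`), so `Φ = H n` on `K n`.
Continuous: near `x` (on the open set `interior (C (ν x))`) `Φ = H (ν x)`, and `H (ν x)` is continuous on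
its open source `U (ν x) ⊇ C (ν x)`. Injective: `x, y ∈ K n` for `n` large (monotone), `H n` is injective
on its source. Surjective: for `p : ℝ × ℝ` take `n ≥ ‖p‖` (`exists_nat_ge`), `x := (H n).symm p ∈ K n`,
`Φ x = H n x = p` (`right_inv`). Open map: `IsOpenMap` iff `Φ '' W ∈ 𝓝 (Φ x)` for `W` open, `x ∈ W`:
`Φ '' W ⊇ H n '' (W ∩ interior (C n))` for `n := ν x`, open by `OpenPartialHomeomorph.isOpen_image_of_subset_source`.
Conclude with `Equiv.ofBijective … .toHomeomorphOfContinuousOpen`. -/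
theorem homeo_of_sequence {M : Type*} [TopologicalSpace M] {U C : ℕ → Set M}
    {H : ℕ → OpenPartialHomeomorph M (ℝ × ℝ)} {K : ℕ → Set M}
    (hs : ∀ n, (H n).source = U n) (ht : ∀ n, (H n).target = univ) (hKU : ∀ n, K n ⊆ U n)
    (hCK : ∀ n, C n ⊆ K n) (hb : ∀ n : ℕ, (H n).symm '' Metric.closedBall 0 n ⊆ K n)
    (hKm : Monotone K) (hE : ∀ n, EqOn (H (n + 1)) (H n) (K n))
    (hCi : ∀ x, ∃ n, x ∈ interior (C n)) : Nonempty (M ≃ₜ ℝ × ℝ) := by
  classical
  have hEq : ∀ n m, n ≤ m → EqOn (H m) (H n) (K n) := by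
    intro n m hnm
    induction m, hnm using Nat.le_induction with
    | base => exact fun x _ => rfl
    | succ m hm ih =>
      intro x hx
      rw [hE m (hKm hm hx)]
      exact ih hx
  choose ν hν using hCi
  have hνK : ∀ x, x ∈ K (ν x) := fun x => hCK _ (interior_subset (hν x))
  have hKs : ∀ n x, x ∈ K n → x ∈ (H n).source := by
    intro n x hx
    rw [hs n]
    exact hKU n hx
  set Φ : M → ℝ × ℝ := fun x => H (ν x) x with hΦ
  have hΦK : ∀ n x, x ∈ K n → Φ x = H n x := by
    intro n x hx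
    change H (ν x) x = H n x
    rw [← hEq (ν x) (max n (ν x)) (le_max_right _ _) (hνK x),
      ← hEq n (max n (ν x)) (le_max_left _ _) hx]
  have hcont : Continuous Φ := by
    rw [continuous_iff_continuousAt]
    intro x
    have h1 : ContinuousAt (H (ν x)) x := (H (ν x)).continuousAt (hKs _ _ (hνK x))
    refine h1.congr ?_
    have h2 : interior (C (ν x)) ∈ 𝓝 x := isOpen_interior.mem_nhds (hν x)
    filter_upwards [h2] with y hy
    exact (hΦK (ν x) y (hCK _ (interior_subset hy))).symm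
  have hinj : Function.Injective Φ := by
    intro x y hxy
    have hx : x ∈ K (max (ν x) (ν y)) := hKm (le_max_left _ _) (hνK x)
    have hy : y ∈ K (max (ν x) (ν y)) := hKm (le_max_right _ _) (hνK y)
    rw [hΦK _ x hx, hΦK _ y hy] at hxy
    exact (H _).injOn (hKs _ _ hx) (hKs _ _ hy) hxy
  have hsurj : Function.Surjective Φ := by
    intro p
    obtain ⟨n, hn⟩ := exists_nat_ge ‖p‖
    have h1 : (H n).symm p ∈ K n := by
      apply hb n
      exact ⟨p, by rw [Metric.mem_closedBall, dist_zero_right]; exact hn, rfl⟩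
    refine ⟨(H n).symm p, ?_⟩
    rw [hΦK n _ h1]
    exact (H n).right_inv (by rw [ht n]; trivial)
  have hopen : IsOpenMap Φ := by
    intro W hW
    rw [isOpen_iff_mem_nhds]
    rintro _ ⟨x, hx, rfl⟩
    have hsub : W ∩ interior (C (ν x)) ⊆ (H (ν x)).source := fun y hy =>
      hKs _ _ (hCK _ (interior_subset hy.2))
    have h1 : IsOpen (H (ν x) '' (W ∩ interior (C (ν x)))) :=
      (H (ν x)).isOpen_image_of_subset_source (hW.inter isOpen_interior) hsub
    refine Filter.mem_of_superset (h1.mem_nhds ⟨x, ⟨hx, hν x⟩, rfl⟩) ?_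
    rintro _ ⟨y, hy, rfl⟩
    exact ⟨y, hy.1, hΦK (ν x) y (hCK _ (interior_subset hy.2))⟩
  exact ⟨(Equiv.ofBijective Φ ⟨hinj, hsurj⟩).toHomeomorphOfContinuousOpen hcont hopen⟩

/-- PROOF. `exists_exhaustion` (LimA), `exists_sequence` (LimB), `homeo_of_sequence`. -/
theorem limit {M : Type*} [TopologicalSpace M] [T2Space M] [LocallyCompactSpace M]
    [SecondCountableTopology M] {U : ℕ → Set M} (hUo : ∀ n, IsOpen (U n)) (hUm : Monotone U)
    (hU : ∀ x, ∃ n, x ∈ U n)
    (h0 : ∃ H : OpenPartialHomeomorph M (ℝ × ℝ), H.source = U 0 ∧ H.target = univ)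
    (hstep : ∀ n, ∀ H : OpenPartialHomeomorph M (ℝ × ℝ), H.source = U n → H.target = univ →
      ∀ K, IsCompact K → K ⊆ U n → ∃ H' : OpenPartialHomeomorph M (ℝ × ℝ),
        H'.source = U (n + 1) ∧ H'.target = univ ∧ EqOn H' H K) : Nonempty (M ≃ₜ ℝ × ℝ) := by
  obtain ⟨C, hC, hCU, hCm, hCi⟩ := exists_exhaustion hUo hUm hU
  obtain ⟨H, K, hs, ht, hKU, hCK, hb, hKm, hE⟩ := exists_sequence hUm hC hCU h0 hstep
  exact homeo_of_sequence hs ht hKU hCK hb hKm hE hCi

end Pool.Agent.LSP
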