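import Pool.Agent.LSP.NecA

/-!
# LSP module NecB (size 3)

Realized pairs have a cut system with open total set.
-/

open Set Topology Filter

namespace Pool.Agent.LSP

open Pool.Agent.H86.Bifol

variable {X Y : Type*} [TopologicalSpace X] [TopologicalSpace Y] [SCM X] [SCM Y]

/-- PROOF. For every ordered pair with `NS z z'` choose `K z z'`, `K' z z'` by `exists_cut` (`choose`
with the hypothesis, or `Classical.choice` with a default value). Take a linear order on `X`
(`WellOrderingRel`, or `linearOrderOfSTO WellOrderingRel`), and put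
`V z z' := if WellOrderingRel z z' then K z z' else K' z' z`. For `NS z z'` exactly one of
`WellOrderingRel z z'`, `WellOrderingRel z' z` holds (trichotomy, `z ≠ z'`, asymmetry), so `V z z'` is a
half-space, `V z z'` and `V z' z` are disjoint, and `L (F.proj p) ∈ Cc z z' → L' (G.proj p) ∈ V z z'`. -/
theorem exists_V {F G : Foliation} (hFG : Transverse F G) (L : F.LeafSpace ≃ₜ X)
    (L' : G.LeafSpace ≃ₜ Y) :
    ∃ V : X → X → Set Y, (∀ z z', NS z z' → IsHalfSpace (V z z')) ∧
      (∀ z z', NS z z' → Disjoint (V z z') (V z' z)) ∧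
      ∀ z z', NS z z' → ∀ p, L (F.proj p) ∈ Cc z z' → L' (G.proj p) ∈ V z z' := by
  classical
  have hc : ∀ z z' : X, ∃ P : Set Y × Set Y, NS z z' → IsHalfSpace P.1 ∧ IsHalfSpace P.2 ∧
      Disjoint P.1 P.2 ∧ (∀ p, L (F.proj p) ∈ Cc z z' → L' (G.proj p) ∈ P.1) ∧
      (∀ p, L (F.proj p) ∈ Cc z' z → L' (G.proj p) ∈ P.2) := by
    intro z z'
    by_cases hz : NS z z'
    · obtain ⟨K, K', h1, h2, h3, h4, h5⟩ := exists_cut hFG L L' hz
      exact ⟨(K, K'), fun _ => ⟨h1, h2, h3, h4, h5⟩⟩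
    · exact ⟨(∅, ∅), fun h => absurd h hz⟩
  choose P hP using hc
  let r : X → X → Prop := WellOrderingRel
  have htri : ∀ a b : X, a ≠ b → r a b ∨ r b a := by
    intro a b hab
    rcases trichotomous_of (WellOrderingRel : X → X → Prop) a b with h | h | h
    · exact Or.inl h
    · exact absurd h hab
    · exact Or.inr h
  have hasy : ∀ a b : X, r a b → ¬ r b a := by
    intro a b h1 h2
    exact asymm_of (WellOrderingRel : X → X → Prop) h1 h2
  refine ⟨fun z z' => if r z z' then (P z z').1 else (P z' z).2, ?_, ?_, ?_⟩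
  · intro z z' hz
    by_cases h : r z z'
    · simp only [h, if_true]
      exact (hP z z' hz).1
    · simp only [h, if_false]
      exact (hP z' z hz.symm).2.1
  · intro z z' hz
    by_cases h : r z z'
    · have h' : ¬ r z' z := hasy z z' h
      simp only [h, h', if_true, if_false]
      exact (hP z z' hz).2.2.1
    · have h' : r z' z := (htri z z' hz.1).resolve_left h
      simp only [h, h', if_true, if_false]
      exact (hP z' z hz.symm).2.2.1.symm
  · intro z z' hz p hp
    by_cases h : r z z'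
    · simp only [h, if_true]
      exact (hP z z' hz).2.2.2.1 p hp
    · simp only [h, if_false]
      exact (hP z' z hz.symm).2.2.2.2 p hp

/-- PROOF. Let `p` and let `V₀ ∋ p` be open as in `Transverse.exists_small` (BifolBasic; with
`W := univ`): for `q, r ∈ V₀` there is `s` with `F.proj s = F.proj q`, `G.proj s = G.proj r`. So
`(π '' V₀) ×ˢ (π' '' V₀) ⊆ range (fun p => (π p, π' p))` is open (`isOpenMap_proj`, `isOpenMap` of
homeomorphisms), contains `(π p, π' p)`, and is contained in `T`: use `mem_interior`. -/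
theorem mem_interior_of_forall {F G : Foliation} (hFG : Transverse F G) (L : F.LeafSpace ≃ₜ X)
    (L' : G.LeafSpace ≃ₜ Y) {T : Set (X × Y)} (hT : ∀ p, (L (F.proj p), L' (G.proj p)) ∈ T)
    (p : ℝ × ℝ) : (L (F.proj p), L' (G.proj p)) ∈ interior T := by
  obtain ⟨V0, -, hV0, hp, hs⟩ := hFG.exists_small (p := p) (W := univ) univ_mem
  have o1 : IsOpen (L '' (F.proj '' V0)) := L.isOpenMap _ (F.isOpenMap_proj _ hV0)
  have o2 : IsOpen (L' '' (G.proj '' V0)) := L'.isOpenMap _ (G.isOpenMap_proj _ hV0)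
  rw [mem_interior]
  refine ⟨(L '' (F.proj '' V0)) ×ˢ (L' '' (G.proj '' V0)), ?_, o1.prod o2,
    ⟨_, ⟨p, hp, rfl⟩, rfl⟩, ⟨_, ⟨p, hp, rfl⟩, rfl⟩⟩
  rintro ⟨a, b⟩ ⟨⟨_, ⟨q, hq, rfl⟩, h1⟩, ⟨_, ⟨r, hr, rfl⟩, h2⟩⟩
  obtain ⟨s, -, hs1, hs2⟩ := hs q hq r hr
  have := hT s
  rw [hs1, hs2] at this
  simp only at h1 h2
  rw [h1, h2] at this
  exact this

/-- PROOF. `h` gives `F, G, hFG, L, L'`. `V` from `exists_V hFG L L'`, `S` from
`exists_V hFG.symm L' L`. All points `(L (F.proj p), L' (G.proj p))` are in `Om V S`, hence in its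
interior by `mem_interior_of_forall`. `F.proj`, `G.proj` are surjective (`Quotient.mk_surjective`) and
`L`, `L'` too: for `x` take `p` with `L (F.proj p) = x` and `y := L' (G.proj p)`. -/
theorem cuts_of_realized (h : Realized X Y) :
    ∃ (V : X → X → Set Y) (S : Y → Y → Set X), Cuts V S ∧
      (∀ x, ∃ y, (x, y) ∈ interior (Om V S)) ∧ ∀ y, ∃ x, (x, y) ∈ interior (Om V S) := by
  obtain ⟨F, G, hFG, ⟨L⟩, ⟨L'⟩⟩ := h
  obtain ⟨V, v1, v2, v3⟩ := exists_V hFG L L'
  obtain ⟨S, s1, s2, s3⟩ := exists_V hFG.symm L' L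
  have hT : ∀ p, (L (F.proj p), L' (G.proj p)) ∈ Om V S := fun p =>
    ⟨fun z z' hz hx => v3 z z' hz p hx, fun w w' hw hy => s3 w w' hw p hy⟩
  refine ⟨V, S, ⟨v1, v2, s1, s2⟩, fun x => ?_, fun y => ?_⟩
  · obtain ⟨p, hp⟩ := Quotient.mk_surjective (L.symm x)
    refine ⟨L' (G.proj p), ?_⟩
    have := mem_interior_of_forall hFG L L' hT p
    have hx : L (F.proj p) = x := by
      have : F.proj p = L.symm x := hp
      rw [this, L.apply_symm_apply]
    rwa [hx] at this
  · obtain ⟨p, hp⟩ := Quotient.mk_surjective (L'.symm y)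
    refine ⟨L (F.proj p), ?_⟩
    have := mem_interior_of_forall hFG L L' hT p
    have hy : L' (G.proj p) = y := by
      have : G.proj p = L'.symm y := hp
      rw [this, L'.apply_symm_apply]
    rwa [hy] at this

end Pool.Agent.LSP
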