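import Pool.Agent.LSP.Defs

/-!
# LSP module Pairwise (size 1)

A cut system whose set `Om V S` has nonempty slices is pairwise compatible.
-/

open Set Topology Filter

namespace Pool.Agent.LSP

open Pool.Agent.H86.Bifol

variable {X Y : Type*} [TopologicalSpace X] [TopologicalSpace Y]

/-- PROOF. `c1`: take `x` in the intersection and `y` with `(x, y) ∈ Om V S`; `y` is in both
half-spaces. `c2`: take `x ∈ Cc z z'`, `x ∉ S w w'` and `y` over `x`: `y ∈ V z z'`, and `y ∉ Cc w w'`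
because otherwise `x ∈ S w w'`. `c3`: take `x` outside of both and `y` over `x`: `y` is in none of
`Cc w w'`, `Cc v v'`. The primed ones in the same way with `hy`. -/
theorem compat_of_slices {V : X → X → Set Y} {S : Y → Y → Set X} (h : Cuts V S)
    (hx : ∀ x, ∃ y, (x, y) ∈ Om V S) (hy : ∀ y, ∃ x, (x, y) ∈ Om V S) : Compat V S := by
  refine { toCuts := h, c1 := ?_, c1' := ?_, c2 := ?_, c2' := ?_, c3 := ?_, c3' := ?_ }
  · rintro z z' u u' hz hu ⟨x, hx1, hx2⟩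
    obtain ⟨y, hxy⟩ := hx x
    exact ⟨y, hxy.1 z z' hz hx1, hxy.1 u u' hu hx2⟩
  · rintro w w' v v' hw hv ⟨y, hy1, hy2⟩
    obtain ⟨x, hxy⟩ := hy y
    exact ⟨x, hxy.2 w w' hw hy1, hxy.2 v v' hv hy2⟩
  · intro z z' w w' hz hw hne hsub
    obtain ⟨x, hx1, hx2⟩ := not_subset.1 hne
    obtain ⟨y, hxy⟩ := hx x
    exact hx2 (hxy.2 w w' hw (hsub (hxy.1 z z' hz hx1)))
  · intro z z' w w' hz hw hne hsub
    obtain ⟨y, hy1, hy2⟩ := not_subset.1 hne
    obtain ⟨x, hxy⟩ := hy y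
    exact hy2 (hxy.1 z z' hz (hsub (hxy.2 w w' hw hy1)))
  · intro w w' v v' hw hv hne huniv
    obtain ⟨x, hx1⟩ := (ne_univ_iff_exists_notMem _).1 hne
    obtain ⟨y, hxy⟩ := hx x
    have hy1 : y ∈ Cc w w' ∪ Cc v v' := huniv ▸ mem_univ y
    rcases hy1 with hy1 | hy1
    · exact hx1 (Or.inl (hxy.2 w w' hw hy1))
    · exact hx1 (Or.inr (hxy.2 v v' hv hy1))
  · intro z z' u u' hz hu hne huniv
    obtain ⟨y, hy1⟩ := (ne_univ_iff_exists_notMem _).1 hne
    obtain ⟨x, hxy⟩ := hy y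
    have hx1 : x ∈ Cc z z' ∪ Cc u u' := huniv ▸ mem_univ x
    rcases hx1 with hx1 | hx1
    · exact hy1 (Or.inl (hxy.1 z z' hz hx1))
    · exact hy1 (Or.inr (hxy.1 u u' hu hx1))

end Pool.Agent.LSP
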