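import Pool.Agent.LSP.RealBox

/-!
# LSP module Real (size 3)

A plane with line slices gives transverse foliations.
-/

open Set Topology Filter

namespace Pool.Agent.LSP

open Pool.Agent.H86.Bifol

variable {X Y : Type*} [TopologicalSpace X] [TopologicalSpace Y] [SCM X] [SCM Y]

/-- The fibres of the first projection. PROOF. The set is the image of the preconnected space
`{y | (x, y) ∈ Ω}` under a continuous map (see `isPreconnected_fibre` in H86/Homeo.lean). -/
theorem isPreconnected_fibre_fst {Ω : Set (X × Y)} (h : Slices Ω) (x : X) :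
    IsPreconnected {p : Ω | p.1.1 = x} := by
  have h1 : IsPreconnected {y | (x, y) ∈ Ω} := (h.fst x).pre
  have h2 : PreconnectedSpace {y | (x, y) ∈ Ω} := Subtype.preconnectedSpace h1
  have h3 : {p : Ω | p.1.1 = x} =
      range (fun y : {y | (x, y) ∈ Ω} => (⟨(x, y.1), y.2⟩ : Ω)) := by
    ext p
    constructor
    · rintro rfl
      exact ⟨⟨p.1.2, p.2⟩, rfl⟩
    · rintro ⟨y, rfl⟩
      rfl
  rw [h3]
  exact isPreconnected_range (by fun_prop)

theorem isPreconnected_fibre_snd {Ω : Set (X × Y)} (h : Slices Ω) (y : Y) :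
    IsPreconnected {p : Ω | p.1.2 = y} := by
  have h1 : IsPreconnected {x | (x, y) ∈ Ω} := (h.snd y).pre
  have h2 : PreconnectedSpace {x | (x, y) ∈ Ω} := Subtype.preconnectedSpace h1
  have h3 : {p : Ω | p.1.2 = y} =
      range (fun x : {x | (x, y) ∈ Ω} => (⟨(x.1, y), x.2⟩ : Ω)) := by
    ext p
    constructor
    · rintro rfl
      exact ⟨⟨p.1.1, p.2⟩, rfl⟩
    · rintro ⟨x, rfl⟩
      rfl
  rw [h3]
  exact isPreconnected_range (by fun_prop)

/-- PROOF. Follow `realized_of_fam` in H86/FromMap.lean with `f q := (Ψ q).1.1`, `g q := (Ψ q).1.2`,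
boxes from `exists_plane_box'` (RealBox); for `g` the chart is `swapChart E` (BifolBasic). `f`, `g` are
open (`isOpenMap_fst.comp (hΩ.isOpen.isOpenMap_subtype_val) …`), surjective (the slices are nonempty),
with connected fibres (`Ψ.isPreconnected_preimage`, the two lemmas above). -/
theorem realized_of_homeo {Ω : Set (X × Y)} (h : Slices Ω) (Ψ : ℝ × ℝ ≃ₜ Ω) : Realized X Y := by
  set f : ℝ × ℝ → X := fun q => (Ψ q).1.1 with hf
  set g : ℝ × ℝ → Y := fun q => (Ψ q).1.2 with hg
  have hcf : ∀ p, ∃ φ, p ∈ φ.source ∧ LevelChart f φ := by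
    intro p
    obtain ⟨E, h1, h2, h3, h4⟩ := exists_plane_box' h.isOpen Ψ p
    exact ⟨E, h1, h2, h3⟩
  have hcg : ∀ p, ∃ φ, p ∈ φ.source ∧ LevelChart g φ := by
    intro p
    obtain ⟨E, h1, h2, h3, h4⟩ := exists_plane_box' h.isOpen Ψ p
    refine ⟨swapChart E, by rwa [swapChart_source], swapChart_target E h2, ?_⟩
    intro q hq r hr
    rw [swapChart_source] at hq hr
    exact h4 q hq r hr
  refine ⟨ofMap f hcf, ofMap g hcg, ?_, ?_, ?_⟩
  · intro p
    obtain ⟨E, h1, h2, h3, h4⟩ := exists_plane_box' h.isOpen Ψ p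
    refine ⟨E, h1, h2, ?_, ?_⟩
    · intro φ hφ q hq
      refine ⟨E.source ∩ φ.source, (E.open_source.inter φ.open_source).mem_nhds hq, ?_⟩
      intro r hr s hs
      exact (h3 r hr.1 s hs.1).symm.trans (hφ.2 r hr.2 s hs.2)
    · intro φ hφ q hq
      refine ⟨E.source ∩ φ.source, (E.open_source.inter φ.open_source).mem_nhds hq, ?_⟩
      intro r hr s hs
      exact (h4 r hr.1 s hs.1).symm.trans (hφ.2 r hr.2 s hs.2)
  · refine ofMap_leafSpace hcf ?_ (by fun_prop) ?_ ?_
    · intro l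
      have h1 : f ⁻¹' {l} = Ψ ⁻¹' {p : Ω | p.1.1 = l} := rfl
      rw [h1, Ψ.isPreconnected_preimage]
      exact isPreconnected_fibre_fst h l
    · exact (isOpenMap_fst.comp h.isOpen.isOpenMap_subtype_val).comp Ψ.isOpenMap
    · intro l
      obtain ⟨y, hy⟩ := (h.fst l).nonempty
      exact ⟨Ψ.symm ⟨(l, y), hy⟩, by simp [hf]⟩
  · refine ofMap_leafSpace hcg ?_ (by fun_prop) ?_ ?_
    · intro l
      have h1 : g ⁻¹' {l} = Ψ ⁻¹' {p : Ω | p.1.2 = l} := rfl
      rw [h1, Ψ.isPreconnected_preimage]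
      exact isPreconnected_fibre_snd h l
    · exact (isOpenMap_snd.comp h.isOpen.isOpenMap_subtype_val).comp Ψ.isOpenMap
    · intro l
      obtain ⟨x, hx⟩ := (h.snd l).nonempty
      exact ⟨Ψ.symm ⟨(x, l), hx⟩, by simp [hg]⟩

end Pool.Agent.LSP
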