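import Pool.Agent.LSP.HullB

/-!
# LSP module SliceOf (size 3)

The slices of the interior of `Om V S` are lines.
-/

open Set Topology Filter

namespace Pool.Agent.LSP

open Pool.Agent.H86.Bifol

variable {X Y : Type*} [TopologicalSpace X] [TopologicalSpace Y] [SCM X] [SCM Y]

/-- The hull of a subset of a slice is contained in the slice.
PROOF. By `mem_Om_iff` the slice at `x` is the intersection of the half-spaces `V z z'` (`x ∈ Cc z z'`;
half-space by `h.hV`) and `side w w'` (`x ∉ S w w'`; `isHalfSpace_side`, `w' ≠ w` from `NS`). Each of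
them contains `A`, hence `q`. -/
theorem hull_subset_slice {V : X → X → Set Y} {S : Y → Y → Set X} (h : Cuts V S) {x : X}
    {A : Set Y} (hA : ∀ y ∈ A, (x, y) ∈ Om V S) {q : Y} (hq : q ∈ Qh A) : (x, q) ∈ Om V S := by
  rw [mem_Om_iff]
  constructor
  · intro z z' hz hx
    exact hq _ (h.hV z z' hz) fun y hy => (mem_Om_iff.1 (hA y hy)).1 z z' hz hx
  · intro w w' hw hx
    exact hq _ (isHalfSpace_side hw.1.symm) fun y hy => (mem_Om_iff.1 (hA y hy)).2 w w' hw hx

/-- A slice of `Om V S` contains no two distinct non-separated points.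
PROOF. If `a ≠ b`, `NonSeparated a b`, then `NS a b` and `NS b a`; `a ∈ Cc a b` (`self_mem_Cc`) gives
`x ∈ S a b`, `b ∈ Cc b a` gives `x ∈ S b a`, contradicting `h.dS`. -/
theorem slice_sep {V : X → X → Set Y} {S : Y → Y → Set X} (h : Cuts V S) {x : X} {a b : Y}
    (ha : (x, a) ∈ Om V S) (hb : (x, b) ∈ Om V S) (hab : NonSeparated a b) : a = b := by
  by_contra hne
  have hns : NS a b := ⟨hne, hab⟩
  have h1 : x ∈ S a b := ha.2 a b hns self_mem_Cc
  have h2 : x ∈ S b a := hb.2 b a hns.symm self_mem_Cc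
  exact Set.disjoint_left.1 (h.dS a b hns) h1 h2

/-- PROOF. `isPreconnected_of_forall_pair`: let `(x, y₁), (x, y₂) ∈ interior (Om V S)`. There are open
boxes `N × M₁ ∋ (x, y₁)`, `N' × M₂ ∋ (x, y₂)` in `Om V S`; shrink `M₁`, `M₂` to be open and
preconnected (locally connected space, or chart intervals) and replace `N, N'` by `N ∩ N'`.
`hQ` of `hull` (HullB) for `N₁ := M₁`, `N₂ := M₂` holds by `hull_subset_slice` and `slice_sep`. Get
`P` open, preconnected, `M₁, M₂ ⊆ P ⊆ Qh (M₁ ∪ M₂)`. For every `x' ∈ N ∩ N'`: `M₁ ∪ M₂` is in the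
slice at `x'`, so `P ⊆ Qh (M₁ ∪ M₂)` is in the slice at `x'`: the open set `(N ∩ N') ×ˢ P` is
contained in `Om V S`, hence in its interior. So `P` is a preconnected subset of the slice of
`interior (Om V S)` at `x` and contains `y₁`, `y₂`. -/
theorem isPreconnected_slice {V : X → X → Set Y} {S : Y → Y → Set X} (h : Cuts V S) (x : X) :
    IsPreconnected {y | (x, y) ∈ interior (Om V S)} := by
  have box : ∀ y, (x, y) ∈ interior (Om V S) → ∃ (N : Set X) (M : Set Y), IsOpen N ∧ x ∈ N ∧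
      IsOpen M ∧ IsPreconnected M ∧ y ∈ M ∧ N ×ˢ M ⊆ Om V S := by
    intro y hy
    obtain ⟨N, M, hN, hxN, hM, hyM, hsub⟩ :=
      mem_nhds_prod_iff'.1 (isOpen_interior.mem_nhds hy)
    refine ⟨N, connectedComponentIn M y, hN, hxN, hM.connectedComponentIn,
      isPreconnected_connectedComponentIn, mem_connectedComponentIn hyM, ?_⟩
    exact (prod_mono Subset.rfl (connectedComponentIn_subset M y)).trans
      (hsub.trans interior_subset)
  refine isPreconnected_of_forall_pair fun y₁ h₁ y₂ h₂ => ?_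
  obtain ⟨N, M₁, hN, hxN, hM₁, pM₁, hy₁, hsub₁⟩ := box y₁ h₁
  obtain ⟨N', M₂, hN', hxN', hM₂, pM₂, hy₂, hsub₂⟩ := box y₂ h₂
  have hslice : ∀ x' ∈ N ∩ N', ∀ q ∈ Qh (M₁ ∪ M₂), (x', q) ∈ Om V S := by
    intro x' hx' q hq
    refine hull_subset_slice h (A := M₁ ∪ M₂) ?_ hq
    rintro y (hy | hy)
    · exact hsub₁ ⟨hx'.1, hy⟩
    · exact hsub₂ ⟨hx'.2, hy⟩
  obtain ⟨P, oP, pP, hP₁, hP₂, hPQ⟩ := hull hM₁ pM₁ hM₂ pM₂ hy₁ hy₂ fun a ha b hb hab =>
    slice_sep h (hslice x ⟨hxN, hxN'⟩ a ha) (hslice x ⟨hxN, hxN'⟩ b hb) hab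
  have hint : (N ∩ N') ×ˢ P ⊆ interior (Om V S) := by
    refine interior_maximal ?_ ((hN.inter hN').prod oP)
    rintro ⟨x', q⟩ ⟨hx', hq⟩
    exact hslice x' hx' q (hPQ hq)
  exact ⟨P, fun y hy => hint ⟨⟨hxN, hxN'⟩, hy⟩, hP₁ hy₁, hP₂ hy₂, pP⟩

/-- PROOF. `isOpen`: `isOpen_interior`. `fst x`: open (preimage of an open set under
`y ↦ (x, y)`), `isPreconnected_slice`, nonempty by `hx`, `sep` by `slice_sep` (`interior_subset`).
`snd y`: the same for `h.swap`, with `mem_interior_Om_swap` (rewrite the set). -/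
theorem slices_interior {V : X → X → Set Y} {S : Y → Y → Set X} (h : Cuts V S)
    (hx : ∀ x, ∃ y, (x, y) ∈ interior (Om V S)) (hy : ∀ y, ∃ x, (x, y) ∈ interior (Om V S)) :
    Slices (interior (Om V S)) := by
  refine ⟨isOpen_interior, fun x => ⟨?_, isPreconnected_slice h x, hx x, ?_⟩,
    fun y => ⟨?_, ?_, hy y, ?_⟩⟩
  · exact isOpen_interior.preimage (Continuous.prodMk_right x)
  · intro a ha b hb hab
    exact slice_sep h (interior_subset ha) (interior_subset hb) hab
  · exact isOpen_interior.preimage (Continuous.prodMk_left y)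
  · have hp := isPreconnected_slice h.swap y
    have he : {x | (y, x) ∈ interior (Om S V)} = {x | (x, y) ∈ interior (Om V S)} := by
      ext x
      exact mem_interior_Om_swap
    rwa [he] at hp
  · intro a ha b hb hab
    exact slice_sep h.swap (mem_Om_swap.2 (interior_subset ha))
      (mem_Om_swap.2 (interior_subset hb)) hab

end Pool.Agent.LSP
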