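import Pool.Agent.LSP.Plane
import Pool.Agent.LSP.SliceOf
import Pool.Agent.LSP.Fin
import Pool.Agent.LSP.Pairwise
import Pool.Agent.LSP.NecB
import Pool.Agent.LSP.Real

/-!
# LSP module Main: the criterion
-/

open Set Topology Filter

namespace Pool.Agent.LSP

open Pool.Agent.H86.Bifol

variable {X Y : Type*} [TopologicalSpace X] [TopologicalSpace Y] [SCM X] [SCM Y]

/-- Slices give a realization. -/
theorem realized_of_slices [SecondCountableTopology X] [SecondCountableTopology Y]
    {Ω : Set (X × Y)} (h : Slices Ω) : Realized X Y := by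
  obtain ⟨Ψ⟩ := plane h
  exact realized_of_homeo h Ψ.symm

/-- Realized pairs are the pairs with line slices. -/
theorem realized_iff_slices [SecondCountableTopology X] [SecondCountableTopology Y] :
    Realized X Y ↔ ∃ Ω : Set (X × Y), Slices Ω := by
  constructor
  · intro h
    obtain ⟨V, S, hc, hx, hy⟩ := cuts_of_realized h
    exact ⟨_, slices_interior hc hx hy⟩
  · rintro ⟨Ω, h⟩
    exact realized_of_slices h

/-- **The criterion, all pairs.** -/
theorem realized_iff [SecondCountableTopology X] [SecondCountableTopology Y] :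
    Realized X Y ↔ ∃ (V : X → X → Set Y) (S : Y → Y → Set X), Cuts V S ∧
      (∀ x, ∃ y, (x, y) ∈ interior (Om V S)) ∧ ∀ y, ∃ x, (x, y) ∈ interior (Om V S) := by
  constructor
  · exact cuts_of_realized
  · rintro ⟨V, S, h, hx, hy⟩
    exact realized_of_slices (slices_interior h hx hy)

/-- **Necessity of the pairwise conditions, all pairs.** -/
theorem compat_of_realized (h : Realized X Y) :
    ∃ (V : X → X → Set Y) (S : Y → Y → Set X), Compat V S := by
  obtain ⟨V, S, hc, hx, hy⟩ := cuts_of_realized h
  refine ⟨V, S, compat_of_slices hc (fun x => ?_) (fun y => ?_)⟩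
  · obtain ⟨y, hy⟩ := hx x
    exact ⟨y, interior_subset hy⟩
  · obtain ⟨x, hx⟩ := hy y
    exact ⟨x, interior_subset hx⟩

/-- **The finite criterion.** -/
theorem realized_iff_of_finType [SecondCountableTopology X] [SecondCountableTopology Y]
    (hX : FinType X) (hY : FinType Y) :
    Realized X Y ↔ ∃ (V : X → X → Set Y) (S : Y → Y → Set X), Compat V S := by
  constructor
  · exact compat_of_realized
  · rintro ⟨V, S, h⟩
    obtain ⟨hx, hy⟩ := exists_interior hX hY h
    exact realized_of_slices (slices_interior h.toCuts hx hy)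

end Pool.Agent.LSP
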