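import Pool.Agent.LSP.Defs

open Set Topology Filter

namespace Pool.Agent.LSP

open Pool.Agent.H86.Bifol

variable {X Y : Type*} [TopologicalSpace X] [TopologicalSpace Y] [SCM X] [SCM Y]

theorem exists_cut {F G : Foliation} (hFG : Transverse F G) (L : F.LeafSpace ≃ₜ X)
    (L' : G.LeafSpace ≃ₜ Y) {z z' : X} (hz : NS z z') :
    ∃ K K' : Set Y, IsHalfSpace K ∧ IsHalfSpace K' ∧ Disjoint K K' ∧
      (∀ p, L (F.proj p) ∈ Cc z z' → L' (G.proj p) ∈ K) ∧
      (∀ p, L (F.proj p) ∈ Cc z' z → L' (G.proj p) ∈ K') := by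
  set π : ℝ × ℝ → X := fun p => L (F.proj p) with hπ
  set π' : ℝ × ℝ → Y := fun p => L' (G.proj p) with hπ'
  have hπc : Continuous π := L.continuous.comp F.continuous_proj
  have hπ'c : Continuous π' := L'.continuous.comp G.continuous_proj
  have hπo : IsOpenMap π := L.isOpenMap.comp F.isOpenMap_proj
  have hπ'o : IsOpenMap π' := L'.isOpenMap.comp G.isOpenMap_proj
  have hπs : Function.Surjective π := L.surjective.comp Quotient.mk_surjective
  have hfib : ∀ l, IsPreconnected (π ⁻¹' {l}) := by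
    intro l
    have : π ⁻¹' {l} = F.proj ⁻¹' {L.symm l} := by
      ext p
      simp only [hπ, mem_preimage, mem_singleton_iff]
      exact L.eq_symm_apply.symm
    rw [this]
    exact Foliation.isPreconnected_leaf F _
  have hfib' : ∀ l, IsPreconnected (π' ⁻¹' {l}) := by
    intro l
    have : π' ⁻¹' {l} = G.proj ⁻¹' {L'.symm l} := by
      ext p
      simp only [hπ', mem_preimage, mem_singleton_iff]
      exact L'.eq_symm_apply.symm
    rw [this]
    exact Foliation.isPreconnected_leaf G _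
  -- images of saturated sets
  have hopen : ∀ C : Set X, IsOpen (π' '' (π ⁻¹' C)) := by
    intro C
    rw [isOpen_iff_mem_nhds]
    rintro _ ⟨q, hq, rfl⟩
    obtain ⟨V, -, hVo, hqV, hV⟩ := hFG.exists_small (p := q) (W := univ) univ_mem
    refine Filter.mem_of_superset ((hπ'o V hVo).mem_nhds ⟨q, hqV, rfl⟩) ?_
    rintro _ ⟨r, hr, rfl⟩
    obtain ⟨s, hs, h1, h2⟩ := hV q hqV r hr
    refine ⟨s, ?_, ?_⟩
    · change L (F.proj s) ∈ C
      rw [h1]
      exact hq
    · change L' (G.proj s) = L' (G.proj r)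
      rw [h2]
  have hpre : ∀ a b : X, IsPreconnected (π' '' (π ⁻¹' Cc a b)) := fun a b =>
    (isPreconnected_preimage hπo hπs hfib isPreconnected_Cc).image _ hπ'c.continuousOn
  -- a leaf of `G` does not meet both
  have hside : ∀ a b : X, NS a b → ∀ p p', π' p = π' p' → π p ∈ Cc a b → π p' ∈ Cc b a →
      ∃ q, π q = a ∧ π' q = π' p := by
    intro a b hab p p' hpp hp hp'
    by_contra hcon
    push Not at hcon
    set I := π '' (π' ⁻¹' {π' p}) with hI
    have hIp : IsPreconnected I := (hfib' _).image _ hπc.continuousOn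
    have haI : a ∉ I := by
      rintro ⟨q, hq, hqa⟩
      exact hcon q hqa hq
    have hpI : π p ∈ I := ⟨p, rfl, rfl⟩
    have hp'I : π p' ∈ I := ⟨p', hpp.symm, rfl⟩
    have h1 : Cc b a ⊆ side a b := by
      refine subset_side isPreconnected_Cc ?_ self_mem_Cc
      intro h
      exact h (mem_side hab.1)
    have h2 : I ⊆ side a (π p') := subset_side hIp haI hp'I
    have h3 : π p ∈ side a b := mem_side_trans (h2 hpI) (h1 hp')
    exact hp h3
  have hdisj : Disjoint (π' '' (π ⁻¹' Cc z z')) (π' '' (π ⁻¹' Cc z' z)) := by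
    rw [Set.disjoint_left]
    rintro _ ⟨p, hp, rfl⟩ ⟨p', hp', hpp⟩
    obtain ⟨q, hq, hq'⟩ := hside z z' hz p p' hpp.symm hp hp'
    obtain ⟨r, hr, hr'⟩ := hside z' z hz.symm p' p hpp hp' hp
    have h1 : F.proj q ≠ F.proj r := by
      intro h
      refine hz.1 ?_
      rw [← hq, ← hr]
      simp only [hπ, h]
    refine noncross hFG SCM.charts L h1 ?_ (L'.injective (hq'.trans (hpp.symm.trans hr'.symm)))
    have e1 : L (F.proj q) = z := hq
    have e2 : L (F.proj r) = z' := hr
    rw [e1, e2]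
    exact hz.2
  obtain ⟨q, hq⟩ := hπs z
  obtain ⟨q', hq'⟩ := hπs z'
  set A := π' '' (π ⁻¹' Cc z z') with hA
  set A' := π' '' (π ⁻¹' Cc z' z) with hA'
  have hyA : π' q ∈ A := ⟨q, by rw [mem_preimage, hq]; exact self_mem_Cc, rfl⟩
  have hgA' : π' q' ∈ A' := ⟨q', by rw [mem_preimage, hq']; exact self_mem_Cc, rfl⟩
  have hgA : π' q' ∉ A := fun h => Set.disjoint_left.1 hdisj h hgA'
  obtain ⟨h, -, hcl, hhA, hor⟩ := exit (A := univ) (W := A) isPreconnected_univ isOpen_univ
    (hpre z z') (hopen _) (subset_univ _) (mem_univ (π' q')) hgA hyA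
  have hhA' : h ∉ A' := by
    intro hh
    obtain ⟨x, hx, hx'⟩ := mem_closure_iff.1 hcl _ (hopen (Cc z' z)) hh
    exact Set.disjoint_left.1 hdisj hx' hx
  have hsep : π' q ∉ side h (π' q') := by
    rcases hor with rfl | h'
    · exact absurd hgA' hhA'
    · exact h'
  have hne : π' q ≠ h := by
    intro hh
    exact hhA (hh ▸ hyA)
  have hne' : π' q' ≠ h := by
    intro hh
    exact hhA' (hh ▸ hgA')
  refine ⟨side h (π' q), side h (π' q'), ⟨h, _, hne, rfl⟩, ⟨h, _, hne', rfl⟩,
    disjoint_side hsep, ?_, ?_⟩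
  · intro p hp
    exact subset_side (hpre z z') hhA hyA ⟨p, hp, rfl⟩
  · intro p hp
    exact subset_side (hpre z' z) hhA' hgA' ⟨p, hp, rfl⟩

end Pool.Agent.LSP
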