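import Pool.Agent.LLO.Defs

set_option autoImplicit false

/-!
# MP_52aa73_nt (sign patterns of Liouville's function): logarithmic averages

`LS g Z = ∑_{n ≤ Z} g n / n`; `Null g`: `LS g Z = o(log Z)`.
-/

open Finset

namespace Pool.Agent.LSP

open Pool.Agent.LLO

/-- the logarithmic sum of `g` -/
noncomputable def LS (g : ℕ → ℝ) (Z : ℕ) : ℝ := ∑ n ∈ Icc 1 Z, g n / n

/-- the logarithmic sums of `g` are `o(log Z)` -/
def Null (g : ℕ → ℝ) : Prop :=
  ∀ ε : ℝ, 0 < ε → ∃ Z0 : ℕ, ∀ Z : ℕ, Z0 ≤ Z → |LS g Z| ≤ ε * Real.log Z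

theorem LS_add (f g : ℕ → ℝ) (Z : ℕ) : LS (fun n => f n + g n) Z = LS f Z + LS g Z := by
  unfold LS
  rw [← sum_add_distrib]
  exact sum_congr rfl fun n _ => by rw [add_div]

theorem LS_mul (c : ℝ) (f : ℕ → ℝ) (Z : ℕ) : LS (fun n => c * f n) Z = c * LS f Z := by
  unfold LS
  rw [mul_sum]
  exact sum_congr rfl fun n _ => by rw [mul_div_assoc]

theorem LS_succ (f : ℕ → ℝ) (Z : ℕ) : LS f (Z + 1) = LS f Z + f (Z + 1) / ((Z : ℝ) + 1) := by
  unfold LS
  rw [sum_Icc_succ_top (by omega)]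
  push_cast
  rfl

theorem LS_congr {f g : ℕ → ℝ} (h : ∀ n, 1 ≤ n → f n = g n) (Z : ℕ) : LS f Z = LS g Z := by
  unfold LS
  exact sum_congr rfl fun n hn => by rw [h n (mem_Icc.1 hn).1]

theorem LS_mono {f g : ℕ → ℝ} (h : ∀ n, 1 ≤ n → f n ≤ g n) (Z : ℕ) : LS f Z ≤ LS g Z := by
  unfold LS
  exact sum_le_sum fun n hn => div_le_div_of_nonneg_right (h n (mem_Icc.1 hn).1) (Nat.cast_nonneg n)

theorem Null.add {f g : ℕ → ℝ} (hf : Null f) (hg : Null g) : Null (fun n => f n + g n) := by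
  intro ε hε
  obtain ⟨Z1, h1⟩ := hf (ε / 2) (by positivity)
  obtain ⟨Z2, h2⟩ := hg (ε / 2) (by positivity)
  refine ⟨max Z1 Z2, fun Z hZ => ?_⟩
  rw [LS_add]
  have a := h1 Z ((le_max_left _ _).trans hZ)
  have b := h2 Z ((le_max_right _ _).trans hZ)
  calc |LS f Z + LS g Z| ≤ |LS f Z| + |LS g Z| := abs_add_le _ _
    _ ≤ ε / 2 * Real.log Z + ε / 2 * Real.log Z := add_le_add a b
    _ = ε * Real.log Z := by ring

theorem Null.mul {f : ℕ → ℝ} (hf : Null f) (c : ℝ) : Null (fun n => c * f n) := by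
  intro ε hε
  obtain ⟨Z1, h1⟩ := hf (ε / (|c| + 1)) (by positivity)
  refine ⟨max Z1 1, fun Z hZ => ?_⟩
  have a := h1 Z ((le_max_left _ _).trans hZ)
  have hZ1 : 1 ≤ Z := (le_max_right _ _).trans hZ
  have hl : 0 ≤ Real.log Z := Real.log_natCast_nonneg Z
  rw [LS_mul, abs_mul]
  calc |c| * |LS f Z| ≤ |c| * (ε / (|c| + 1) * Real.log Z) := mul_le_mul_of_nonneg_left a (abs_nonneg c)
    _ = (|c| / (|c| + 1)) * (ε * Real.log Z) := by ring
    _ ≤ 1 * (ε * Real.log Z) := by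
        refine mul_le_mul_of_nonneg_right ?_ (by positivity)
        rw [div_le_one (by positivity)]
        linarith
    _ = ε * Real.log Z := one_mul _

theorem Null.congr {f g : ℕ → ℝ} (hf : Null f) (h : ∀ n, 1 ≤ n → f n = g n) : Null g := by
  intro ε hε
  obtain ⟨Z1, h1⟩ := hf ε hε
  exact ⟨Z1, fun Z hZ => by rw [← LS_congr h]; exact h1 Z hZ⟩

theorem null_zero : Null (fun _ => 0) := by
  intro ε hε
  refine ⟨1, fun Z hZ => ?_⟩
  have : LS (fun _ => 0) Z = 0 := by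
    unfold LS; exact sum_eq_zero fun n _ => by simp
  rw [this, abs_zero]
  have hl : 0 ≤ Real.log Z := Real.log_natCast_nonneg Z
  positivity

/-- bounded logarithmic sums are `o(log Z)` -/
theorem null_of_bdd {g : ℕ → ℝ} {C : ℝ} (h : ∀ Z, |LS g Z| ≤ C) : Null g := by
  intro ε hε
  refine ⟨⌈Real.exp (C / ε)⌉₊, fun Z hZ => (h Z).trans ?_⟩
  have h1 : Real.exp (C / ε) ≤ Z := (Nat.le_ceil _).trans (by exact_mod_cast hZ)
  have h0 : (0 : ℝ) < Z := (Real.exp_pos _).trans_le h1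
  have h2 : C / ε ≤ Real.log Z := (Real.le_log_iff_exp_le h0).2 h1
  rw [div_le_iff₀ hε] at h2
  linarith

/-- shift invariance -/
theorem null_shift {p : ℕ → ℝ} {B : ℝ} (hp : ∀ n, |p n| ≤ B) : Null (fun n => p (n + 1) - p n) := by
  have hB : 0 ≤ B := (abs_nonneg _).trans (hp 0)
  have key : ∀ Z : ℕ, |LS (fun n => p (n + 1) - p n) Z - p (Z + 1) / ((Z : ℝ) + 1) + p 1| ≤
      B * (1 - 1 / ((Z : ℝ) + 1)) := by
    intro Z
    induction Z with
    | zero => simp [LS]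
    | succ Z ih =>
      have hZ : (0 : ℝ) < (Z : ℝ) + 1 := by positivity
      have hZ2 : (0 : ℝ) < (Z : ℝ) + 2 := by positivity
      rw [LS_succ]
      push_cast
      have e : LS (fun n => p (n + 1) - p n) Z + (p (Z + 1 + 1) - p (Z + 1)) / ((Z : ℝ) + 1)
          - p (Z + 1 + 1) / ((Z : ℝ) + 1 + 1) + p 1 =
          (LS (fun n => p (n + 1) - p n) Z - p (Z + 1) / ((Z : ℝ) + 1) + p 1) +
          p (Z + 1 + 1) * (1 / ((Z : ℝ) + 1) - 1 / ((Z : ℝ) + 1 + 1)) := by ring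
      rw [e]
      have hd : 0 ≤ 1 / ((Z : ℝ) + 1) - 1 / ((Z : ℝ) + 1 + 1) := by
        rw [sub_nonneg]
        exact one_div_le_one_div_of_le hZ (by linarith)
      refine (abs_add_le _ _).trans ?_
      rw [abs_mul, abs_of_nonneg hd]
      have h3 := mul_le_mul_of_nonneg_right (hp (Z + 1 + 1)) hd
      calc _ ≤ B * (1 - 1 / ((Z : ℝ) + 1)) + B * (1 / ((Z : ℝ) + 1) - 1 / ((Z : ℝ) + 1 + 1)) :=
            add_le_add ih h3
        _ = _ := by ring
  refine null_of_bdd (C := 3 * B) fun Z => ?_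
  have h1 := key Z
  have hZ : (0 : ℝ) < (Z : ℝ) + 1 := by positivity
  have h2 : |p (Z + 1) / ((Z : ℝ) + 1)| ≤ B := by
    rw [abs_div, abs_of_pos hZ]
    refine (div_le_self (abs_nonneg _) (by linarith [Nat.cast_nonneg (α := ℝ) Z])).trans (hp _)
  have h3 : |p 1| ≤ B := hp 1
  have h4 : B * (1 - 1 / ((Z : ℝ) + 1)) ≤ B := by
    have : 0 ≤ 1 / ((Z : ℝ) + 1) := by positivity
    nlinarith
  rw [abs_le] at h1 h2 h3 ⊢
  constructor <;> linarith [h1.1, h1.2, h2.1, h2.2, h3.1, h3.2]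

/-- `∑_{Z/p < m ≤ Z} 1/m ≤ p` -/
private theorem tail_le (p Z : ℕ) (hp : 1 ≤ p) : ∑ m ∈ Ioc (Z / p) Z, 1 / (m : ℝ) ≤ p := by
  have h1 : ∀ m ∈ Ioc (Z / p) Z, 1 / (m : ℝ) ≤ 1 / ((Z / p : ℕ) + 1 : ℝ) := by
    intro m hm
    rw [mem_Ioc] at hm
    refine one_div_le_one_div_of_le (by positivity) ?_
    exact_mod_cast hm.1
  refine (sum_le_sum h1).trans ?_
  rw [sum_const, Nat.card_Ioc, nsmul_eq_mul, mul_one_div, div_le_iff₀ (by positivity)]
  have h2 : Z < p * (Z / p + 1) := by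
    have := Nat.lt_mul_div_succ Z (by omega : 0 < p)
    exact this
  have h3 : ((Z - Z / p : ℕ) : ℝ) ≤ Z := by exact_mod_cast Nat.sub_le _ _
  have h4 : (Z : ℝ) ≤ p * ((Z / p : ℕ) + 1) := by exact_mod_cast h2.le
  linarith

/-- dilation by `p` -/
theorem null_dil {h : ℕ → ℝ} {B : ℝ} (hh : ∀ n, |h n| ≤ B) (p : ℕ) (hp : 1 ≤ p) :
    Null (fun n => (if p ∣ n then p * h n else 0) - h (p * n)) := by
  have hB : 0 ≤ B := (abs_nonneg _).trans (hh 0)
  have hp0 : (0 : ℝ) < p := by exact_mod_cast hp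
  have e1 : ∀ Z, ∑ n ∈ Icc 1 Z, (if p ∣ n then (p : ℝ) * h n else 0) / n = ∑ m ∈ Icc 1 (Z / p), h (p * m) / m := by
    intro Z
    have : ∀ n ∈ Icc 1 Z, (if p ∣ n then (p : ℝ) * h n else 0) / n = if p ∣ n then (p : ℝ) * h n / n else 0 := by
      intro n _
      split_ifs <;> simp
    rw [sum_congr rfl this, ← sum_filter]
    symm
    refine sum_nbij' (fun m => p * m) (fun n => n / p) ?_ ?_ ?_ ?_ ?_
    · intro m hm
      rw [mem_Icc] at hm
      rw [mem_filter, mem_Icc]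
      refine ⟨⟨Nat.one_le_iff_ne_zero.2 (Nat.mul_ne_zero (by omega) (by omega)), ?_⟩, dvd_mul_right p m⟩
      calc p * m ≤ p * (Z / p) := Nat.mul_le_mul_left p hm.2
        _ ≤ Z := Nat.mul_div_le Z p
    · intro n hn
      rw [mem_filter, mem_Icc] at hn
      rw [mem_Icc]
      exact ⟨Nat.div_pos (Nat.le_of_dvd (by omega) hn.2) (by omega), Nat.div_le_div_right hn.1.2⟩
    · intro m _
      exact Nat.mul_div_cancel_left m (by omega)
    · intro n hn
      rw [mem_filter] at hn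
      exact Nat.mul_div_cancel' hn.2
    · intro m hm
      rw [mem_Icc] at hm
      have hm0 : (m : ℝ) ≠ 0 := by
        have : m ≠ 0 := by omega
        exact_mod_cast this
      push_cast
      field_simp
  refine null_of_bdd (C := B * p) fun Z => ?_
  have e2 : LS (fun n => (if p ∣ n then (p : ℝ) * h n else 0) - h (p * n)) Z =
      -∑ m ∈ Ioc (Z / p) Z, h (p * m) / m := by
    unfold LS
    have : ∀ n ∈ Icc 1 Z, ((if p ∣ n then (p : ℝ) * h n else 0) - h (p * n)) / (n : ℝ) =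
        (if p ∣ n then (p : ℝ) * h n else 0) / n - h (p * n) / n := fun n _ => sub_div _ _ _
    rw [sum_congr rfl this, sum_sub_distrib, e1]
    have hsub : Icc 1 (Z / p) ⊆ Icc 1 Z := Icc_subset_Icc_right (Nat.div_le_self Z p)
    rw [← sum_sdiff hsub]
    have : Icc 1 Z \ Icc 1 (Z / p) = Ioc (Z / p) Z := by
      ext m
      simp only [mem_sdiff, mem_Icc, mem_Ioc]
      constructor
      · rintro ⟨h1, h2⟩
        exact ⟨by omega, h1.2⟩
      · rintro ⟨h1, h2⟩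
        exact ⟨⟨(Nat.zero_le _).trans_lt h1, h2⟩, fun h3 => absurd h3.2 (not_le.2 h1)⟩
    rw [this]
    ring
  rw [e2, abs_neg]
  refine (abs_sum_le_sum_abs _ _).trans ?_
  calc ∑ m ∈ Ioc (Z / p) Z, |h (p * m) / m| ≤ ∑ m ∈ Ioc (Z / p) Z, B * (1 / (m : ℝ)) := by
        refine sum_le_sum fun m _ => ?_
        rw [abs_div, Nat.abs_cast, mul_one_div]
        exact div_le_div_of_nonneg_right (hh _) (Nat.cast_nonneg m)
    _ = B * ∑ m ∈ Ioc (Z / p) Z, 1 / (m : ℝ) := by rw [mul_sum]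
    _ ≤ B * p := mul_le_mul_of_nonneg_left (tail_le p Z hp) hB

/-- `log Z ≤ ∑_{n ≤ Z} 1/n` -/
theorem log_le_LS (Z : ℕ) : Real.log Z ≤ LS (fun _ => 1) Z := by
  have h := log_add_one_le_harmonic Z
  have h2 : ∀ Z : ℕ, ((harmonic Z : ℚ) : ℝ) = LS (fun _ => 1) Z := by
    intro Z
    induction Z with
    | zero => simp [LS]
    | succ Z ih =>
      rw [harmonic_succ, LS_succ, ← ih]
      push_cast
      rw [one_div]
  rw [h2] at h
  rcases Nat.eq_zero_or_pos Z with rfl | hZ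
  · simp [LS]
  · refine le_trans (Real.log_le_log (by exact_mod_cast hZ) ?_) h
    push_cast
    linarith

end Pool.Agent.LSP
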