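import Pool.Agent.LSP.Defs

open Set Topology Filter

namespace Pool.Agent.LSP

open Pool.Agent.H86.Bifol

variable {X Y : Type*} [TopologicalSpace X] [TopologicalSpace Y] [SCM X] [SCM Y]

theorem locallyCompactSpace_scm (X : Type*) [TopologicalSpace X] [SCM X] :
    LocallyCompactSpace X := by
  refine ⟨fun x n hn => ?_⟩
  obtain ⟨e, hx, he⟩ := exists_chart x
  have h1 : e.symm ⁻¹' n ∈ 𝓝 (e x) := by
    have := e.continuousAt_symm (e.map_source hx)
    rw [ContinuousAt, e.left_inv hx] at this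
    exact this hn
  obtain ⟨r, hr, hrn⟩ := Metric.nhds_basis_closedBall.mem_iff.1 h1
  have hc : ContinuousOn e.symm (Metric.closedBall (e x) r) := by
    refine e.continuousOn_symm.mono ?_
    rw [he]
    exact subset_univ _
  refine ⟨e.symm '' Metric.closedBall (e x) r, ?_, ?_, (isCompact_closedBall _ _).image_of_continuousOn hc⟩
  · refine Filter.mem_of_superset ((isOpen_symm_image he (Metric.isOpen_ball (x := e x) (ε := r))).mem_nhds
      ⟨e x, Metric.mem_ball_self hr, e.left_inv hx⟩) (image_mono Metric.ball_subset_closedBall)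
  · rintro _ ⟨c, hc', rfl⟩
    exact hrn hc'

theorem t2Space_of_slices {Ω : Set (X × Y)} (h : Slices Ω) : T2Space Ω := by
  refine ⟨fun p q hpq => ?_⟩
  by_contra hcon
  apply hpq
  -- all neighbourhoods meet
  have key : ∀ U V : Set (X × Y), IsOpen U → IsOpen V → p.1 ∈ U → q.1 ∈ V →
      (U ∩ V ∩ Ω).Nonempty := by
    intro U V hU hV hp hq
    by_contra hne
    refine hcon ⟨Subtype.val ⁻¹' U, Subtype.val ⁻¹' V, hU.preimage continuous_subtype_val,
      hV.preimage continuous_subtype_val, hp, hq, ?_⟩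
    rw [Set.disjoint_left]
    intro r hr hr'
    exact hne ⟨r.1, ⟨hr, hr'⟩, r.2⟩
  obtain ⟨N, M, hN, hM, hpN, hpM, hNM⟩ := isOpen_prod_iff.1 h.isOpen p.1.1 p.1.2 p.2
  obtain ⟨N', M', hN', hM', hqN', hqM', hNM'⟩ := isOpen_prod_iff.1 h.isOpen q.1.1 q.1.2 q.2
  obtain ⟨⟨x, y⟩, ⟨⟨hxN, hyM⟩, ⟨hxN', hyM'⟩⟩, -⟩ := key (N ×ˢ M) (N' ×ˢ M') (hN.prod hM)
    (hN'.prod hM') ⟨hpN, hpM⟩ ⟨hqN', hqM'⟩
  have hns1 : NonSeparated p.1.1 q.1.1 := by
    intro A B hA hB hpA hqB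
    obtain ⟨⟨a, b⟩, ⟨⟨h1, -⟩, ⟨h2, -⟩⟩, -⟩ := key (A ×ˢ univ) (B ×ˢ univ) (hA.prod isOpen_univ)
      (hB.prod isOpen_univ) ⟨hpA, trivial⟩ ⟨hqB, trivial⟩
    exact ⟨a, h1, h2⟩
  have hns2 : NonSeparated p.1.2 q.1.2 := by
    intro A B hA hB hpA hqB
    obtain ⟨⟨a, b⟩, ⟨⟨-, h1⟩, ⟨-, h2⟩⟩, -⟩ := key (univ ×ˢ A) (univ ×ˢ B) (isOpen_univ.prod hA)
      (isOpen_univ.prod hB) ⟨trivial, hpA⟩ ⟨trivial, hqB⟩
    exact ⟨b, h1, h2⟩
  have e1 : p.1.1 = q.1.1 := (h.snd y).sep _ (hNM (mk_mem_prod hpN hyM)) _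
    (hNM' (mk_mem_prod hqN' hyM')) hns1
  have e2 : p.1.2 = q.1.2 := (h.fst x).sep _ (hNM (mk_mem_prod hxN hpM)) _
    (hNM' (mk_mem_prod hxN' hqM')) hns2
  exact Subtype.ext (Prod.ext e1 e2)

theorem locallyCompactSpace_of_slices {Ω : Set (X × Y)} (h : Slices Ω) :
    LocallyCompactSpace Ω := by
  have := locallyCompactSpace_scm X
  have := locallyCompactSpace_scm Y
  exact h.isOpen.locallyCompactSpace

theorem metrizableSpace_of_slices [SecondCountableTopology X] [SecondCountableTopology Y]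
    {Ω : Set (X × Y)} (h : Slices Ω) : TopologicalSpace.MetrizableSpace Ω := by
  have := t2Space_of_slices h
  have := locallyCompactSpace_of_slices h
  exact TopologicalSpace.metrizableSpace_of_t3_secondCountable Ω

end Pool.Agent.LSP
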