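import Pool.Agent.LSP.Strip
import Pool.Agent.LSP.AbsC
import Pool.Agent.LSP.LimC
import Pool.Agent.LSP.ExhB
import Pool.Agent.LSP.Top

/-!
# LSP module Plane: a set with line slices is a plane
-/

open Set Topology Filter

namespace Pool.Agent.LSP

open Pool.Agent.H86.Bifol

variable {X Y : Type*} [TopologicalSpace X] [TopologicalSpace Y] [SCM X] [SCM Y]
  [SecondCountableTopology X] [SecondCountableTopology Y]

theorem step {Ω : Set (X × Y)} (h : Slices Ω) {Z Z' : Set X} (hZ : IsOpen Z)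
    (hS : StepSet Z Z') (H : OpenPartialHomeomorph Ω (ℝ × ℝ))
    (hs : H.source = {p : Ω | p.1.1 ∈ Z}) (ht : H.target = univ) {K : Set Ω} (hK : IsCompact K)
    (hKZ : K ⊆ {p : Ω | p.1.1 ∈ Z}) :
    ∃ H' : OpenPartialHomeomorph Ω (ℝ × ℝ), H'.source = {p : Ω | p.1.1 ∈ Z'} ∧
      H'.target = univ ∧ EqOn H' H K := by
  rcases hS with rfl | ⟨ℓ, hℓ, hℓZ, rfl⟩
  · exact ⟨H, hs, ht, fun _ _ => rfl⟩
  have := metrizableSpace_of_slices h
  obtain ⟨ψ, hψ, hr, hψ1⟩ := exists_strip h hℓ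
  have hU : IsOpen {p : Ω | p.1.1 ∈ Z} :=
    hZ.preimage (continuous_fst.comp continuous_subtype_val)
  obtain ⟨θ, hθs, hθt, hθK⟩ := absorb hψ hU (fun p => by
    change (ψ p).1.1 ∈ Z ↔ _
    rw [hψ1]
    have : ℓ p.1 ∈ Z ↔ p.1 ∈ ℓ ⁻¹' Z := Iff.rfl
    rw [this, hℓZ]
    rfl) hK hKZ
  refine ⟨θ.trans H, ?_, ?_, ?_⟩
  · rw [OpenPartialHomeomorph.trans_source, hs, hθs]
    ext u
    constructor
    · rintro ⟨hu, -⟩
      rw [hr] at hu
      exact hu
    · intro hu
      have hu' : u ∈ θ.source := by rw [hθs, hr]; exact hu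
      refine ⟨by rw [hr]; exact hu, ?_⟩
      have := θ.map_source hu'
      rw [hθt] at this
      exact this
  · rw [OpenPartialHomeomorph.trans_target, ht, hθt]
    ext v
    simp only [univ_inter, mem_preimage, mem_univ, iff_true]
    have : v ∈ H.target := by rw [ht]; trivial
    have := H.map_target this
    rwa [hs] at this
  · intro u hu
    change H (θ u) = H u
    rw [hθK u hu]

/-- **A set with line slices is a plane.** -/
theorem plane {Ω : Set (X × Y)} (h : Slices Ω) : Nonempty (Ω ≃ₜ ℝ × ℝ) := by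
  have := t2Space_of_slices h
  have := locallyCompactSpace_of_slices h
  obtain ⟨Z, ⟨ℓ₀, hℓ₀, hZ0⟩, hZo, hst, hZc⟩ := exists_exhaustion_rays (X := X)
  have hZm : Monotone Z := monotone_nat_of_le_succ fun n => (hst n).subset
  refine limit (U := fun n => {p : Ω | p.1.1 ∈ Z n})
    (fun n => (hZo n).preimage (continuous_fst.comp continuous_subtype_val))
    (fun m n hmn p hp => hZm hmn hp) (fun p => hZc p.1.1) ?_ ?_
  · obtain ⟨ψ, hψ, hr, hψ1⟩ := exists_strip h hℓ₀
    refine ⟨(hψ.toOpenPartialHomeomorph ψ).symm, ?_, ?_⟩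
    · simp only [OpenPartialHomeomorph.symm_source]
      rw [IsOpenEmbedding.toOpenPartialHomeomorph_target, hr, hZ0]
    · simp only [OpenPartialHomeomorph.symm_target]
      rw [IsOpenEmbedding.toOpenPartialHomeomorph_source]
  · intro n H hs ht K hK hKU
    exact step h (hZo n) (hst n) H hs ht hK hKU

end Pool.Agent.LSP
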