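import Pool.Agent.LSP.Omega0

/-!
# The total space of a family of lines is homeomorphic to the plane
-/

open Set Topology Filter

namespace Pool.Agent.LSP.F0

open Pool.Agent.H86.Bifol

set_option linter.unusedSectionVars false
set_option linter.unusedVariables false

variable {X : Type*} [TopologicalSpace X] [SCM X]

/-- The total space. -/
def Fam.Ω (F : Fam X) : Set (X × ℝ) := {p | p.1 ∈ F.U p.2}

theorem exists_box (F : Fam X) (o : Orientation X) {W : Set (X × ℝ)} (hW : IsOpen W)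
    (hWΩ : W ⊆ F.Ω) {p : X × ℝ} (hp : p ∈ W) :
    ∃ B : Box F o, p.1 ∈ B.e.symm '' Ioo B.α B.β ∧ p.2 ∈ Ioo B.a B.b ∧
      ∀ c ∈ Icc B.α B.β, ∀ x ∈ Ioo B.a B.b, (B.e.symm c, x) ∈ W := by
  obtain ⟨l, x⟩ := p
  obtain ⟨e, hle, hpos⟩ := o.exists_chart l
  have hmem : (fun q : ℝ × ℝ => (e.symm q.1, q.2)) ⁻¹' W ∈ 𝓝 (e l, x) := by
    have h1 : ContinuousAt (fun q : ℝ × ℝ => (e.symm q.1, q.2)) (e l, x) := by
      have h2 : ContinuousAt (fun q : ℝ × ℝ => e.symm q.1) (e l, x) :=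
        ContinuousAt.comp (f := fun q : ℝ × ℝ => q.1) (g := e.symm)
          (e.continuousAt_symm (e.map_source hle)) continuousAt_fst
      exact h2.prodMk continuousAt_snd
    have h3 : ((e.symm (e l), x) : X × ℝ) ∈ W := by rw [e.left_inv hle]; exact hp
    exact h1 (hW.mem_nhds h3)
  rw [nhds_prod_eq, Filter.mem_prod_iff] at hmem
  obtain ⟨A, hA, V, hV, hAV⟩ := hmem
  obtain ⟨a', b', hab, hab'⟩ := mem_nhds_iff_exists_Ioo_subset.1 hA
  obtain ⟨α, hα1, hα2⟩ := exists_between hab.1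
  obtain ⟨β, hβ1, hβ2⟩ := exists_between hab.2
  obtain ⟨a, b, hx, hV'⟩ := mem_nhds_iff_exists_Ioo_subset.1 hV
  have key : ∀ c ∈ Icc α β, ∀ x ∈ Ioo a b, (e.symm c, x) ∈ W := by
    intro c hc x hx
    exact hAV (mk_mem_prod (hab' ⟨lt_of_lt_of_le hα1 hc.1, lt_of_le_of_lt hc.2 hβ2⟩) (hV' hx))
  refine ⟨⟨e, hpos, α, β, a, b, hα2.trans hβ1, hx.1.trans hx.2, ?_⟩, ?_, hx, key⟩
  · rintro x hx _ ⟨c, hc, rfl⟩
    exact hWΩ (key c hc x hx)
  · exact ⟨e l, ⟨hα2, hβ1⟩, e.left_inv hle⟩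

theorem exists_boxes (F : Fam X) (o : Orientation X) [SecondCountableTopology X]
    (hne : F.Ω.Nonempty) :
    ∃ B : ℕ → Box F o, ∀ p ∈ F.Ω, ∃ j, p.1 ∈ (B j).e.symm '' Ioo (B j).α (B j).β ∧
      p.2 ∈ Ioo (B j).a (B j).b := by
  choose B hB1 hB2 hB3 using fun p : F.Ω => exists_box F o F.isOpen subset_rfl p.2
  set s : F.Ω → Set (X × ℝ) := fun p =>
    ((B p).e.symm '' Ioo (B p).α (B p).β) ×ˢ Ioo (B p).a (B p).b with hs
  have hso : ∀ p, IsOpen (s p) := fun p =>
    (isOpen_symm_image (B p).pos.tar isOpen_Ioo).prod isOpen_Ioo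
  obtain ⟨T, hT, hTU⟩ := TopologicalSpace.isOpen_iUnion_countable s hso
  have hcov : ∀ p ∈ F.Ω, ∃ q ∈ T, p ∈ s q := by
    intro p hp
    have h1 : p ∈ ⋃ q, s q := mem_iUnion.2 ⟨⟨p, hp⟩, hB1 ⟨p, hp⟩, hB2 ⟨p, hp⟩⟩
    rw [← hTU] at h1
    obtain ⟨q, hq, hpq⟩ := mem_iUnion₂.1 h1
    exact ⟨q, hq, hpq⟩
  obtain ⟨p₀, hp₀⟩ := hne
  obtain ⟨q₀, hq₀, -⟩ := hcov p₀ hp₀
  obtain ⟨f, hf⟩ := hT.exists_eq_range ⟨q₀, hq₀⟩
  refine ⟨fun n => B (f n), fun p hp => ?_⟩
  obtain ⟨q, hq, hpq⟩ := hcov p hp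
  rw [hf] at hq
  obtain ⟨n, rfl⟩ := hq
  exact ⟨n, hpq.1, hpq.2⟩

section height

variable {F : Fam X} {o : Orientation X} (B : ℕ → Box F o)

/-- weights -/
noncomputable def wt (j : ℕ) : ℝ := (1 / 2) ^ j

theorem wt_pos (j : ℕ) : 0 < wt j := by unfold wt; positivity

theorem summable_wt : Summable wt := summable_geometric_two

/-- total weight at `x` -/
noncomputable def mass (x : ℝ) : ℝ := ∑' j, wt j * (B j).χ x

/-- the height function -/
noncomputable def height (p : X × ℝ) : ℝ := ∑' j, wt j * ((B j).χ p.2 * (B j).θ p.1)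

theorem summable_mass (x : ℝ) : Summable (fun j => wt j * (B j).χ x) := by
  refine Summable.of_nonneg_of_le (fun j => mul_nonneg (wt_pos j).le (Box.χ_nonneg x))
    (fun j => ?_) summable_wt
  exact mul_le_of_le_one_right (wt_pos j).le (Box.χ_le x)

theorem abs_term_le (j : ℕ) (p : X × ℝ) :
    |wt j * ((B j).χ p.2 * (B j).θ p.1)| ≤ wt j := by
  rw [abs_mul, abs_of_pos (wt_pos j), abs_mul, abs_of_nonneg (Box.χ_nonneg p.2)]
  refine mul_le_of_le_one_right (wt_pos j).le ?_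
  refine mul_le_one₀ (Box.χ_le _) (abs_nonneg _) ?_
  rw [abs_le]
  exact ⟨(B j).le_θ _, (B j).θ_le _⟩

theorem summable_height (p : X × ℝ) : Summable (fun j => wt j * ((B j).χ p.2 * (B j).θ p.1)) :=
  Summable.of_norm_bounded summable_wt (fun j => abs_term_le B j p)

theorem continuous_mass : Continuous (mass B) := by
  refine continuous_tsum (fun j => continuous_const.mul Box.continuous_χ) summable_wt ?_
  intro j x
  rw [Real.norm_eq_abs, abs_of_nonneg (mul_nonneg (wt_pos j).le (Box.χ_nonneg x))]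
  exact mul_le_of_le_one_right (wt_pos j).le (Box.χ_le x)

theorem continuousOn_height : ContinuousOn (height B) F.Ω := by
  refine continuousOn_tsum ?_ summable_wt (fun j p _ => abs_term_le B j p)
  rintro j ⟨l, x⟩ hp
  apply ContinuousAt.continuousWithinAt
  refine continuousAt_const.mul ?_
  by_cases hx : x ∈ Ioo (B j).a (B j).b
  · have h1 : ContinuousAt (fun p : X × ℝ => (B j).χ p.2) (l, x) :=
      (Box.continuous_χ.comp continuous_snd).continuousAt
    have h2 : ContinuousAt (fun p : X × ℝ => (B j).θ p.1) (l, x) :=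
      ContinuousAt.comp (f := fun p : X × ℝ => p.1) (g := (B j).θ) (Box.continuousAt_θ hx hp)
        continuousAt_fst
    exact h1.mul h2
  · have hχ : (B j).χ x = 0 := by
      by_contra h
      exact hx (Box.mem_of_χ_ne h)
    have h1 : Tendsto (fun p : X × ℝ => (B j).χ p.2) (𝓝 (l, x)) (𝓝 0) := by
      have : Continuous (fun p : X × ℝ => (B j).χ p.2) := Box.continuous_χ.comp continuous_snd
      have h2 := this.tendsto (l, x)
      simpa only [hχ] using h2
    rw [ContinuousAt]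
    simp only [hχ, zero_mul]
    refine squeeze_zero_norm (fun p => ?_) h1
    rw [norm_mul, Real.norm_eq_abs, Real.norm_eq_abs, abs_of_nonneg (Box.χ_nonneg _)]
    refine mul_le_of_le_one_right (Box.χ_nonneg _) ?_
    rw [abs_le]
    exact ⟨(B j).le_θ _, (B j).θ_le _⟩

variable {B} (hB : ∀ p ∈ F.Ω, ∃ j, p.1 ∈ (B j).e.symm '' Ioo (B j).α (B j).β ∧
      p.2 ∈ Ioo (B j).a (B j).b)

include hB

theorem mass_pos {x : ℝ} (hx : (F.U x).Nonempty) : 0 < mass B x := by
  obtain ⟨l, hl⟩ := hx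
  obtain ⟨j, -, hj⟩ := hB (l, x) hl
  exact (summable_mass B x).tsum_pos
    (fun j => mul_nonneg (wt_pos j).le (Box.χ_nonneg x)) j
    (mul_pos (wt_pos j) (Box.χ_pos hj))

theorem height_lt {x : ℝ} {l k : X} (hl : l ∈ F.U x) (hk : k ∈ F.U x) (hlk : k ∈ o.up l) :
    height B (l, x) < height B (k, x) := by
  obtain ⟨j, hj1, hj2⟩ := hB (l, x) hl
  refine Summable.tsum_lt_tsum (i := j) (fun i => ?_) ?_ (summable_height B _) (summable_height B _)
  · refine mul_le_mul_of_nonneg_left ?_ (wt_pos i).le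
    by_cases hi : (B i).χ x = 0
    · simp [hi]
    · exact mul_le_mul_of_nonneg_left (Box.θ_mono (Box.mem_of_χ_ne hi) hl hk hlk)
        (Box.χ_nonneg x)
  · refine mul_lt_mul_of_pos_left ?_ (wt_pos j)
    exact mul_lt_mul_of_pos_left (Box.θ_lt hj2 hj1 hk hlk) (Box.χ_pos hj2)

theorem height_lt_mass {x : ℝ} {l : X} (hl : l ∈ F.U x) : height B (l, x) < mass B x := by
  obtain ⟨j, hj1, hj2⟩ := hB (l, x) hl
  refine Summable.tsum_lt_tsum (i := j) (fun i => ?_) ?_ (summable_height B _) (summable_mass B _)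
  · refine mul_le_mul_of_nonneg_left ?_ (wt_pos i).le
    exact mul_le_of_le_one_right (Box.χ_nonneg x) ((B i).θ_le _)
  · refine mul_lt_mul_of_pos_left ?_ (wt_pos j)
    refine mul_lt_of_lt_one_right (Box.χ_pos hj2) ?_
    obtain ⟨c, hc, hcl⟩ := hj1
    have hcl' : (B j).e.symm c = l := hcl
    rw [← hcl', (B j).θ_symm]
    exact clamp_lt_one (B j).hαβ hc

theorem neg_mass_lt_height {x : ℝ} {l : X} (hl : l ∈ F.U x) :
    - mass B x < height B (l, x) := by
  obtain ⟨j, hj1, hj2⟩ := hB (l, x) hl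
  unfold mass
  rw [← tsum_neg]
  refine Summable.tsum_lt_tsum (i := j) (fun i => ?_) ?_ (summable_mass B _).neg
    (summable_height B _)
  · rw [← mul_neg]
    refine mul_le_mul_of_nonneg_left ?_ (wt_pos i).le
    have := mul_le_mul_of_nonneg_left ((B i).le_θ l) (Box.χ_nonneg (B := B i) x)
    simpa using this
  · rw [← mul_neg]
    refine mul_lt_mul_of_pos_left ?_ (wt_pos j)
    obtain ⟨c, hc, hcl⟩ := hj1
    have hcl' : (B j).e.symm c = l := hcl
    have h1 : -1 < (B j).θ l := by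
      rw [← hcl', (B j).θ_symm]
      exact neg_one_lt_clamp (B j).hαβ hc
    have := mul_lt_mul_of_pos_left h1 (Box.χ_pos hj2)
    simpa using this

omit hB in
/-- points above finitely many boxes -/
theorem exists_top {x : ℝ} (hx : (F.U x).Nonempty) (N : ℕ) :
    ∃ l ∈ F.U x, ∀ j < N, x ∈ Ioo (B j).a (B j).b → (B j).θ l = 1 := by
  induction N with
  | zero =>
    obtain ⟨l, hl⟩ := hx
    exact ⟨l, hl, fun j hj => absurd hj (Nat.not_lt_zero j)⟩
  | succ N ih =>
    obtain ⟨l, hl, hN⟩ := ih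
    by_cases hxN : x ∈ Ioo (B N).a (B N).b
    · have hβ := Box.β_mem_U (B := B N) hxN
      have hle : ∀ k ∈ F.U x, ∀ i, x ∈ Ioo (B i).a (B i).b → ∀ k' ∈ F.U x, (B i).θ k' = 1 →
          (k' = k ∨ k ∈ o.up k') → (B i).θ k = 1 := by
        rintro k hk i hi k' hk' h1 (rfl | h2)
        · exact h1
        · exact le_antisymm ((B i).θ_le _) (h1 ▸ Box.θ_mono hi hk' hk h2)
      have hcmp : (l = (B N).e.symm (B N).β ∨ (B N).e.symm (B N).β ∈ o.up l) ∨
          l ∈ o.up ((B N).e.symm (B N).β) := by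
        by_cases h1 : (B N).e.symm (B N).β = l
        · exact Or.inl (Or.inl h1.symm)
        · rcases o.up_or_dn h1 with h2 | h2
          · exact Or.inl (Or.inr h2)
          · exact Or.inr (((F.isLine hl).mem_up_iff o hβ hl).2 h2)
      rcases hcmp with h1 | h1
      · refine ⟨_, hβ, fun j hj hxj => ?_⟩
        rcases Nat.lt_succ_iff_lt_or_eq.1 hj with h2 | rfl
        · exact hle _ hβ j hxj l hl (hN j h2 hxj) h1
        · exact Box.θ_β
      · refine ⟨l, hl, fun j hj hxj => ?_⟩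
        rcases Nat.lt_succ_iff_lt_or_eq.1 hj with h2 | rfl
        · exact hN j h2 hxj
        · exact hle l hl j hxj _ hβ Box.θ_β (Or.inr h1)
    · refine ⟨l, hl, fun j hj hxj => ?_⟩
      rcases Nat.lt_succ_iff_lt_or_eq.1 hj with h2 | rfl
      · exact hN j h2 hxj
      · exact absurd hxj hxN

omit hB in
/-- points below finitely many boxes -/
theorem exists_bot {x : ℝ} (hx : (F.U x).Nonempty) (N : ℕ) :
    ∃ l ∈ F.U x, ∀ j < N, x ∈ Ioo (B j).a (B j).b → (B j).θ l = -1 := by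
  induction N with
  | zero =>
    obtain ⟨l, hl⟩ := hx
    exact ⟨l, hl, fun j hj => absurd hj (Nat.not_lt_zero j)⟩
  | succ N ih =>
    obtain ⟨l, hl, hN⟩ := ih
    by_cases hxN : x ∈ Ioo (B N).a (B N).b
    · have hα := Box.α_mem_U (B := B N) hxN
      have hle : ∀ k ∈ F.U x, ∀ i, x ∈ Ioo (B i).a (B i).b → ∀ k' ∈ F.U x, (B i).θ k' = -1 →
          (k' = k ∨ k' ∈ o.up k) → (B i).θ k = -1 := by
        rintro k hk i hi k' hk' h1 (rfl | h2)
        · exact h1
        · exact le_antisymm (h1 ▸ Box.θ_mono hi hk hk' h2) ((B i).le_θ _)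
      have hcmp : (l = (B N).e.symm (B N).α ∨ l ∈ o.up ((B N).e.symm (B N).α)) ∨
          (B N).e.symm (B N).α ∈ o.up l := by
        by_cases h1 : (B N).e.symm (B N).α = l
        · exact Or.inl (Or.inl h1.symm)
        · rcases o.up_or_dn h1 with h2 | h2
          · exact Or.inr h2
          · exact Or.inl (Or.inr (((F.isLine hl).mem_up_iff o hα hl).2 h2))
      rcases hcmp with h1 | h1
      · refine ⟨_, hα, fun j hj hxj => ?_⟩
        rcases Nat.lt_succ_iff_lt_or_eq.1 hj with h2 | rfl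
        · exact hle _ hα j hxj l hl (hN j h2 hxj) h1
        · exact Box.θ_α
      · refine ⟨l, hl, fun j hj hxj => ?_⟩
        rcases Nat.lt_succ_iff_lt_or_eq.1 hj with h2 | rfl
        · exact hN j h2 hxj
        · exact hle l hl j hxj _ hα Box.θ_α (Or.inr h1)
    · refine ⟨l, hl, fun j hj hxj => ?_⟩
      rcases Nat.lt_succ_iff_lt_or_eq.1 hj with h2 | rfl
      · exact hN j h2 hxj
      · exact absurd hxj hxN

omit hB in
theorem tail_bound {f : ℕ → ℝ} (N : ℕ) (h0 : ∀ j < N, f j = 0) (hf : ∀ j, f j ≤ 2 * wt j)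
    (hs : Summable f) : ∑' j, f j ≤ 4 * wt N := by
  rw [← hs.sum_add_tsum_nat_add N, Finset.sum_eq_zero (fun j hj => h0 j (Finset.mem_range.1 hj)),
    zero_add]
  have h1 : ∀ j, f (j + N) ≤ 2 * wt N * wt j := by
    intro j
    refine (hf _).trans (le_of_eq ?_)
    unfold wt
    rw [pow_add]; ring
  have h2 : Summable fun j => 2 * wt N * wt j := summable_wt.mul_left _
  refine ((summable_nat_add_iff N).2 hs).tsum_le_tsum h1 h2 |>.trans (le_of_eq ?_)
  rw [tsum_mul_left]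
  have : ∑' j, wt j = 2 := tsum_geometric_two
  rw [this]; ring

omit hB in
theorem exists_wt_lt {ε : ℝ} (hε : 0 < ε) : ∃ N, 4 * wt N < ε := by
  obtain ⟨N, hN⟩ := exists_pow_lt_of_lt_one (show 0 < ε / 4 by linarith)
    (show (1 / 2 : ℝ) < 1 by norm_num)
  exact ⟨N, by unfold wt; linarith⟩

omit hB in
theorem exists_height_gt {x : ℝ} (hx : (F.U x).Nonempty) {t : ℝ} (ht : t < mass B x) :
    ∃ l ∈ F.U x, t < height B (l, x) := by
  obtain ⟨N, hN⟩ := exists_wt_lt (sub_pos.2 ht)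
  obtain ⟨l, hl, hlN⟩ := exists_top (B := B) hx N
  refine ⟨l, hl, ?_⟩
  have h1 : mass B x - height B (l, x) ≤ 4 * wt N := by
    unfold mass height
    rw [← (summable_mass B x).tsum_sub (summable_height B (l, x))]
    refine tail_bound N ?_ ?_ ((summable_mass B x).sub (summable_height B (l, x)))
    · intro j hj
      by_cases hχ : (B j).χ x = 0
      · simp [hχ]
      · simp [hlN j hj (Box.mem_of_χ_ne hχ)]
    · intro j
      have h2 := abs_le.1 (abs_term_le B j (l, x))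
      have h3 : wt j * (B j).χ x ≤ wt j := mul_le_of_le_one_right (wt_pos j).le (Box.χ_le x)
      linarith [h2.1]
  linarith

omit hB in
theorem exists_height_lt {x : ℝ} (hx : (F.U x).Nonempty) {t : ℝ} (ht : - mass B x < t) :
    ∃ l ∈ F.U x, height B (l, x) < t := by
  obtain ⟨N, hN⟩ := exists_wt_lt (show 0 < t + mass B x by linarith)
  obtain ⟨l, hl, hlN⟩ := exists_bot (B := B) hx N
  refine ⟨l, hl, ?_⟩
  have h1 : mass B x + height B (l, x) ≤ 4 * wt N := by
    unfold mass height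
    rw [← (summable_mass B x).tsum_add (summable_height B (l, x))]
    refine tail_bound N ?_ ?_ ((summable_mass B x).add (summable_height B (l, x)))
    · intro j hj
      by_cases hχ : (B j).χ x = 0
      · simp [hχ]
      · simp [hlN j hj (Box.mem_of_χ_ne hχ)]
    · intro j
      have h2 := abs_le.1 (abs_term_le B j (l, x))
      have h3 : wt j * (B j).χ x ≤ wt j := mul_le_of_le_one_right (wt_pos j).le (Box.χ_le x)
      linarith [h2.2]
  linarith

end height

end Pool.Agent.LSP.F0
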