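import Pool.Agent.LSP.Gens

set_option autoImplicit false

/-!
# MP_52aa73_nt (sign patterns of Liouville's function): rare patterns

Definitions of the statement (`Occ`, `OccPM`, `Rare`) and the link with certificates.
-/

open Finset

namespace Pool.Agent.LSP

open Pool.Agent.LLO

/-- the sign pattern `e` of length 5 occurs at `n`: `λ(n + m) = e_m` for `1 ≤ m ≤ 5`
(here `m : Fin 5` is `m + 1`). -/
def Occ (e : Fin 5 → ℤ) (n : ℕ) : Prop :=
  ∀ m : Fin 5, (-1 : ℤ) ^ ArithmeticFunction.cardFactors (n + (m + 1)) = e m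

/-- `e` or `-e` occurs at `n` -/
def OccPM (e : Fin 5 → ℤ) (n : ℕ) : Prop := Occ e n ∨ Occ (-e) n

open Classical in
/-- the set of the `n ≥ 1` at which `e` or `-e` occurs has logarithmic density zero -/
def Rare (e : Fin 5 → ℤ) : Prop :=
  ∀ ε : ℝ, 0 < ε → ∃ Z0 : ℕ, ∀ Z : ℕ, Z0 ≤ Z →
    ∑ n ∈ (Icc 1 Z).filter (fun n => OccPM e n), 1 / (n : ℝ) ≤ ε * Real.log Z

/-- the code of a pattern -/
def code (e : Fin 5 → ℤ) : ℕ :=
  (if e 0 ≠ e 1 then 1 else 0) + (if e 1 ≠ e 2 then 2 else 0) + (if e 2 ≠ e 3 then 4 else 0) +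
    (if e 3 ≠ e 4 then 8 else 0)

theorem code_lt (e : Fin 5 → ℤ) : code e < 16 := by
  unfold code
  split_ifs <;> norm_num

theorem cod_four (s : ℕ → Bool) : cod 4 s = (if s 0 then 1 else 0) + (if s 1 then 2 else 0) +
    (if s 2 then 4 else 0) + (if s 3 then 8 else 0) := by
  simp [cod]

theorem cod_lt (s : ℕ → Bool) : cod 4 s < 16 := by
  rw [cod_four]
  split_ifs <;> norm_num

/-- integral version of `lam` -/
private def li (n : ℕ) : ℤ := (-1) ^ ArithmeticFunction.cardFactors n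

private theorem li_or (n : ℕ) : li n = 1 ∨ li n = -1 := neg_one_pow_eq_or ℤ _

private theorem lam_li (n : ℕ) : lam n = (li n : ℝ) := by
  unfold lam li; push_cast; rfl

private theorem zb_li (m : ℕ) : zb m = true ↔ li m ≠ li (m + 1) := by
  unfold zb
  rw [decide_eq_true_eq, lam_li, lam_li, Ne, Int.cast_inj]

theorem occPM_iff {e : Fin 5 → ℤ} (he : ∀ m, e m = 1 ∨ e m = -1) (n : ℕ) :
    OccPM e n ↔ cod 4 (sn (n + 1)) = code e := by
  have h0 := li_or (n + 1)
  have h1 := li_or (n + 2)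
  have h2 := li_or (n + 3)
  have h3 := li_or (n + 4)
  have h4 := li_or (n + 5)
  have e0 := he 0
  have e1 := he 1
  have e2 := he 2
  have e3 := he 3
  have e4 := he 4
  have z0 : sn (n + 1) 0 = true ↔ li (n + 1) ≠ li (n + 2) := zb_li _
  have z1 : sn (n + 1) 1 = true ↔ li (n + 2) ≠ li (n + 3) := zb_li _
  have z2 : sn (n + 1) 2 = true ↔ li (n + 3) ≠ li (n + 4) := zb_li _
  have z3 : sn (n + 1) 3 = true ↔ li (n + 4) ≠ li (n + 5) := zb_li _
  have ho : OccPM e n ↔ ((li (n + 1) = e 0 ∧ li (n + 2) = e 1 ∧ li (n + 3) = e 2 ∧ li (n + 4) = e 3 ∧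
      li (n + 5) = e 4) ∨ (li (n + 1) = -e 0 ∧ li (n + 2) = -e 1 ∧ li (n + 3) = -e 2 ∧
      li (n + 4) = -e 3 ∧ li (n + 5) = -e 4)) := by
    unfold OccPM Occ
    rw [Fin.forall_fin_succ, Fin.forall_fin_succ, Fin.forall_fin_succ, Fin.forall_fin_succ,
      Fin.forall_fin_one, Fin.forall_fin_succ, Fin.forall_fin_succ, Fin.forall_fin_succ,
      Fin.forall_fin_succ, Fin.forall_fin_one]
    rfl
  rw [ho, cod_four, code]
  simp only [z0, z1, z2, z3]
  generalize li (n + 1) = a0 at *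
  generalize li (n + 2) = a1 at *
  generalize li (n + 3) = a2 at *
  generalize li (n + 4) = a3 at *
  generalize li (n + 5) = a4 at *
  generalize e 0 = b0 at *
  generalize e 1 = b1 at *
  generalize e 2 = b2 at *
  generalize e 3 = b3 at *
  generalize e 4 = b4 at *
  clear ho z0 z1 z2 z3 he
  rcases h0 with rfl | rfl <;> rcases h1 with rfl | rfl <;> rcases h2 with rfl | rfl <;>
    rcases h3 with rfl | rfl <;> rcases h4 with rfl | rfl <;> rcases e0 with rfl | rfl <;>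
    rcases e1 with rfl | rfl <;> rcases e2 with rfl | rfl <;> rcases e3 with rfl | rfl <;>
    rcases e4 with rfl | rfl <;> decide

/-- the class of patterns with the code `w` is rare -/
def RareC (w : ℕ) : Prop :=
  ∀ ε : ℝ, 0 < ε → ∃ Z0 : ℕ, ∀ Z : ℕ, Z0 ≤ Z →
    ∑ n ∈ Icc 1 Z, (if cod 4 (sn (n + 1)) = w then (1 : ℝ) else 0) / n ≤ ε * Real.log Z

theorem rare_iff {e : Fin 5 → ℤ} (he : ∀ m, e m = 1 ∨ e m = -1) : Rare e ↔ RareC (code e) := by
  have key : ∀ Z : ℕ, open Classical in ∑ n ∈ (Icc 1 Z).filter (fun n => OccPM e n), 1 / (n : ℝ) =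
      ∑ n ∈ Icc 1 Z, (if cod 4 (sn (n + 1)) = code e then (1 : ℝ) else 0) / n := by
    intro Z
    classical
    rw [sum_filter]
    refine sum_congr rfl fun n _ => ?_
    by_cases h : OccPM e n
    · rw [if_pos h, if_pos ((occPM_iff he n).1 h)]
    · rw [if_neg h, if_neg fun h' => h ((occPM_iff he n).2 h'), zero_div]
  unfold Rare RareC
  simp only [key]

/-- the classes in `f` are not all rare -/
theorem not_rare (c : Cer) (f : ℕ → Bool) (h : c.chk f = true) : ∃ w, f w = true ∧ ¬ RareC w := by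
  by_contra hcon
  push Not at hcon
  have h0 := h
  simp only [Cer.chk, Cer.base, Bool.and_eq_true, decide_eq_true_eq] at h0
  obtain ⟨⟨⟨⟨-, hD⟩, hK⟩, -⟩, -⟩ := h0.1
  have hDr : (0 : ℝ) < c.D := by exact_mod_cast hD
  have hKr : (0 : ℝ) < c.K := by exact_mod_cast hK
  set δ : ℝ := c.K / (2 * c.D) with hδd
  have hδ : δ * c.D < c.K := by
    rw [hδd, div_mul_eq_mul_div, div_lt_iff₀ (by positivity)]
    nlinarith
  have hδ0 : 0 < δ := by positivity
  obtain ⟨Z1, h1⟩ := c.sound f h δ hδ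
  have h2 : ∀ w : ℕ, ∃ Z0 : ℕ, ∀ Z : ℕ, Z0 ≤ Z → f w = true →
      ∑ n ∈ Icc 1 Z, (if cod 4 (sn (n + 1)) = w then (1 : ℝ) else 0) / n ≤ δ / 32 * Real.log Z := by
    intro w
    by_cases hw : f w = true
    · obtain ⟨Z0, h3⟩ := hcon w hw (δ / 32) (by positivity)
      exact ⟨Z0, fun Z hZ _ => h3 Z hZ⟩
    · exact ⟨0, fun Z _ h' => absurd h' hw⟩
  choose Zw hZw using h2
  set Z : ℕ := max (max Z1 (∑ w ∈ range 16, Zw w)) ⌈Real.exp (4 / δ)⌉₊ with hZ
  have hZ1 : Z1 ≤ Z := (le_max_left _ _).trans (le_max_left _ _)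
  have hZ2 : ∀ w ∈ range 16, Zw w ≤ Z := fun w hw =>
    ((single_le_sum (f := Zw) (fun _ _ => Nat.zero_le _) hw).trans (le_max_right _ _)).trans (le_max_left _ _)
  have hZ3 : Real.exp (4 / δ) ≤ Z := (Nat.le_ceil _).trans (by exact_mod_cast le_max_right _ _)
  have hZ0 : (0 : ℝ) < Z := (Real.exp_pos _).trans_le hZ3
  have hlog : 4 / δ ≤ Real.log Z := (Real.le_log_iff_exp_le hZ0).2 hZ3
  rw [div_le_iff₀ hδ0] at hlog
  have hmain : LS (fun n => if f (cod 4 (sn n)) = true then 1 else 0) Z ≤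
      1 + ∑ w ∈ range 16, (if f w = true then
        ∑ n ∈ Icc 1 Z, (if cod 4 (sn (n + 1)) = w then (1 : ℝ) else 0) / n else 0) := by
    have hb : ∀ n : ℕ, (if f (cod 4 (sn n)) = true then (1 : ℝ) else 0) =
        ∑ w ∈ range 16, (if f w = true then (if cod 4 (sn n) = w then (1 : ℝ) else 0) else 0) := by
      intro n
      rw [sum_eq_single (cod 4 (sn n))]
      · simp
      · intro w _ hw
        have hne : ¬ cod 4 (sn n) = w := fun h' => hw h'.symm
        simp [hne]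
      · intro hn
        exact absurd (mem_range.2 (cod_lt _)) hn
    have hsh : ∀ g : ℕ → ℝ, (∀ n, 0 ≤ g n ∧ g n ≤ 1) → ∀ Z : ℕ, LS g Z ≤ 1 + ∑ n ∈ Icc 1 Z, g (n + 1) / n := by
      intro g hg Z
      have key : ∀ Z : ℕ, LS g (Z + 1) ≤ 1 + ∑ n ∈ Icc 1 Z, g (n + 1) / n := by
        intro Z
        induction Z with
        | zero =>
          simp only [LS]
          simpa using (hg 1).2
        | succ Z ih =>
          rw [LS_succ, sum_Icc_succ_top (by omega)]
          have h5 : g (Z + 1 + 1) / (((Z + 1 : ℕ) : ℝ) + 1) ≤ g (Z + 1 + 1) / ((Z + 1 : ℕ) : ℝ) := by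
            refine div_le_div_of_nonneg_left (hg _).1 ?_ (by linarith)
            exact_mod_cast Nat.succ_pos Z
          linarith
      rcases Nat.eq_zero_or_pos Z with rfl | hZ
      · simp [LS]
      · obtain ⟨Y, rfl⟩ := Nat.exists_eq_succ_of_ne_zero hZ.ne'
        refine (key Y).trans ?_
        rw [Nat.succ_eq_add_one, sum_Icc_succ_top (by omega)]
        have : 0 ≤ g (Y + 1 + 1) / ((Y + 1 : ℕ) : ℝ) := div_nonneg (hg _).1 (Nat.cast_nonneg _)
        linarith
    refine (hsh _ (fun n => by split_ifs <;> norm_num) Z).trans ?_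
    simp only [hb, sum_div]
    rw [sum_comm]
    refine add_le_add le_rfl (le_of_eq (sum_congr rfl fun w _ => ?_))
    by_cases hw : f w = true
    · simp [hw]
    · simp [hw]
  have hw2 : ∑ w ∈ range 16, (if f w = true then
        ∑ n ∈ Icc 1 Z, (if cod 4 (sn (n + 1)) = w then (1 : ℝ) else 0) / n else 0) ≤
      ∑ w ∈ range 16, δ / 32 * Real.log Z := by
    refine sum_le_sum fun w hw => ?_
    split_ifs with hf
    · exact hZw w Z (hZ2 w hw) hf
    · have : 0 ≤ Real.log Z := Real.log_natCast_nonneg Z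
      positivity
  rw [sum_const, card_range, nsmul_eq_mul] at hw2
  have h6 := h1 Z hZ1
  push_cast at hw2
  nlinarith

end Pool.Agent.LSP
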