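import Pool.Agent.LSP.Defs

/-!
# LSP module RealBox (size 3)

Product charts of the plane from product charts of `X × Y`.
-/

open Set Topology Filter

namespace Pool.Agent.LSP

open Pool.Agent.H86.Bifol

variable {X Y : Type*} [TopologicalSpace X] [TopologicalSpace Y] [SCM X] [SCM Y]

/-- Small product charts. PROOF. Let `e`, `e'` be charts at `p.1`, `p.2` (`exists_chart`). The set
`{v | (e.symm v.1, e'.symm v.2) ∈ Ω}` is a neighbourhood of `(e p.1, e' p.2)`: it contains a product
`Ioo a b ×ˢ Ioo c d` containing this point. The chart `E₁ : OpenPartialHomeomorph (X × Y) (ℝ × ℝ)` is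
`e.prod e'` restricted to the preimage of `Ioo a b ×ˢ Ioo c d` followed by the affine homeomorphism of the
plane which maps `Ioo a b ×ˢ Ioo c d` to `Square` and by the swap of the coordinates (we want the
`Y`-coordinate first: horizontal segments, i.e. level sets of the second coordinate, are the
sets where the `X`-coordinate is constant). See `exists_plane_box` in H86/FromMap.lean for the same
construction done by hand. -/
theorem exists_box_chart {Ω : Set (X × Y)} (hΩ : IsOpen Ω) {p : X × Y} (hp : p ∈ Ω) :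
    ∃ E : OpenPartialHomeomorph (X × Y) (ℝ × ℝ), p ∈ E.source ∧ E.source ⊆ Ω ∧
      E.target = Square ∧ (∀ q ∈ E.source, ∀ r ∈ E.source, q.1 = r.1 ↔ (E q).2 = (E r).2) ∧
      ∀ q ∈ E.source, ∀ r ∈ E.source, q.2 = r.2 ↔ (E q).1 = (E r).1 := by
  obtain ⟨e, he, het⟩ := exists_chart p.1
  obtain ⟨e', he', het'⟩ := exists_chart p.2
  set F : OpenPartialHomeomorph (X × Y) (ℝ × ℝ) := e.prod e' with hF
  have hFs : F.source = e.source ×ˢ e'.source := rfl
  have hFt : F.target = univ := by
    have : F.target = e.target ×ˢ e'.target := rfl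
    rw [this, het, het', univ_prod_univ]
  have hpF : p ∈ F.source := by
    rw [hFs]
    exact ⟨he, he'⟩
  have hT : {v | F.symm v ∈ Ω} ∈ 𝓝 (F p) := by
    have h1 : ContinuousAt F.symm (F p) := F.symm.continuousAt (by
      rw [F.symm_source, hFt]
      trivial)
    refine h1.preimage_mem_nhds ?_
    rw [F.left_inv hpF]
    exact hΩ.mem_nhds hp
  obtain ⟨ε, hε, hball⟩ := Metric.mem_nhds_iff.1 hT
  have hε' : ε ≠ 0 := hε.ne'
  let A : (ℝ × ℝ) ≃ₜ (ℝ × ℝ) :=
    { toFun := fun v => ((v.2 - (F p).2) / ε, (v.1 - (F p).1) / ε)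
      invFun := fun v => (ε * v.2 + (F p).1, ε * v.1 + (F p).2)
      left_inv := fun v => by
        refine Prod.ext ?_ ?_
        · show ε * ((v.1 - (F p).1) / ε) + (F p).1 = v.1
          field_simp
          ring
        · show ε * ((v.2 - (F p).2) / ε) + (F p).2 = v.2
          field_simp
          ring
      right_inv := fun v => by
        refine Prod.ext ?_ ?_
        · show (ε * v.1 + (F p).2 - (F p).2) / ε = v.1
          field_simp
          ring
        · show (ε * v.2 + (F p).1 - (F p).1) / ε = v.2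
          field_simp
          ring
      continuous_toFun := by fun_prop
      continuous_invFun := by fun_prop }
  have hA : ∀ v, A v = ((v.2 - (F p).2) / ε, (v.1 - (F p).1) / ε) := fun v => rfl
  let G : OpenPartialHomeomorph (ℝ × ℝ) (X × Y) := A.symm.toOpenPartialHomeomorph.trans F.symm
  have hGs : G.source = univ := by
    ext v
    simp only [G, OpenPartialHomeomorph.trans_source, mem_inter_iff, mem_univ, iff_true]
    refine ⟨trivial, ?_⟩
    show A.symm v ∈ F.symm.source
    rw [F.symm_source, hFt]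
    trivial
  have hSq : IsOpen (Square : Set (ℝ × ℝ)) := isOpen_Ioo.prod isOpen_Ioo
  let E : OpenPartialHomeomorph (X × Y) (ℝ × ℝ) := (G.restrOpen Square hSq).symm
  have hEt : E.target = Square := by
    have h1 : E.target = G.source ∩ Square := rfl
    rw [h1, hGs, univ_inter]
  have hEa : ∀ q, E q = A (F q) := fun q => rfl
  have hEs : ∀ q, q ∈ E.source ↔ q ∈ F.source ∧ A (F q) ∈ Square := by
    intro q
    have h1 : E.source = G.target ∩ G.symm ⁻¹' Square := rfl
    have h2 : G.target = F.source := by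
      ext q
      simp only [G, OpenPartialHomeomorph.trans_target, mem_inter_iff]
      constructor
      · intro h
        exact h.1
      · intro h
        exact ⟨h, trivial⟩
    rw [h1, h2]
    rfl
  refine ⟨E, ?_, ?_, hEt, ?_, ?_⟩
  · rw [hEs, hA]
    refine ⟨hpF, ?_⟩
    rw [sub_self, sub_self, zero_div]
    exact ⟨⟨by norm_num, by norm_num⟩, by norm_num, by norm_num⟩
  · intro q hq
    rw [hEs, hA] at hq
    obtain ⟨h1, ⟨h2, h3⟩, h4, h5⟩ := hq
    simp only at h2 h3 h4 h5
    rw [lt_div_iff₀ hε] at h2 h4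
    rw [div_lt_iff₀ hε] at h3 h5
    have h6 : F q ∈ Metric.ball (F p) ε := by
      rw [Metric.mem_ball, Prod.dist_eq, max_lt_iff, Real.dist_eq, Real.dist_eq, abs_lt, abs_lt]
      refine ⟨⟨by linarith, by linarith⟩, by linarith, by linarith⟩
    have h7 := hball h6
    rw [mem_ofPred_eq, F.left_inv h1] at h7
    exact h7
  · intro q hq r hr
    rw [hEs] at hq hr
    rw [hEa, hEa, hA, hA]
    show q.1 = r.1 ↔ (e q.1 - (F p).1) / ε = (e r.1 - (F p).1) / ε
    rw [div_left_inj' hε', sub_left_inj]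
    exact ⟨fun h => by rw [h], fun h => e.injOn hq.1.1 hr.1.1 h⟩
  · intro q hq r hr
    rw [hEs] at hq hr
    rw [hEa, hEa, hA, hA]
    show q.2 = r.2 ↔ (e' q.2 - (F p).2) / ε = (e' r.2 - (F p).2) / ε
    rw [div_left_inj' hε', sub_left_inj]
    exact ⟨fun h => by rw [h], fun h => e'.injOn hq.1.2 hr.1.2 h⟩

/-- PROOF. `E := Ψ.toOpenPartialHomeomorph.trans (openPartialHomeomorphSubtypeCoe … |>.trans E₁)` for the
`E₁` of `exists_box_chart` at `(Ψ p).1` (see the beginning of the proof of `exists_plane_box` in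
H86/FromMap.lean for the first part). The source is `{q | (Ψ q).1 ∈ E₁.source}`, the target is
`Square` because `E₁.source ⊆ Ω`. -/
theorem exists_plane_box' {Ω : Set (X × Y)} (hΩ : IsOpen Ω) (Ψ : ℝ × ℝ ≃ₜ Ω) (p : ℝ × ℝ) :
    ∃ E : OpenPartialHomeomorph (ℝ × ℝ) (ℝ × ℝ), p ∈ E.source ∧ E.target = Square ∧
      (∀ q ∈ E.source, ∀ r ∈ E.source, (Ψ q).1.1 = (Ψ r).1.1 ↔ (E q).2 = (E r).2) ∧
      (∀ q ∈ E.source, ∀ r ∈ E.source, (Ψ q).1.2 = (Ψ r).1.2 ↔ (E q).1 = (E r).1) := by
  obtain ⟨E₁, hp, hsub, htar, h1, h2⟩ := exists_box_chart hΩ (Ψ p).2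
  have hne : Nonempty Ω := ⟨Ψ p⟩
  set E₀ : OpenPartialHomeomorph (ℝ × ℝ) (X × Y) := Ψ.toOpenPartialHomeomorph.trans
    ((⟨Ω, hΩ⟩ : TopologicalSpace.Opens (X × Y)).openPartialHomeomorphSubtypeCoe hne)
    with hE₀
  have hE₀s : E₀.source = univ := by simp [hE₀]
  have hE₀t : E₀.target = Ω := by simp [hE₀]
  have hE₀a : ∀ q, E₀ q = (Ψ q).1 := fun q => rfl
  have hs : ∀ q, q ∈ (E₀.trans E₁).source ↔ (Ψ q).1 ∈ E₁.source := by
    intro q
    rw [OpenPartialHomeomorph.trans_source, mem_inter_iff, hE₀s, mem_preimage, hE₀a]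
    exact ⟨fun h => h.2, fun h => ⟨trivial, h⟩⟩
  refine ⟨E₀.trans E₁, (hs p).2 hp, ?_, ?_, ?_⟩
  · ext v
    rw [OpenPartialHomeomorph.trans_target, mem_inter_iff, htar, mem_preimage, hE₀t]
    refine ⟨fun h => h.1, fun h => ⟨h, hsub (E₁.map_target (htar ▸ h))⟩⟩
  · intro q hq r hr
    exact h1 _ ((hs q).1 hq) _ ((hs r).1 hr)
  · intro q hq r hr
    exact h2 _ ((hs q).1 hq) _ ((hs r).1 hr)

end Pool.Agent.LSP
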