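import Pool.Agent.LSP.Defs
import Pool.Agent.LSP.Homeo0

/-!
# LSP module Strip (size 3)

The part of `Ω` over an open line of `X` is a plane.
-/

open Set Topology Filter

namespace Pool.Agent.LSP

open Pool.Agent.H86.Bifol

variable {X Y : Type*} [TopologicalSpace X] [TopologicalSpace Y] [SCM X] [SCM Y]

/-- The family of slices over a line. -/
noncomputable def stripFam {Ω : Set (X × Y)} (h : Slices Ω) {ℓ : ℝ → X}
    (hℓ : IsOpenEmbedding ℓ) : F0.Fam Y where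
  U t := {y | ∃ s, F0.κ s = t ∧ (ℓ s, y) ∈ Ω}
  isOpen := by
    have h1 : IsOpen {q : Y × ℝ | (ℓ q.2, q.1) ∈ Ω} :=
      h.isOpen.preimage ((hℓ.continuous.comp continuous_snd).prodMk continuous_fst)
    have h2 : IsOpenMap (Prod.map (id : Y → Y) F0.κ) :=
      IsOpenMap.id.prodMap F0.isOpenEmbedding_κ.isOpenMap
    have h3 : {p : Y × ℝ | p.1 ∈ {y | ∃ s, F0.κ s = p.2 ∧ (ℓ s, y) ∈ Ω}} =
        Prod.map (id : Y → Y) F0.κ '' {q : Y × ℝ | (ℓ q.2, q.1) ∈ Ω} := by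
      ext ⟨y, t⟩
      constructor
      · rintro ⟨s, hs, hy⟩
        exact ⟨(y, s), hy, Prod.ext rfl hs⟩
      · rintro ⟨⟨y', s⟩, hy, heq⟩
        have e1 : y' = y := congrArg Prod.fst heq
        have e2 : F0.κ s = t := congrArg Prod.snd heq
        subst e1
        exact ⟨s, e2, hy⟩
    rw [h3]
    exact h2 _ h1
  ordC y := by
    have h1 : IsPreconnected ({x | (x, y) ∈ Ω} ∩ range ℓ) :=
      isPreconnected_inter (h.snd y).pre (h.snd y).isOpen
        (isPreconnected_range hℓ.continuous) hℓ.isOpen_range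
    have h2 : IsPreconnected {s | (ℓ s, y) ∈ Ω} := by
      rw [← hℓ.isInducing.isPreconnected_image]
      have h3 : ℓ '' {s | (ℓ s, y) ∈ Ω} = {x | (x, y) ∈ Ω} ∩ range ℓ := by
        ext x
        constructor
        · rintro ⟨s, hs, rfl⟩
          exact ⟨hs, s, rfl⟩
        · rintro ⟨hx, s, rfl⟩
          exact ⟨s, hx, rfl⟩
      rw [h3]
      exact h1
    have h4 : {t | y ∈ {y | ∃ s, F0.κ s = t ∧ (ℓ s, y) ∈ Ω}} =
        F0.κ '' {s | (ℓ s, y) ∈ Ω} := by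
      ext t
      constructor
      · rintro ⟨s, hs, hy⟩
        exact ⟨s, hy, hs⟩
      · rintro ⟨s, hy, hs⟩
        exact ⟨s, hs, hy⟩
    rw [h4]
    exact (h2.image _ F0.isOpenEmbedding_κ.continuous.continuousOn).ordConnected
  pre t := by
    by_cases ht : ∃ s, F0.κ s = t
    · obtain ⟨s, rfl⟩ := ht
      have h1 : {y | ∃ s', F0.κ s' = F0.κ s ∧ (ℓ s', y) ∈ Ω} = {y | (ℓ s, y) ∈ Ω} := by
        ext y
        constructor
        · rintro ⟨s', hs, hy⟩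
          rw [F0.isOpenEmbedding_κ.injective hs] at hy
          exact hy
        · intro hy
          exact ⟨s, rfl, hy⟩
      rw [h1]
      exact (h.fst (ℓ s)).pre
    · have h1 : {y | ∃ s', F0.κ s' = t ∧ (ℓ s', y) ∈ Ω} = ∅ := by
        ext y
        simp only [mem_ofPred_eq, mem_empty_iff_false, iff_false]
        rintro ⟨s, hs, -⟩
        exact ht ⟨s, hs⟩
      rw [h1]
      exact isPreconnected_empty
  sep t := by
    rintro y ⟨s, hs, hy⟩ y' ⟨s', hs', hy'⟩ hn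
    have : s = s' := F0.isOpenEmbedding_κ.injective (hs.trans hs'.symm)
    subst this
    exact (h.fst (ℓ s)).sep y hy y' hy' hn
  bdd t := by
    rintro ⟨y, s, rfl, -⟩
    rw [← F0.range_κ]
    exact ⟨s, rfl⟩

/-- PROOF. Apply `F0.exists_homeo` (Homeo0) to the family `U t := {y | ∃ s, F0.κ s = t ∧ (ℓ s, y) ∈ Ω}`. -/
theorem exists_strip [SecondCountableTopology Y] {Ω : Set (X × Y)} (h : Slices Ω) {ℓ : ℝ → X}
    (hℓ : IsOpenEmbedding ℓ) :
    ∃ ψ : ℝ × ℝ → Ω, IsOpenEmbedding ψ ∧ range ψ = {p : Ω | p.1.1 ∈ range ℓ} ∧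
      ∀ q, (ψ q).1.1 = ℓ q.1 := by
  set F := stripFam h hℓ with hF
  have hne : ∀ x ∈ Ioo (-1 : ℝ) 1, (F.U x).Nonempty := by
    intro x hx
    rw [← F0.range_κ] at hx
    obtain ⟨s, rfl⟩ := hx
    obtain ⟨y, hy⟩ := (h.fst (ℓ s)).nonempty
    exact ⟨y, s, rfl, hy⟩
  obtain ⟨Ψ, hΨ⟩ := F0.exists_homeo F hne
  have hmem : ∀ q, (ℓ q.1, (Ψ q).1.1) ∈ Ω := by
    intro q
    obtain ⟨s, hs, hy⟩ := (Ψ q).2
    rw [hΨ] at hs
    rw [F0.isOpenEmbedding_κ.injective hs] at hy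
    exact hy
  refine ⟨fun q => ⟨(ℓ q.1, (Ψ q).1.1), hmem q⟩, ?_, ?_, fun q => rfl⟩
  · have hG : IsOpenEmbedding (fun q => (Ψ q).1) :=
      F.isOpen.isOpenEmbedding_subtypeVal.comp Ψ.isOpenEmbedding
    have hm : IsOpenEmbedding (Prod.map (id : Y → Y) F0.κ) :=
      IsOpenEmbedding.id.prodMap F0.isOpenEmbedding_κ
    have hg : IsOpenEmbedding (fun q : ℝ × ℝ => ((Ψ q).1.1, q.1)) := by
      refine IsOpenEmbedding.of_comp _ hm ?_
      have : (Prod.map (id : Y → Y) F0.κ) ∘ (fun q : ℝ × ℝ => ((Ψ q).1.1, q.1)) =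
          fun q => (Ψ q).1 := by
        funext q
        exact Prod.ext rfl (hΨ q).symm
      rw [this]
      exact hG
    have h2 : IsOpenEmbedding (fun q : ℝ × ℝ => (ℓ q.1, (Ψ q).1.1)) := by
      have h3 : IsOpenEmbedding (Prod.map ℓ (id : Y → Y)) := hℓ.prodMap IsOpenEmbedding.id
      have h4 := h3.comp ((Homeomorph.prodComm Y ℝ).isOpenEmbedding.comp hg)
      exact h4
    refine IsOpenEmbedding.of_comp _ h.isOpen.isOpenEmbedding_subtypeVal ?_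
    exact h2
  · ext p
    constructor
    · rintro ⟨q, rfl⟩
      exact ⟨q.1, rfl⟩
    · rintro ⟨s, hs⟩
      have hp : (ℓ s, p.1.2) ∈ Ω := by
        rw [hs]
        exact p.2
      have hp2 : ((p.1.2, F0.κ s) : Y × ℝ) ∈ F.Ω := ⟨s, rfl, hp⟩
      refine ⟨Ψ.symm ⟨(p.1.2, F0.κ s), hp2⟩, ?_⟩
      have h1 := hΨ (Ψ.symm ⟨(p.1.2, F0.κ s), hp2⟩)
      rw [Ψ.apply_symm_apply] at h1
      have h2 : s = (Ψ.symm ⟨(p.1.2, F0.κ s), hp2⟩).1 := F0.isOpenEmbedding_κ.injective h1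
      refine Subtype.ext (Prod.ext ?_ ?_)
      · change ℓ (Ψ.symm ⟨(p.1.2, F0.κ s), hp2⟩).1 = p.1.1
        rw [← h2, hs]
      · change (Ψ (Ψ.symm ⟨(p.1.2, F0.κ s), hp2⟩)).1.1 = p.1.2
        rw [Ψ.apply_symm_apply]

end Pool.Agent.LSP
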